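import Pool.Agent.K3h82.CP.Cls

/-! Linear pencils: the rank. -/

set_option autoImplicit false
set_option linter.all false
set_option maxHeartbeats 400000

namespace Pool.Agent.K3h82.CP

open Polynomial

section
variable {M K : Type} [Field M] [Field K] [Algebra M K] {A B : M[X][X]} {ω : K} {n m : ℕ}
  {κ : Type} [Fintype κ] {π : κ → M[X][X]}

/-- representatives of the irreducible factors -/
structure Fac (B : M[X][X]) (π : κ → M[X][X]) : Prop where
  irr : ∀ j, Irreducible (π j)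
  dvd : ∀ j, π j ∣ B
  inj : ∀ i j, Associated (π i) (π j) → i = j
  all : ∀ p, Irreducible p → p ∣ B → ∃ j, Associated p (π j)

theorem Fac.rep (F : Fac B π) (hB0 : B ≠ 0) (s : M[X][X]) : ∀ {N : ℕ}, s ∣ B ^ N →
    ∃ f : κ → ℕ, Associated s (∏ j, π j ^ f j) := by
  classical
  induction s using WfDvdMonoid.induction_on_irreducible with
  | zero =>
    intro N h
    exact (pow_ne_zero N hB0 (zero_dvd_iff.1 h)).elim
  | unit u hu =>
    intro N _
    refine ⟨0, ?_⟩
    simp only [Pi.zero_apply, pow_zero, Finset.prod_const_one]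
    exact associated_one_iff_isUnit.2 hu
  | mul a i ha hi ih =>
    intro N h
    obtain ⟨f, hf⟩ := ih ((dvd_mul_left a i).trans h)
    obtain ⟨j, hj⟩ := F.all i hi (hi.prime.dvd_of_dvd_pow ((dvd_mul_right i a).trans h))
    refine ⟨f + Pi.single j 1, ?_⟩
    have e : ∏ k, π k ^ ((f + Pi.single j 1 : κ → ℕ) k) = π j * ∏ k, π k ^ f k := by
      have h1 : ∏ k, π k ^ (Pi.single j 1 : κ → ℕ) k = π j := by
        rw [Finset.prod_eq_single j]
        · rw [Pi.single_eq_same, pow_one]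
        · intro k _ hk
          rw [Pi.single_eq_of_ne hk, pow_zero]
        · intro h'
          exact (h' (Finset.mem_univ j)).elim
      rw [← h1, mul_comm, ← Finset.prod_mul_distrib]
      exact Finset.prod_congr rfl fun k _ => pow_add _ _ _
    rw [e]
    exact hj.mul_mul hf

/-- the leading coefficient of the homogenized polynomial -/
theorem hm_dvd {p : M[X][X]} (hp : Irreducible p) (hpB : p ∣ B) (hpA : ¬ p ∣ A) {N : ℕ} {g : M[X]}
    (h : p ∣ CP.hm (-A) B N (sg g)) : g.coeff N = 0 := by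
  by_contra h0
  apply hpA
  unfold CP.hm at h
  rw [Finset.sum_range_succ, Nat.sub_self, pow_zero, mul_one, sg_coeff] at h
  have h1 : p ∣ ∑ k ∈ Finset.range N, (sg g).coeff k * (-A) ^ k * B ^ (N - k) := by
    refine Finset.dvd_sum fun k hk => ?_
    have hk' := Finset.mem_range.1 hk
    exact (hpB.trans (dvd_pow_self _ (by omega))).mul_left _
  have h2 : p ∣ C (C (g.coeff N)) * (-A) ^ N := (dvd_add_right h1).1 h
  have hu : IsUnit (C (C (g.coeff N)) : M[X][X]) :=
    isUnit_C.2 (isUnit_C.2 (isUnit_iff_ne_zero.2 h0))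
  have h3 := (hu.dvd_mul_left).1 h2
  have h4 := hp.prime.dvd_of_dvd_pow h3
  exact (dvd_neg).1 h4

theorem Pen.half (h : Pen n m A B ω) (F : Fac B π) {e f : κ → ℕ} (hef : ∀ j, e j = 0 ∨ f j = 0)
    {p q : M[X]} (hp : p ≠ 0) (hq : q ≠ 0) (hpq : q.natDegree ≤ p.natDegree)
    (heq : (∏ j, π j ^ e j) * CP.hm (-A) B p.natDegree (sg p) =
      (∏ j, π j ^ f j) * CP.hm (-A) B p.natDegree (sg q)) : e = 0 ∧ f = 0 := by
  classical
  have hBn := h.hB.deg_lt h.hn h.hm
  have hpA : ∀ j, ¬ π j ∣ A := by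
    intro j hj
    apply h.ndvd
    exact ((F.irr j).associated_of_dvd h.irrA hj).symm.dvd.trans (F.dvd j)
  have hnd : ∀ (j : κ) (e : κ → ℕ), e j = 0 → ¬ π j ∣ ∏ k, π k ^ e k := by
    intro j e hj hd
    obtain ⟨k, -, hk⟩ := (F.irr j).prime.exists_mem_finset_dvd hd
    have hk0 : e k ≠ 0 := by
      intro h0
      rw [h0, pow_zero] at hk
      exact (F.irr j).not_isUnit (isUnit_of_dvd_one hk)
    have h1 := (F.irr j).prime.dvd_of_dvd_pow hk
    have h2 := F.inj j k ((F.irr j).associated_of_dvd (F.irr k) h1)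
    rw [h2] at hj
    exact hk0 hj
  have hdv : ∀ (j : κ) (e : κ → ℕ), e j ≠ 0 → π j ∣ ∏ k, π k ^ e k := by
    intro j e hj
    exact (dvd_pow_self _ hj).trans (Finset.dvd_prod_of_mem (fun k => π k ^ e k) (Finset.mem_univ j))
  have hf : f = 0 := by
    funext j
    by_contra hj
    have hj' : e j = 0 := (hef j).resolve_right hj
    have h1 : π j ∣ (∏ k, π k ^ e k) * CP.hm (-A) B p.natDegree (sg p) := by
      rw [heq]
      exact (hdv j f hj).mul_right _
    have h2 := ((F.irr j).prime.dvd_or_dvd h1).resolve_left (hnd j e hj')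
    have h3 := hm_dvd (F.irr j) (F.dvd j) (hpA j) h2
    exact hp (leadingCoeff_eq_zero.1 h3)
  refine ⟨?_, hf⟩
  by_cases hq' : q.coeff p.natDegree = 0
  · exfalso
    have hlt : q.natDegree < p.natDegree := by
      rcases hpq.lt_or_eq with h1 | h1
      · exact h1
      · rw [← h1] at hq'
        exact (hq (leadingCoeff_eq_zero.1 hq')).elim
    have hx0 : ∏ j, π j ^ e j ≠ 0 :=
      Finset.prod_ne_zero_iff.2 fun j _ => pow_ne_zero _ (F.irr j).ne_zero
    obtain ⟨h1, h2⟩ := hm_deg h.hA.monic h.hA.deg hBn hp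
    obtain ⟨r, hr⟩ := Nat.exists_eq_add_of_lt hlt
    obtain ⟨h3, h4⟩ := hm_deg h.hA.monic h.hA.deg hBn hq
    have h5 := congrArg natDegree heq
    rw [natDegree_mul hx0 h1, h2, hf] at h5
    simp only [Pi.zero_apply, pow_zero, Finset.prod_const_one, one_mul] at h5
    have h6 : CP.hm (-A) B p.natDegree (sg q) = B ^ (r + 1) * CP.hm (-A) B q.natDegree (sg q) := by
      rw [hr, add_assoc, hm_add (sg_deg q).le]
    rw [h6, natDegree_mul (pow_ne_zero _ h.hB0) h3, h4, natDegree_pow, hr] at h5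
    have h7 : (r + 1) * B.natDegree < (r + 1) * n := Nat.mul_lt_mul_of_pos_left hBn (by omega)
    have h8 : n * (q.natDegree + r + 1) = n * q.natDegree + (r + 1) * n := by ring
    omega
  · funext j
    by_contra hj
    have hj' : f j = 0 := congrFun hf j
    have h1 : π j ∣ (∏ k, π k ^ f k) * CP.hm (-A) B p.natDegree (sg q) := by
      rw [← heq]
      exact (hdv j e hj).mul_right _
    have h2 := ((F.irr j).prime.dvd_or_dvd h1).resolve_left (hnd j f hj')
    exact hq' (hm_dvd (F.irr j) (F.dvd j) (hpA j) h2)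

theorem Pen.gens (h : Pen n m A B ω) [IsDedekindDomain (AdjoinRoot (FF A B ω))] (F : Fac B π)
    [Fintype {Q : Ideal (AdjoinRoot (FF A B ω)) // Q.IsPrime ∧ io A B ω B ∈ Q}] :
    Gens (fun Q : {Q : Ideal (AdjoinRoot (FF A B ω)) // Q.IsPrime ∧ io A B ω B ∈ Q} => Q.1)
      (io A B ω B) (fun j => io A B ω (π j)) := by
  classical
  have hpr : ∀ e : κ → ℕ, ∏ j, io A B ω (π j) ^ e j = io A B ω (∏ j, π j ^ e j) := by
    intro e
    rw [map_prod]
    exact Finset.prod_congr rfl fun j _ => (map_pow _ _ _).symm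
  refine ⟨h.beta_ne, fun Q => Q.2.1, fun Q => Q.2.2, Subtype.val_injective,
    fun Q hQ hβ => ⟨⟨Q, hQ, hβ⟩, rfl⟩, fun Q hQ hQ0 hβ => h.gen Q hQ hQ0 hβ,
    fun j => _root_.map_dvd _ (F.dvd j), ?_, ?_⟩
  · intro e f hef has
    rw [hpr, hpr] at has
    obtain ⟨u, hu⟩ := has
    obtain ⟨c, hc0, hc⟩ := units h.hn h.hm h.hc h.cab u.isUnit
    have hc' : (u : AdjoinRoot (FF A B ω)) = ka A B ω c := hc
    obtain ⟨p, q, hq, hpq⟩ := h.ge c
    have hp : aeval ω p ≠ 0 := by
      rw [← hpq]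
      exact mul_ne_zero hc0 hq
    have hp0 : p ≠ 0 := by
      rintro rfl
      exact hp (map_zero _)
    have hq0 : q ≠ 0 := by
      rintro rfl
      exact hq (map_zero _)
    have key : ∀ N, p.natDegree ≤ N → q.natDegree ≤ N →
        (∏ j, π j ^ e j) * CP.hm (-A) B N (sg p) = (∏ j, π j ^ f j) * CP.hm (-A) B N (sg q) := by
      intro N h1 h2
      apply h.inj
      rw [map_mul, map_mul, io_hm h1, io_hm h2, ← hu, hc', ← hpq, map_mul (ka A B ω)]
      ring
    rcases le_total q.natDegree p.natDegree with h1 | h1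
    · exact h.half F hef hp0 hq0 h1 (key _ le_rfl h1)
    · have h2 := h.half F (fun j => (hef j).symm) hq0 hp0 h1 (key _ h1 le_rfl).symm
      exact ⟨h2.2, h2.1⟩
  · intro a N haN
    obtain ⟨b, hb⟩ := haN
    obtain ⟨c, s, k, l, L, hc, hs, heq⟩ := div_beta h.tr h.ge h.hn h.hm h.hc h.hA h.hB h.hB0 hb.symm
    obtain ⟨f, hf⟩ := F.rep h.hB0 s hs
    obtain ⟨μ, hμ⟩ := F.rep h.hB0 B (N := 1) (by rw [pow_one])
    have h1 : Associated (io A B ω s) (∏ j, io A B ω (π j) ^ f j) := by
      rw [hpr]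
      exact hf.map (io A B ω)
    have h2 : Associated (io A B ω B) (∏ j, io A B ω (π j) ^ μ j) := by
      rw [hpr]
      exact hμ.map (io A B ω)
    have h3 : ∀ k : ℕ, Associated (io A B ω B ^ k) (∏ j, io A B ω (π j) ^ (k * μ j)) := by
      intro k
      have h4 := h2.pow_pow (n := k)
      rw [← Finset.prod_pow] at h4
      refine h4.trans (Associated.of_eq ?_)
      exact Finset.prod_congr rfl fun j _ => by rw [← pow_mul, mul_comm]
    have hcu : IsUnit (ka A B ω c) := (isUnit_iff_ne_zero.2 hc).map _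
    refine ⟨fun j => k * μ j, fun j => f j + l * μ j, ?_⟩
    have h4 : ∏ j, io A B ω (π j) ^ (f j + l * μ j) =
        (∏ j, io A B ω (π j) ^ f j) * ∏ j, io A B ω (π j) ^ (l * μ j) := by
      rw [← Finset.prod_mul_distrib]
      exact Finset.prod_congr rfl fun j _ => pow_add _ _ _
    rw [h4]
    refine ((Associated.refl a).mul_mul (h3 k).symm).trans ?_
    rw [mul_comm a, heq]
    refine Associated.mul_mul ?_ (h3 l)
    exact (associated_unit_mul_left _ _ hcu).trans h1

/-- **The rank of the Jacobian.** -/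
theorem Pen.rank (h : Pen n m A B ω) [IsDedekindDomain (AdjoinRoot (FF A B ω))] (F : Fac B π) :
    Fintype.card κ ≤ Nat.card (BPt A B) ∧
    Module.rank ℤ (Additive (ClassGroup (AdjoinRoot (FF A B ω)))) =
      ((Nat.card (BPt A B) - Fintype.card κ : ℕ) : Cardinal) := by
  classical
  have h1 : Finite (BPt A B) := bpt_finite h.irrA h.ndvd
  have h2 : Finite {Q : Ideal (AdjoinRoot (FF A B ω)) // Q.IsPrime ∧ io A B ω B ∈ Q} :=
    Finite.of_equiv _ h.eqv.symm
  let _ : Fintype {Q : Ideal (AdjoinRoot (FF A B ω)) // Q.IsPrime ∧ io A B ω B ∈ Q} :=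
    Fintype.ofFinite _
  have h3 := (h.gens F).rank
  rw [← Nat.card_eq_fintype_card (α := {Q : Ideal (AdjoinRoot (FF A B ω)) //
    Q.IsPrime ∧ io A B ω B ∈ Q}), Nat.card_congr h.eqv] at h3
  exact h3

end

end Pool.Agent.K3h82.CP
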