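import Pool.Agent.K3h82.CP.PtB
import Pool.Agent.K3h82.CP.Rnk

/-! The numbers of the points of the base scheme and of the zero set of `B`. -/

set_option autoImplicit false
set_option linter.all false
set_option maxHeartbeats 400000

namespace Pool.Agent.K3h82.CP

open Polynomial Pool.Agent.R410.NG
open Pool.Agent.R410.LW (FG frac_of_closure trdeg_one)

section
variable {M : Type} [Field M] {A₀ : Type} [CommRing A₀] [IsDomain A₀] [Algebra A₀ M]
  [IsFractionRing A₀ M] [Algebra.FiniteType ℤ A₀]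

theorem asy_ideal [CharZero M] {ι : Type} [Fintype ι] (L : ι → Type) [∀ i, Field (L i)]
    [∀ i, Algebra M (L i)] (χ : ∀ i, M[X][X] →+* L i)
    (hχ : ∀ i, ∀ a : M, χ i (C (C a)) = algebraMap M (L i) a)
    (hcl : ∀ i, Subfield.closure (Set.range (χ i)) = ⊤) {d e : ℕ} (hd : Algebra.trdeg ℚ M = d)
    (he : ∀ i, Algebra.trdeg M (L i) = e)
    (hne : ∀ i j, i ≠ j → ¬ RingHom.ker (χ i) ≤ RingHom.ker (χ j)) (I : Ideal A₀[X][X])
    (h1 : ∀ i, ∀ z ∈ I, χ i (mp A₀ M z) = 0) (N : ℕ)
    (h2 : (∏ i, RingHom.ker (χ i)) ^ N ≤ I.map (mp A₀ M)) :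
    ∃ c : A₀, c ≠ 0 ∧ ∀ c' : A₀, c' ≠ 0 → Asy (fun F _ _ => (Nat.card {φ : A₀[X][X] →+* F //
      φ (C (C (c * c'))) ≠ 0 ∧ ∀ z ∈ I, φ z = 0} : ℝ)) (d + e) (Fintype.card ι) := by
  classical
  have hft' : Algebra.FiniteType ℤ A₀[X][X] := inferInstance
  have hft := Pool.Agent.R410.LW.ft_int _ hft'
  have hnoe : IsNoetherianRing A₀ := Algebra.FiniteType.isNoetherianRing ℤ A₀
  have hinj : Function.Injective (algebraMap A₀ M) := IsFractionRing.injective A₀ M
  set J : Ideal A₀[X][X] := (∏ i, (RingHom.ker (χ i)).comap (mp A₀ M)) ^ N with hJ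
  obtain ⟨c, hc, hcJ⟩ := spread I J (IsNoetherian.noetherian J) (fun z hz => by
    apply h2
    have h3 : J.map (mp A₀ M) ≤ (∏ i, RingHom.ker (χ i)) ^ N := by
      rw [hJ, Ideal.map_pow]
      refine Ideal.pow_right_mono ?_ N
      have h5 : (∏ i, (RingHom.ker (χ i)).comap (mp A₀ M)).map (mp A₀ M) =
          ∏ i, ((RingHom.ker (χ i)).comap (mp A₀ M)).map (mp A₀ M) :=
        map_prod (Ideal.mapHom (mp A₀ M)) _ _
      rw [h5]
      exact Finset.prod_le_prod' fun i _ => Ideal.map_comap_le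
    exact h3 (Ideal.mem_map_of_mem _ hz))
  refine ⟨c, hc, fun c' hc' => ?_⟩
  have hch : ∀ i, CharZero (L i) := fun i =>
    charZero_of_injective_algebraMap (algebraMap M (L i)).injective
  have hD : ∀ i, Algebra.trdeg ℚ (L i) = (d + e : ℕ) := by
    intro i
    have := hch i
    have h3 := trdeg_add_eq ℚ M (A := L i)
    rw [hd, he] at h3
    rw [← h3]
    push_cast
    rfl
  have hk : ∀ i, RingHom.ker ((χ i).comp (mp A₀ M)) = (RingHom.ker (χ i)).comap (mp A₀ M) :=
    fun i => rfl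
  have h4 := asy_fam L (fun i => (χ i).comp (mp A₀ M)) (fun i => clos (χ i) (hχ i) (hcl i)) hD
    (u := C (C (c * c'))) (fun i => by
      rw [RingHom.comp_apply, mp_CC, hχ]
      intro h0
      rw [map_eq_zero_iff _ (algebraMap M (L i)).injective, map_eq_zero_iff _ hinj] at h0
      exact mul_ne_zero hc hc' h0)
    (fun i j hij h5 => by
      apply hne i j hij
      intro s hs
      obtain ⟨b, t, hb, ht⟩ := den (A₀ := A₀) s
      have h6 : t ∈ RingHom.ker ((χ i).comp (mp A₀ M)) := by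
        rw [RingHom.mem_ker, RingHom.comp_apply, ht, map_mul, (RingHom.mem_ker).1 hs, mul_zero]
      have h7 := (RingHom.mem_ker).1 (h5 h6)
      rw [RingHom.comp_apply, ht, map_mul, hχ, mul_eq_zero] at h7
      rcases h7 with h7 | h7
      · rw [map_eq_zero_iff _ (algebraMap M (L j)).injective, map_eq_zero_iff _ hinj] at h7
        exact (hb h7).elim
      · exact h7) Finset.univ
  rw [Finset.card_univ] at h4
  refine h4.congr 1 one_ne_zero fun F _ _ _ => ?_
  congr 1
  refine Nat.card_congr (Equiv.subtypeEquivRight fun φ => and_congr_right fun hφ => ?_)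
  constructor
  · intro h5
    have h6 : J ≤ RingHom.ker φ := by
      intro z hz
      have h7 := h5 _ (hcJ z hz)
      rw [map_mul, mul_eq_zero] at h7
      rcases h7 with h7 | h7
      · exfalso
        apply hφ
        rw [C_mul, C_mul, map_mul, h7, zero_mul]
      · exact h7
    have hpr : (RingHom.ker φ).IsPrime := RingHom.ker_isPrime φ
    have h7 := hpr.le_of_pow_le h6
    rw [hpr.prod_le] at h7
    obtain ⟨i, hi, h8⟩ := h7
    exact ⟨i, hi, h8⟩
  · rintro ⟨i, -, hi⟩ z hz
    exact hi (by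
      rw [RingHom.mem_ker, RingHom.comp_apply]
      exact h1 i z hz)

/-- the residue field of a prime -/
noncomputable def chiP (P : Ideal M[X][X]) [P.IsPrime] : M[X][X] →+* FractionRing (M[X][X] ⧸ P) :=
  algebraMap M[X][X] (FractionRing (M[X][X] ⧸ P))

theorem chiP_CC (P : Ideal M[X][X]) [P.IsPrime] (a : M) :
    chiP P (C (C a)) = algebraMap M (FractionRing (M[X][X] ⧸ P)) a := by
  unfold chiP
  rw [IsScalarTower.algebraMap_apply M M[X][X] (FractionRing (M[X][X] ⧸ P))]
  rfl

theorem chiP_cl (P : Ideal M[X][X]) [P.IsPrime] : Subfield.closure (Set.range (chiP P)) = ⊤ := by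
  rw [eq_top_iff]
  intro z _
  obtain ⟨a, b, hb, rfl⟩ := IsFractionRing.div_surjective (A := M[X][X] ⧸ P) z
  obtain ⟨a, rfl⟩ := Ideal.Quotient.mk_surjective a
  obtain ⟨b, rfl⟩ := Ideal.Quotient.mk_surjective b
  exact div_mem (Subfield.subset_closure ⟨a, IsScalarTower.algebraMap_apply M[X][X] (M[X][X] ⧸ P) _ a⟩)
    (Subfield.subset_closure ⟨b, IsScalarTower.algebraMap_apply M[X][X] (M[X][X] ⧸ P) _ b⟩)

theorem chiP_ker (P : Ideal M[X][X]) [P.IsPrime] : RingHom.ker (chiP P) = P := by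
  ext z
  rw [RingHom.mem_ker]
  unfold chiP
  rw [IsScalarTower.algebraMap_apply M[X][X] (M[X][X] ⧸ P),
    map_eq_zero_iff _ (IsFractionRing.injective (M[X][X] ⧸ P) _)]
  exact Ideal.Quotient.eq_zero_iff_mem

/-- **The base points.** -/
theorem asy_pts [CharZero M] {d : ℕ} (hd : Algebra.trdeg ℚ M = d) {A B : M[X][X]}
    (hA : Irreducible A) (hB : ¬ A ∣ B) {a b : A₀[X][X]} (ha : mp A₀ M a = A) (hb : mp A₀ M b = B) :
    ∃ c : A₀, c ≠ 0 ∧ ∀ c' : A₀, c' ≠ 0 → Asy (fun F _ _ => (Nat.card {φ : A₀[X][X] →+* F //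
      φ (C (C (c * c'))) ≠ 0 ∧ φ a = 0 ∧ φ b = 0} : ℝ)) d (Nat.card (BPt A B)) := by
  classical
  have hfin := bpt_finite hA hB
  let _ := Fintype.ofFinite (BPt A B)
  have hp : ∀ i : BPt A B, i.1.IsPrime := fun i => i.2.1
  have hmap : (Ideal.span {a, b}).map (mp A₀ M) = Ideal.span {A, B} := by
    rw [Ideal.map_span, Set.image_pair, ha, hb]
  obtain ⟨N, hN⟩ := Ideal.exists_radical_pow_le_of_fg (Ideal.span {A, B})
    (IsNoetherian.noetherian _)
  have h1 : ∏ i : BPt A B, RingHom.ker (chiP i.1) ≤ (Ideal.span {A, B}).radical := by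
    rw [Ideal.radical_eq_sInf]
    refine le_sInf fun P hP => ?_
    have hP1 : A ∈ P := hP.1 (Ideal.subset_span (Set.mem_insert _ _))
    have hP2 : B ∈ P := hP.1 (Ideal.subset_span (Set.mem_insert_of_mem _ rfl))
    refine (hP.2.prod_le).2 ⟨⟨P, hP.2, hP1, hP2⟩, Finset.mem_univ _, ?_⟩
    have := hP.2
    rw [chiP_ker]
  have h := asy_ideal (A₀ := A₀) (fun i : BPt A B => FractionRing (M[X][X] ⧸ i.1))
    (fun i => chiP i.1) (fun i => chiP_CC i.1) (fun i => chiP_cl i.1) hd (e := 0) (fun i => by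
      have : Algebra.IsAlgebraic M (FractionRing (M[X][X] ⧸ i.1)) := by
        refine alg_pt (chiP i.1) (chiP_CC i.1) (chiP_cl i.1) ?_ ?_
        · exact (alg_xy (chiP i.1) (chiP_CC i.1) hA hB (by
            rw [← RingHom.mem_ker, chiP_ker]; exact i.2.2.1) (by
            rw [← RingHom.mem_ker, chiP_ker]; exact i.2.2.2) _).isAlgebraic
        · exact (alg_xy (chiP i.1) (chiP_CC i.1) hA hB (by
            rw [← RingHom.mem_ker, chiP_ker]; exact i.2.2.1) (by
            rw [← RingHom.mem_ker, chiP_ker]; exact i.2.2.2) _).isAlgebraic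
      rw [trdeg_eq_zero, Nat.cast_zero])
    (fun i j hij h3 => by
      rw [chiP_ker, chiP_ker] at h3
      have h4 := (bpt_max i.2.1 hA hB i.2.2.1 i.2.2.2).eq_of_le j.2.1.ne_top h3
      exact hij (Subtype.ext h4)) (Ideal.span {a, b}) (fun i z hz => by
      have h5 : mp A₀ M z ∈ i.1 := by
        have h6 : (Ideal.span {a, b}).map (mp A₀ M) ≤ i.1 := by
          rw [hmap, Ideal.span_le]
          rintro _ (rfl | rfl)
          · exact i.2.2.1
          · exact i.2.2.2
        exact h6 (Ideal.mem_map_of_mem _ hz)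
      rw [← RingHom.mem_ker, chiP_ker]
      exact h5) N (by
      rw [hmap]
      exact (Ideal.pow_right_mono h1 N).trans hN)
  obtain ⟨c, hc, h⟩ := h
  refine ⟨c, hc, fun c' hc' => ?_⟩
  have h7 := h c' hc'
  rw [add_zero, ← Nat.card_eq_fintype_card] at h7
  refine h7.congr 1 one_ne_zero fun F _ _ _ => ?_
  congr 1
  refine Nat.card_congr (Equiv.subtypeEquivRight fun φ => and_congr_right fun _ => ?_)
  constructor
  · rintro ⟨h8, h9⟩ z hz
    have : Ideal.span {a, b} ≤ RingHom.ker φ := by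
      rw [Ideal.span_le]
      rintro _ (rfl | rfl)
      · exact h8
      · exact h9
    exact this hz
  · intro h8
    exact ⟨h8 _ (Ideal.subset_span (Set.mem_insert _ _)),
      h8 _ (Ideal.subset_span (Set.mem_insert_of_mem _ rfl))⟩

/-- **The points of the zero set of `B`.** -/
theorem asy_div [CharZero M] {d : ℕ} (hd : Algebra.trdeg ℚ M = d) {B : M[X][X]} (hB0 : B ≠ 0)
    {κ : Type} [Fintype κ] {π : κ → M[X][X]} (hF : Fac B π) {b : A₀[X][X]} (hb : mp A₀ M b = B) :
    ∃ c : A₀, c ≠ 0 ∧ ∀ c' : A₀, c' ≠ 0 → Asy (fun F _ _ => (Nat.card {φ : A₀[X][X] →+* F //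
      φ (C (C (c * c'))) ≠ 0 ∧ φ b = 0} : ℝ)) (d + 1) (Fintype.card κ) := by
  classical
  have hp : ∀ i : κ, (Ideal.span {π i}).IsPrime := fun i =>
    (Ideal.span_singleton_prime (hF.irr i).ne_zero).2 (hF.irr i).prime
  have hmap : (Ideal.span {b}).map (mp A₀ M) = Ideal.span {B} := by
    rw [Ideal.map_span, Set.image_singleton, hb]
  -- `B` divides a power of the product
  have hpow : ∀ s : M[X][X], s ≠ 0 → s ∣ B → ∃ N : ℕ, s ∣ (∏ i, π i) ^ N := by
    intro s
    induction s using WfDvdMonoid.induction_on_irreducible with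
    | zero => intro h; exact (h rfl).elim
    | unit u hu => intro _ _; exact ⟨0, hu.dvd⟩
    | mul s p hs hp ih =>
      intro _ h
      obtain ⟨N, hN⟩ := ih hs ((Dvd.intro_left p rfl).trans h)
      obtain ⟨j, hj⟩ := hF.all p hp ((Dvd.intro s rfl).trans h)
      refine ⟨N + 1, ?_⟩
      rw [pow_succ, mul_comm]
      exact mul_dvd_mul hN (hj.dvd.trans (Finset.dvd_prod_of_mem _ (Finset.mem_univ j)))
  obtain ⟨N, hN⟩ := hpow B hB0 dvd_rfl
  have h := asy_ideal (A₀ := A₀) (fun i : κ => FractionRing (M[X][X] ⧸ Ideal.span {π i}))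
    (fun i => chiP (Ideal.span {π i})) (fun i => chiP_CC _) (fun i => chiP_cl _) hd (e := 1)
    (fun i => by
      rw [trdeg_curve (chiP (Ideal.span {π i})) (chiP_CC _) (chiP_cl _) (hF.irr i) (chiP_ker _), Nat.cast_one])
    (fun i j hij h3 => by
      rw [chiP_ker, chiP_ker, Ideal.span_singleton_le_span_singleton] at h3
      exact hij (hF.inj j i ((hF.irr j).associated_of_dvd (hF.irr i) h3)).symm)
    (Ideal.span {b}) (fun i z hz => by
      have h5 : mp A₀ M z ∈ Ideal.span {π i} := by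
        have h6 : (Ideal.span {b}).map (mp A₀ M) ≤ Ideal.span {π i} := by
          rw [hmap, Ideal.span_singleton_le_span_singleton]
          exact hF.dvd i
        exact h6 (Ideal.mem_map_of_mem _ hz)
      rw [← RingHom.mem_ker, chiP_ker]
      exact h5) N (by
      rw [hmap]
      have h6 : ∏ i, RingHom.ker (chiP (Ideal.span {π i})) = Ideal.span {∏ i, π i} := by
        rw [← Ideal.prod_span_singleton]
        exact Finset.prod_congr rfl fun i _ => chiP_ker _
      rw [h6, Ideal.span_singleton_pow, Ideal.span_singleton_le_span_singleton]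
      exact hN)
  obtain ⟨c, hc, h⟩ := h
  refine ⟨c, hc, fun c' hc' => ?_⟩
  refine (h c' hc').congr 1 one_ne_zero fun F _ _ _ => ?_
  congr 1
  refine Nat.card_congr (Equiv.subtypeEquivRight fun φ => and_congr_right fun _ => ?_)
  constructor
  · intro h8 z hz
    have : Ideal.span {b} ≤ RingHom.ker φ := by
      rw [Ideal.span_le]
      rintro _ rfl
      exact h8
    exact this hz
  · intro h8
    exact h8 _ (Ideal.subset_span rfl)

end

end Pool.Agent.K3h82.CP
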