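import Pool.Agent.K3h82.CP.Sm
import Pool.Agent.K3h82.CP.PtC
import Pool.Agent.R410.NG.CBn

/-! The natural averages of the weight for the pencils. -/

set_option autoImplicit false
set_option linter.all false
set_option maxHeartbeats 400000

namespace Pool.Agent.K3h82.CP

open Polynomial NumberField IsDedekindDomain Filter Topology Pool.Agent.R410.NG
open Pool.Agent.R410.LW (FG)
open Pool.Agent.R410.BS (cF cF_le cB cB_nonneg)

/-- the value is at most a constant times `q^e` -/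
theorem asy_le {T : Ff} {e : ℕ} {r : ℝ} (h : Asy T e r) : ∃ (C : ℝ) (N : ℕ), 0 ≤ C ∧ N ≠ 0 ∧
    ∀ (F : Type) [Field F] [Finite F], ((N : ℕ) : F) ≠ 0 → T F ≤ C * (Nat.card F : ℝ) ^ e := by
  obtain ⟨κ, i1, L, i2, i3, a, -, C, N, hC, hN, h1⟩ := h
  refine ⟨C + cB L a, N, add_nonneg hC (cB_nonneg L a), hN, fun F _ _ hF => ?_⟩
  have h2 := h1 F hF
  have h3 := cF_le L a F
  have hq : (1 : ℝ) ≤ (Nat.card F : ℝ) := by exact_mod_cast Nat.card_pos
  have hs : 1 ≤ √(Nat.card F : ℝ) := Real.one_le_sqrt.2 hq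
  have hqe : (0 : ℝ) ≤ (Nat.card F : ℝ) ^ e := by positivity
  have h4 : |T F - cF L a F * (Nat.card F : ℝ) ^ e| ≤ C * (Nat.card F : ℝ) ^ e :=
    (le_mul_of_one_le_right (abs_nonneg _) hs).trans h2
  have h5 := le_abs_self (T F - cF L a F * (Nat.card F : ℝ) ^ e)
  have h6 : cF L a F * (Nat.card F : ℝ) ^ e ≤ cB L a * (Nat.card F : ℝ) ^ e :=
    mul_le_mul_of_nonneg_right ((le_abs_self _).trans h3) hqe
  rw [add_mul]
  linarith

section
variable {R S : Type} [CommRing R] [CommRing S] [Nontrivial R] [Nontrivial S] {φ : R →+* S}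
  (hφ : Function.Injective φ) {n m : ℕ} {A : R[X][X]}
include hφ

theorem IsCab.reflect (h : IsCab n m (A.map (mapRingHom φ))) : IsCab n m A := by
  have hi : Function.Injective (mapRingHom φ) := by
    rw [coe_mapRingHom]
    exact Polynomial.map_injective _ hφ
  have hc : ∀ j, ((A.map (mapRingHom φ)).coeff j).natDegree = (A.coeff j).natDegree := by
    intro j
    rw [coeff_map, coe_mapRingHom, natDegree_map_eq_of_injective hφ]
  refine ⟨Polynomial.monic_of_injective hi h.monic, ?_, ?_, ?_, ?_⟩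
  · rw [← h.deg, natDegree_map_eq_of_injective hi]
  · have h1 := h.lead
    rw [coeff_map, coe_mapRingHom, ← Polynomial.map_neg] at h1
    exact Polynomial.monic_of_injective hφ h1
  · rw [← h.deg0, hc]
  · intro j h0 hj h1
    rw [← hc]
    refine h.wt j h0 hj ?_
    rw [coeff_map, coe_mapRingHom]
    exact (Polynomial.map_ne_zero_iff hφ).2 h1

theorem IsLow.reflect (h : IsLow n m (A.map (mapRingHom φ))) : IsLow n m A := by
  intro j h1
  have hc : ((A.map (mapRingHom φ)).coeff j).natDegree = (A.coeff j).natDegree := by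
    rw [coeff_map, coe_mapRingHom, natDegree_map_eq_of_injective hφ]
  rw [← hc]
  refine h j ?_
  rw [coeff_map, coe_mapRingHom]
  exact (Polynomial.map_ne_zero_iff hφ).2 h1

end

theorem ite_eq' {p q : Prop} (ip : Decidable p) (iq : Decidable q) (h : p ↔ q) (x : ℝ) :
    (@ite _ p ip x 0) = (@ite _ q iq x 0) := by
  by_cases hp : p
  · rw [if_pos hp, if_pos (h.1 hp)]
  · rw [if_neg hp, if_neg (fun h' => hp (h.2 h'))]

/-- the coefficients -/
noncomputable def cfs {M : Type} [Field M] [DecidableEq M] (p : M[X][X]) : Finset M :=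
  p.coeffs.biUnion Polynomial.coeffs

theorem lift_mp {M : Type} [Field M] [DecidableEq M] (A₀ : Subalgebra ℤ M) (p : M[X][X])
    (h : ∀ t ∈ cfs p, t ∈ A₀) : ∃ a : A₀[X][X], mp A₀ M a = p := by
  have h1 : ∀ i j, (p.coeff i).coeff j ∈ Set.range (algebraMap A₀ M) := by
    intro i j
    by_cases h0 : (p.coeff i).coeff j = 0
    · exact ⟨0, by rw [h0, map_zero]⟩
    · have h2 : p.coeff i ≠ 0 := by
        intro h3
        rw [h3, coeff_zero] at h0
        exact h0 rfl
      refine ⟨⟨(p.coeff i).coeff j, h _ (Finset.mem_biUnion.2 ⟨p.coeff i,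
        Polynomial.coeff_mem_coeffs h2, Polynomial.coeff_mem_coeffs h0⟩)⟩, rfl⟩
  have h2 : p ∈ Polynomial.lifts (mapRingHom (algebraMap A₀ M)) := by
    rw [Polynomial.lifts_iff_coeff_lifts]
    intro i
    have h3 : p.coeff i ∈ Polynomial.lifts (algebraMap A₀ M) := by
      rw [Polynomial.lifts_iff_coeff_lifts]
      exact h1 i
    obtain ⟨q, hq⟩ := (Polynomial.mem_lifts _).1 h3
    exact ⟨q, hq⟩
  obtain ⟨a, ha⟩ := (Polynomial.mem_lifts _).1 h2
  exact ⟨a, ha⟩

section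
variable {M K : Type} [Field M] [CharZero M] [Field K] [CharZero K] [Algebra M K] {ω : K}
  {n m : ℕ} {A B : M[X][X]} {κ : Type} [Fintype κ] {π : κ → M[X][X]}

open Classical in
/-- **The natural average.** -/
theorem natural_cab {k : Type} [Field k] [NumberField k] [Algebra k M] (hM : FG M) {d : ℕ}
    (hd : Algebra.trdeg ℚ M = d) (h : Pen n m A B ω)
    (htop : IntermediateField.adjoin M {ω} = ⊤) (hFac : Fac B π)
    (R : Type) [CommRing R] [IsDomain R] [Algebra.FiniteType ℤ R] [Algebra R K] [IsFractionRing R K]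
    [Algebra (𝓞 k) R] (hk : ∀ z : 𝓞 k, algebraMap R K (algebraMap (𝓞 k) R z) =
      algebraMap M K (algebraMap k M z)) {G : R[X][X]} (hG : IsCab n m G)
    (hGK : G.map (mapRingHom (algebraMap R K)) = FF A B ω) {N : R} (hN : N ≠ 0)
    (S : Finset (HeightOneSpectrum (𝓞 k))) :
    Tendsto (Pool.Agent.W353.FB.average S fun v => avg (wC n m) (tup n m G) N (d + 1) v) atTop
      (𝓝 ((Nat.card (BPt A B) : ℝ) - Fintype.card κ)) := by
  obtain ⟨A₀, hA, hft, hfr, hAk⟩ := exists_ringk (k := k) hM (cfs A ∪ cfs B)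
  have hAinj : Function.Injective (algebraMap A₀ M) := IsFractionRing.injective A₀ M
  obtain ⟨a, ha⟩ := lift_mp A₀ A (fun t ht => hA t (Finset.mem_union_left _ ht))
  obtain ⟨b, hb⟩ := lift_mp A₀ B (fun t ht => hA t (Finset.mem_union_right _ ht))
  have hac : IsCab n m a := by
    have := h.hA
    rw [← ha] at this
    exact IsCab.reflect hAinj this
  have hbc : IsLow n m b := by
    have := h.hB
    rw [← hb] at this
    exact IsLow.reflect hAinj this
  -- the ring of the line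
  let φ : A₀[X] →+* K := phA (M := M) A₀ ω
  let _ : Algebra A₀[X] K := φ.toAlgebra
  have _ : IsFractionRing A₀[X] K := phA_frac A₀ h.tr htop
  have htr := trdeg_line hd h.tr htop
  let ρ : 𝓞 k →+* A₀[X] := C.comp (rho hAk)
  let _ : Algebra (𝓞 k) A₀[X] := ρ.toAlgebra
  have hft' : Algebra.FiniteType ℤ A₀[X] := inferInstance
  have hft'' := Pool.Agent.R410.LW.ft_int _ hft'
  -- the points
  obtain ⟨c1, hc1, hP⟩ := asy_pts (A₀ := A₀) hd h.irrA h.ndvd ha hb
  obtain ⟨c2, hc2, hD⟩ := asy_div (A₀ := A₀) hd h.hB0 hFac hb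
  set u : A₀ := c1 * c2 with hu
  have hu0 : u ≠ 0 := mul_ne_zero hc1 hc2
  have hP' := hP c2 hc2
  have hD' := hD c1 hc1
  rw [mul_comm c2 c1] at hD'
  rw [← hu] at hP' hD'
  have hn0 : n ≠ 0 := h.hn.ne'
  -- the asymptotic value
  have h0 : Asy (fun F _ _ => sT (wC n m) (tup n m (penG a b)) (C u) F) (d + 1)
      ((Nat.card (BPt A B) : ℝ) - Fintype.card κ) := by
    have t4 := hP'.mulq.add hD'.neg
    rw [← sub_eq_add_neg] at t4
    refine t4.congr n hn0 fun F _ _ hnF => ?_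
    let _ := Fintype.ofFinite F
    have hfA : Finite (A₀ →+* F) := inferInstance
    let _ := Fintype.ofFinite (A₀ →+* F)
    have hfX : Finite (A₀[X] →+* F) := inferInstance
    let _ := Fintype.ofFinite (A₀[X] →+* F)
    have hfXX : Finite (A₀[X][X] →+* F) := Finite.of_equiv _ (planeE (A₀ := A₀) (F := F)).symm
    let _ := Fintype.ofFinite (A₀[X][X] →+* F)
    have e1 := sum_cab h.hn h.hm hac hbc hnF (fun ψ => ψ u ≠ 0)
    rw [sT_eq]
    refine Eq.trans ?_ (e1.trans ?_)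
    · exact Finset.sum_congr rfl fun φ _ => ite_eq' _ _ Iff.rfl _
    · rw [sub_eq_add_neg]
      rfl
  obtain ⟨κ', iκ, L, iL, nL, α, hα, C0, N0, hC0, hN0, hasy⟩ := h0
  obtain ⟨cw, hw⟩ := isWt_wC h.hn h.hm h.hc
  have hgB : ∀ j : Fin n, (tup n m G j).map (algebraMap R K) =
      (tup n m (penG a b) j).map (algebraMap A₀[X] K) := by
    intro j
    rw [tup_map, tup_map, hGK]
    congr 1
    show _ = (penG a b).map (mapRingHom φ)
    have hφC : φ.comp C = (algebraMap M K).comp (algebraMap A₀ M) := by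
      refine RingHom.ext fun z => ?_
      show phA (M := M) A₀ ω (C z) = _
      rw [phA_apply, Polynomial.map_C, aeval_C]
      rfl
    have hφX : φ X = ω := by
      show phA (M := M) A₀ ω X = _
      rw [phA_apply, Polynomial.map_X, aeval_X]
    have hup : ∀ p : A₀[X][X], up2 K (mp A₀ M p) = p.map (mapRingHom (φ.comp C)) := by
      intro p
      unfold up2 mp
      rw [hφC, coe_mapRingHom, coe_mapRingHom, Polynomial.map_map, mapRingHom_comp]
    rw [penG_map, hφX, ← hup, ← hup, ha, hb]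
    rfl
  have hrho : (algebraMap R K).comp (algebraMap (𝓞 k) R) =
      (algebraMap A₀[X] K).comp (algebraMap (𝓞 k) A₀[X]) := by
    refine RingHom.ext fun z => ?_
    show algebraMap R K (algebraMap (𝓞 k) R z) = phA (M := M) A₀ ω (C (rho hAk z))
    rw [hk, phA_apply, Polynomial.map_C, aeval_C]
    rfl
  refine natural_models hw (e := d + 1) htr.le hrho (g' := tup n m (penG a b)) hgB
    (fun j => tup_spec h.hn h.hm hG j) hN (N' := (C u : A₀[X])) (C_ne_zero.2 hu0) L α hα ?_ ?_ S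
  · -- the bound
    obtain ⟨C1, N1, hC1, hN1, b1⟩ := asy_le hP'
    obtain ⟨C2, N2, hC2, hN2, b2⟩ := asy_le hD'
    refine ⟨C1 + C2, n * (N1 * N2), add_nonneg hC1 hC2, mul_ne_zero hn0 (mul_ne_zero hN1 hN2), ?_⟩
    intro F _ _ hF ψ₀
    rw [Nat.cast_mul, Nat.cast_mul] at hF
    have hnF := left_ne_zero_of_mul hF
    have hF1 := left_ne_zero_of_mul (right_ne_zero_of_mul hF)
    have hF2 := right_ne_zero_of_mul (right_ne_zero_of_mul hF)
    let _ := Fintype.ofFinite F
    have hfA : Finite (A₀ →+* F) := inferInstance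
    let _ := Fintype.ofFinite (A₀ →+* F)
    have hfX : Finite (A₀[X] →+* F) := inferInstance
    let _ := Fintype.ofFinite (A₀[X] →+* F)
    have hfXX : Finite (A₀[X][X] →+* F) := Finite.of_equiv _ (planeE (A₀ := A₀) (F := F)).symm
    let _ := Fintype.ofFinite (A₀[X][X] →+* F)
    have e1 := sum_cab h.hn h.hm hac hbc hnF (fun ψ => ψ.comp (rho hAk) = ψ₀ ∧ ψ u ≠ 0)
    have e2 : sR (wC n m) (algebraMap (𝓞 k) A₀[X]) (tup n m (penG a b)) (C u) F ψ₀ =
        (Nat.card F : ℝ) * Nat.card {φ : A₀[X][X] →+* F // (((φ.comp C).comp C).comp (rho hAk) = ψ₀ ∧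
          ((φ.comp C).comp C) u ≠ 0) ∧ φ a = 0 ∧ φ b = 0} -
        Nat.card {φ : A₀[X][X] →+* F // (((φ.comp C).comp C).comp (rho hAk) = ψ₀ ∧
          ((φ.comp C).comp C) u ≠ 0) ∧ φ b = 0} := by
      rw [sR_eq, ← e1]
      exact Finset.sum_congr rfl fun φ _ => ite_eq' _ _ Iff.rfl _
    rw [e2]
    have m1 : (Nat.card {φ : A₀[X][X] →+* F // (((φ.comp C).comp C).comp (rho hAk) = ψ₀ ∧
          ((φ.comp C).comp C) u ≠ 0) ∧ φ a = 0 ∧ φ b = 0} : ℝ) ≤ C1 * (Nat.card F : ℝ) ^ d := by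
      refine le_trans ?_ (b1 F hF1)
      exact_mod_cast Nat.card_le_card_of_injective (fun x : {φ : A₀[X][X] →+* F //
        (((φ.comp C).comp C).comp (rho hAk) = ψ₀ ∧ ((φ.comp C).comp C) u ≠ 0) ∧ φ a = 0 ∧ φ b = 0} =>
        (⟨x.1, x.2.1.2, x.2.2⟩ : {φ : A₀[X][X] →+* F // φ (C (C u)) ≠ 0 ∧ φ a = 0 ∧ φ b = 0}))
        (fun x y hxy => Subtype.ext (congrArg (fun z => z.1) hxy))
    have m2 : (Nat.card {φ : A₀[X][X] →+* F // (((φ.comp C).comp C).comp (rho hAk) = ψ₀ ∧
          ((φ.comp C).comp C) u ≠ 0) ∧ φ b = 0} : ℝ) ≤ C2 * (Nat.card F : ℝ) ^ (d + 1) := by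
      refine le_trans ?_ (b2 F hF2)
      exact_mod_cast Nat.card_le_card_of_injective (fun x : {φ : A₀[X][X] →+* F //
        (((φ.comp C).comp C).comp (rho hAk) = ψ₀ ∧ ((φ.comp C).comp C) u ≠ 0) ∧ φ b = 0} =>
        (⟨x.1, x.2.1.2, x.2.2⟩ : {φ : A₀[X][X] →+* F // φ (C (C u)) ≠ 0 ∧ φ b = 0}))
        (fun x y hxy => Subtype.ext (congrArg (fun z => z.1) hxy))
    have hq : (0 : ℝ) ≤ (Nat.card F : ℝ) := Nat.cast_nonneg _
    have m3 := mul_le_mul_of_nonneg_left m1 hq
    refine (abs_sub _ _).trans ?_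
    rw [abs_of_nonneg (mul_nonneg hq (Nat.cast_nonneg _)), abs_of_nonneg (Nat.cast_nonneg _), add_mul]
    refine add_le_add (m3.trans (le_of_eq ?_)) m2
    ring
  · exact ⟨C0, N0, hC0, hN0, fun F _ _ hF => hasy F hF⟩

end

end Pool.Agent.K3h82.CP
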