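import Pool.Agent.K3h82.CP.Nt
import Pool.Agent.R410.NG.Nat3

/-! The irreducible factors; finitely many places. -/

set_option autoImplicit false
set_option linter.all false
set_option maxHeartbeats 400000

namespace Pool.Agent.K3h82.CP

open Polynomial NumberField IsDedekindDomain Filter Topology Pool.Agent.R410.NG

section
variable {M : Type} [Field M]

/-- the irreducible factors up to associates -/
abbrev Cmp (B : M[X][X]) : Type := {p : Associates M[X][X] // Irreducible p ∧ p ∣ Associates.mk B}

theorem cmp_finite {B : M[X][X]} (hB : B ≠ 0) : Finite (Cmp B) := by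
  classical
  have h : {p : Associates M[X][X] | Irreducible p ∧ p ∣ Associates.mk B} ⊆
      (((UniqueFactorizationMonoid.factors B).map Associates.mk).toFinset :
        Set (Associates M[X][X])) := by
    rintro p ⟨hp, hpB⟩
    obtain ⟨q, rfl⟩ := Associates.mk_surjective p
    rw [Associates.irreducible_mk] at hp
    rw [Associates.mk_dvd_mk] at hpB
    obtain ⟨t, ht, hqt⟩ := UniqueFactorizationMonoid.exists_mem_factors_of_dvd hB hp hpB
    rw [Finset.mem_coe, Multiset.mem_toFinset, Multiset.mem_map]
    exact ⟨t, ht, (Associates.mk_eq_mk_iff_associated.2 hqt).symm⟩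
  exact Set.Finite.subset (Finset.finite_toSet _) h

theorem mk_out (p : Associates M[X][X]) : Associates.mk (Quot.out p) = p := Quot.out_eq p

theorem fac_cmp (B : M[X][X]) : Fac B (fun p : Cmp B => Quot.out p.1) where
  irr := fun p => by
    rw [← Associates.irreducible_mk]
    have : Associates.mk (Quot.out p.1) = p.1 := mk_out p.1
    rw [this]
    exact p.2.1
  dvd := fun p => by
    rw [← Associates.mk_dvd_mk]
    have : Associates.mk (Quot.out p.1) = p.1 := mk_out p.1
    rw [this]
    exact p.2.2
  inj := fun i j h => by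
    have hi : Associates.mk (Quot.out i.1) = i.1 := mk_out i.1
    have hj : Associates.mk (Quot.out j.1) = j.1 := mk_out j.1
    apply Subtype.ext
    rw [← hi, ← hj]
    exact Associates.mk_eq_mk_iff_associated.2 h
  all := fun p hp hpB => by
    refine ⟨⟨Associates.mk p, Associates.irreducible_mk.2 hp, Associates.mk_dvd_mk.2 hpB⟩, ?_⟩
    have : Associates.mk (Quot.out (Associates.mk p)) = Associates.mk p := mk_out _
    exact (Associates.mk_eq_mk_iff_associated.1 this).symm

end

section
variable {k : Type} [Field k] [NumberField k]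

theorem sumT_fin (S : Finset (HeightOneSpectrum (𝓞 k))) {b b' : HeightOneSpectrum (𝓞 k) → ℝ}
    (Z : Finset (HeightOneSpectrum (𝓞 k))) (h : ∀ v, v ∉ Z → b v = b' v) {r : ℝ}
    (h' : Tendsto (fun T : ℝ => sumT S b' T / T) atTop (𝓝 r)) :
    Tendsto (fun T : ℝ => sumT S b T / T) atTop (𝓝 r) := by
  classical
  set c : ℝ := ∑ v ∈ Z, |(b v - b' v) * Real.log (Ideal.absNorm v.asIdeal : ℝ)| with hc
  have hfin : ∀ T : ℝ, {v : HeightOneSpectrum (𝓞 k) | v ∉ S ∧
      (Ideal.absNorm v.asIdeal : ℝ) ≤ T}.Finite := by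
    intro T
    refine (Set.Finite.preimage (f := fun v : HeightOneSpectrum (𝓞 k) => v.asIdeal)
      (fun v _ w _ hvw => HeightOneSpectrum.ext hvw)
      (Ideal.finite_setOf_absNorm_le (S := 𝓞 k) ⌊T⌋₊)).subset ?_
    rintro v ⟨-, hv⟩
    exact Nat.le_floor hv
  have hd : ∀ T : ℝ, |sumT S b T - sumT S b' T| ≤ c := by
    intro T
    unfold sumT
    rw [← finsum_mem_sub_distrib _ _ (hfin T)]
    rw [finsum_mem_eq_finite_toFinset_sum _ (hfin T)]
    refine (Finset.abs_sum_le_sum_abs _ _).trans ?_
    have e : ∀ v : HeightOneSpectrum (𝓞 k), b v * Real.log (Ideal.absNorm v.asIdeal : ℝ) -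
        b' v * Real.log (Ideal.absNorm v.asIdeal : ℝ) =
        (b v - b' v) * Real.log (Ideal.absNorm v.asIdeal : ℝ) := fun v => by ring
    simp only [e]
    rw [← Finset.sum_filter_add_sum_filter_not _ (fun v => v ∈ Z)]
    have e2 : ∑ v ∈ (hfin T).toFinset.filter (fun v => v ∉ Z),
        |(b v - b' v) * Real.log (Ideal.absNorm v.asIdeal : ℝ)| = 0 := by
      refine Finset.sum_eq_zero fun v hv => ?_
      rw [h v (Finset.mem_filter.1 hv).2, sub_self, zero_mul, abs_zero]
    rw [e2, add_zero]
    refine Finset.sum_le_sum_of_subset_of_nonneg ?_ fun v _ _ => abs_nonneg _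
    intro v hv
    exact (Finset.mem_filter.1 hv).2
  have h1 : Tendsto (fun T : ℝ => (sumT S b T - sumT S b' T) / T) atTop (𝓝 0) := by
    have h2 : Tendsto (fun T : ℝ => c / T) atTop (𝓝 0) := tendsto_const_nhds.div_atTop tendsto_id
    refine squeeze_zero_norm' ?_ h2
    filter_upwards [eventually_gt_atTop (0 : ℝ)] with T hT
    rw [Real.norm_eq_abs, abs_div, abs_of_pos hT]
    exact div_le_div_of_nonneg_right (hd T) hT.le
  have h3 := h1.add h'
  rw [zero_add] at h3
  refine h3.congr fun T => ?_
  ring

end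

end Pool.Agent.K3h82.CP
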