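import Pool.Agent.K3h82.CP.Wgt
import Pool.Agent.R410.NG.CBs
import Pool.Agent.R410.LW.Hom

/-! The sum of the weight over the points of the pencil. -/

set_option autoImplicit false
set_option linter.all false
set_option maxHeartbeats 400000

namespace Pool.Agent.K3h82.CP

open Polynomial Pool.Agent.R410.NG
open Pool.Agent.R410.LW (ev ev_C ev_X ev_eq)

theorem card_ind {H : Type} [Fintype H] (P : H → Prop) [DecidablePred P] :
    (Nat.card {h // P h} : ℝ) = ∑ h, if P h then 1 else 0 := by
  rw [Nat.card_eq_fintype_card, Fintype.card_subtype, Finset.card_filter]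
  push_cast
  rfl

section
variable {F : Type} [Field F] [Fintype F]

open Classical in
theorem fibre (α β : F[X][X]) :
    ∑ t : F, ((Nat.card {z : F × F // evalEval z.1 z.2 (α + C (C t) * β) = 0} : ℝ) - Nat.card F) =
      (Nat.card F : ℝ) * Nat.card {z : F × F // evalEval z.1 z.2 α = 0 ∧ evalEval z.1 z.2 β = 0} -
        Nat.card {z : F × F // evalEval z.1 z.2 β = 0} := by
  rw [Finset.sum_sub_distrib]
  simp only [card_ind]
  rw [Finset.sum_comm]
  have h : ∀ z : F × F, (∑ t : F, if evalEval z.1 z.2 (α + C (C t) * β) = 0 then (1 : ℝ) else 0) =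
      1 - (if evalEval z.1 z.2 β = 0 then 1 else 0) + (Nat.card F : ℝ) *
        (if evalEval z.1 z.2 α = 0 ∧ evalEval z.1 z.2 β = 0 then 1 else 0) := by
    intro z
    have e : ∀ t : F, evalEval z.1 z.2 (α + C (C t) * β) =
        evalEval z.1 z.2 α + t * evalEval z.1 z.2 β := by
      intro t
      rw [evalEval_add, evalEval_mul, evalEval_C, eval_C]
    simp only [e]
    by_cases hb : evalEval z.1 z.2 β = 0
    · rw [if_pos hb]
      by_cases ha : evalEval z.1 z.2 α = 0
      · rw [if_pos ⟨ha, hb⟩]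
        simp only [ha, hb, mul_zero, add_zero, if_true]
        rw [Finset.sum_const, Finset.card_univ, nsmul_eq_mul, Nat.card_eq_fintype_card]
        ring
      · rw [if_neg (fun h => ha h.1)]
        simp only [hb, mul_zero, add_zero, if_neg ha]
        rw [Finset.sum_const_zero]
        ring
    · rw [if_neg hb, if_neg (fun h => hb h.2)]
      rw [Finset.sum_eq_single (-(evalEval z.1 z.2 α / evalEval z.1 z.2 β))]
      · rw [if_pos (by field_simp; ring)]
        ring
      · intro t _ ht
        rw [if_neg]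
        intro h0
        apply ht
        rw [eq_neg_iff_add_eq_zero]
        field_simp
        linear_combination h0
      · intro h0
        exact (h0 (Finset.mem_univ _)).elim
  rw [Finset.sum_congr rfl fun z _ => h z, Finset.sum_add_distrib, Finset.sum_sub_distrib,
    ← Finset.mul_sum, Finset.sum_const, Finset.sum_const, Finset.card_univ, Finset.card_univ,
    Fintype.card_prod, nsmul_eq_mul, nsmul_eq_mul, Nat.card_eq_fintype_card]
  push_cast
  ring

end

section
variable {A₀ : Type} [CommRing A₀] {F : Type} [Field F]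

/-- the points of the plane -/
noncomputable def planeE : (A₀[X][X] →+* F) ≃ (A₀ →+* F) × (F × F) where
  toFun φ := ((φ.comp C).comp C, (φ (C X), φ X))
  invFun w := ev w.1 w.2
  left_inv φ := by
    apply Polynomial.ringHom_ext
    · intro p
      rw [ev_C]
      have h2 : (eval₂RingHom ((φ.comp C).comp C) (φ (C X))) = φ.comp C := by
        apply Polynomial.ringHom_ext
        · intro a
          rw [coe_eval₂RingHom, eval₂_C]
          rfl
        · rw [coe_eval₂RingHom, eval₂_X]
          rfl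
      have h3 := congrArg (fun g => g p) h2
      simp only [coe_eval₂RingHom] at h3
      exact h3
    · rw [ev_X]
  right_inv w := by
    refine Prod.ext ?_ (Prod.ext ?_ ?_)
    · refine RingHom.ext fun a => ?_
      show ev w.1 w.2 (C (C a)) = _
      rw [ev_C, eval₂_C]
    · show ev w.1 w.2 (C X) = _
      rw [ev_C, eval₂_X]
    · show ev w.1 w.2 X = _
      rw [ev_X]

/-- the pencil over the line -/
noncomputable def penG (a b : A₀[X][X]) : (A₀[X])[X][X] :=
  a.map (mapRingHom C) + C (C X) * b.map (mapRingHom C)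

theorem penG_map (a b : A₀[X][X]) (φ : A₀[X] →+* F) : (penG a b).map (mapRingHom φ) =
    a.map (mapRingHom (φ.comp C)) + C (C (φ X)) * b.map (mapRingHom (φ.comp C)) := by
  unfold penG
  rw [Polynomial.map_add, Polynomial.map_mul, Polynomial.map_map, Polynomial.map_map,
    mapRingHom_comp, Polynomial.map_C, coe_mapRingHom, Polynomial.map_C]

variable {n m : ℕ} [Nontrivial A₀]

theorem penG_cab (hn : 0 < n) (hm : 0 < m) {a b : A₀[X][X]} (ha : IsCab n m a) (hb : IsLow n m b) :
    IsCab n m (penG a b) :=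
  (ha.map C).add_low hn hm ((hb.map C).C_mul X)

open Classical in
theorem wC_pen [Fintype F] (hn : 0 < n) (hm : 0 < m) {a b : A₀[X][X]} (ha : IsCab n m a)
    (hb : IsLow n m b) (hF : ((n : ℕ) : F) ≠ 0) (φ : A₀[X] →+* F) :
    wC n m F (fun j => (tup n m (penG a b) j).map φ) =
      (Nat.card {z : F × F // evalEval z.1 z.2 (a.map (mapRingHom (φ.comp C)) +
        C (C (φ X)) * b.map (mapRingHom (φ.comp C))) = 0} : ℝ) - Nat.card F := by
  have e : (fun j => (tup n m (penG a b) j).map φ) = tup n m ((penG a b).map (mapRingHom φ)) :=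
    funext fun j => tup_map φ _ j
  unfold wC
  rw [if_neg hF, e, cabOf_tup ((penG_cab hn hm ha hb).map φ), penG_map]

open Classical in
theorem sum_cab [Fintype F] [Fintype (A₀ →+* F)] [Fintype (A₀[X] →+* F)]
    [Fintype (A₀[X][X] →+* F)] (hn : 0 < n) (hm : 0 < m) {a b : A₀[X][X]} (ha : IsCab n m a)
    (hb : IsLow n m b) (hF : ((n : ℕ) : F) ≠ 0) (Q : (A₀ →+* F) → Prop) :
    (∑ φ : A₀[X] →+* F, if Q (φ.comp C) then wC n m F (fun j => (tup n m (penG a b) j).map φ)
      else 0) = (Nat.card F : ℝ) * Nat.card {φ : A₀[X][X] →+* F // Q ((φ.comp C).comp C) ∧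
        φ a = 0 ∧ φ b = 0} - Nat.card {φ : A₀[X][X] →+* F // Q ((φ.comp C).comp C) ∧ φ b = 0} := by
  have e1 : ∀ φ : A₀[X] →+* F, (if Q (φ.comp C) then
      wC n m F (fun j => (tup n m (penG a b) j).map φ) else 0) = if Q (φ.comp C) then
      ((Nat.card {z : F × F // evalEval z.1 z.2 (a.map (mapRingHom (φ.comp C)) +
        C (C (φ X)) * b.map (mapRingHom (φ.comp C))) = 0} : ℝ) - Nat.card F) else 0 := by
    intro φ
    rw [wC_pen hn hm ha hb hF]
  rw [Finset.sum_congr rfl fun φ _ => e1 φ]
  refine (Fintype.sum_equiv (polyEquiv (A := A₀) (F := F)) _ (fun w => if Q w.1 then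
      ((Nat.card {z : F × F // evalEval z.1 z.2 (a.map (mapRingHom w.1) +
        C (C w.2) * b.map (mapRingHom w.1)) = 0} : ℝ) - Nat.card F) else 0) fun φ => rfl).trans ?_
  rw [Fintype.sum_prod_type]
  have e2 : ∀ ψ : A₀ →+* F, (∑ t : F, if Q ψ then ((Nat.card {z : F × F //
      evalEval z.1 z.2 (a.map (mapRingHom ψ) + C (C t) * b.map (mapRingHom ψ)) = 0} : ℝ) -
        Nat.card F) else 0) = (Nat.card F : ℝ) * (∑ z : F × F,
          if Q ψ ∧ ev ψ z a = 0 ∧ ev ψ z b = 0 then 1 else 0) -
          ∑ z : F × F, if Q ψ ∧ ev ψ z b = 0 then 1 else 0 := by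
    intro ψ
    by_cases hQ : Q ψ
    · simp only [hQ, true_and, if_true]
      rw [fibre, card_ind, card_ind]
      simp only [ev_eq]
    · simp only [hQ, false_and, if_false, Finset.sum_const_zero, mul_zero, sub_zero]
  rw [Finset.sum_congr rfl fun ψ _ => e2 ψ, Finset.sum_sub_distrib, ← Finset.mul_sum]
  have k1 : (Nat.card {φ : A₀[X][X] →+* F // Q ((φ.comp C).comp C) ∧ φ a = 0 ∧ φ b = 0} : ℝ) =
      ∑ ψ : A₀ →+* F, ∑ z : F × F, if Q ψ ∧ ev ψ z a = 0 ∧ ev ψ z b = 0 then 1 else 0 := by
    rw [card_ind]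
    refine (Fintype.sum_equiv (planeE (A₀ := A₀) (F := F)) _ (fun w =>
      if Q w.1 ∧ ev w.1 w.2 a = 0 ∧ ev w.1 w.2 b = 0 then 1 else 0) (fun φ => ?_)).trans
      (Fintype.sum_prod_type _)
    have h : ev (planeE φ).1 (planeE φ).2 = φ := (planeE (A₀ := A₀) (F := F)).left_inv φ
    rw [h]
    rfl
  have k2 : (Nat.card {φ : A₀[X][X] →+* F // Q ((φ.comp C).comp C) ∧ φ b = 0} : ℝ) =
      ∑ ψ : A₀ →+* F, ∑ z : F × F, if Q ψ ∧ ev ψ z b = 0 then 1 else 0 := by
    rw [card_ind]
    refine (Fintype.sum_equiv (planeE (A₀ := A₀) (F := F)) _ (fun w =>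
      if Q w.1 ∧ ev w.1 w.2 b = 0 then 1 else 0) (fun φ => ?_)).trans
      (Fintype.sum_prod_type _)
    have h : ev (planeE φ).1 (planeE φ).2 = φ := (planeE (A₀ := A₀) (F := F)).left_inv φ
    rw [h]
    rfl
  rw [k1, k2]

end

end Pool.Agent.K3h82.CP
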