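import Pool.Agent.K3h82.CP.Wd
import Pool.Agent.R410.PW.Weil
import Pool.Agent.H435R3.Weil.NV0

/-! The number of the points of the curves with one place at infinity over a finite field. -/

set_option autoImplicit false
set_option linter.all false
set_option maxHeartbeats 400000

namespace Pool.Agent.K3h82.CP

open Polynomial

theorem res_deg {R : Type} [CommRing R] (f g : R[X][X]) (a b d : ℕ)
    (hf : ∀ i, (f.coeff i).natDegree ≤ d) (hg : ∀ i, (g.coeff i).natDegree ≤ d) :
    (resultant f g a b).natDegree ≤ (a + b) * d := by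
  unfold resultant
  refine (Pool.Agent.H435R3.Weil.NV0h.natDegree_det_le' _ (fun _ => d) ?_).trans ?_
  · intro i j
    unfold sylvester
    rw [Matrix.of_apply]
    induction j using Fin.addCases with
    | left j =>
      rw [Fin.addCases_left]
      split_ifs
      · exact hg _
      · rw [natDegree_zero]
        exact Nat.zero_le _
    | right j =>
      rw [Fin.addCases_right]
      split_ifs
      · exact hf _
      · rw [natDegree_zero]
        exact Nat.zero_le _
  · rw [Finset.sum_const, Finset.card_univ, Fintype.card_fin, smul_eq_mul]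

section
variable {F : Type} [Field F] {n m : ℕ} {f : F[X][X]}

theorem IsCab.coeff_le (hn : 0 < n) (h : IsCab n m f) (i : ℕ) : (f.coeff i).natDegree ≤ m := by
  rcases Nat.eq_zero_or_pos i with rfl | h0
  · exact h.deg0.le
  · rcases lt_trichotomy i n with h1 | h1 | h1
    · by_cases h2 : f.coeff i = 0
      · rw [h2, natDegree_zero]
        exact Nat.zero_le _
      · have h3 := h.wt i h0 h1 h2
        by_contra h4
        have := Nat.mul_le_mul_left n (not_le.1 h4).le
        omega
    · have h2 := h.monic
      rw [Monic, leadingCoeff, h.deg, ← h1] at h2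
      rw [h2, natDegree_one]
      exact Nat.zero_le _
    · rw [coeff_eq_zero_of_natDegree_lt (by rw [h.deg]; exact h1), natDegree_zero]
      exact Nat.zero_le _

theorem cab_bez (hn : 0 < n) (hm : 0 < m) (hc : n.Coprime m) (h : IsCab n m f)
    (hnF : ((n : ℕ) : F) ≠ 0) : ∃ (A B : F[X][X]) (D : F[X]), A * f + B * derivative f = C D ∧
      D ≠ 0 ∧ D.natDegree ≤ 2 * n * m := by
  have hirr : Irreducible f := (prime_of hn hm hc h).irreducible
  have hd0 : derivative f ≠ 0 := by
    intro h0
    have h1 := congrArg (fun p => coeff p (n - 1)) h0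
    simp only [coeff_derivative, coeff_zero] at h1
    have h2 := h.monic
    rw [Monic, leadingCoeff, h.deg] at h2
    rw [Nat.sub_add_cancel hn, h2, one_mul] at h1
    have h3 : ((n - 1 : ℕ) : F[X]) + 1 = C ((n : ℕ) : F) := by
      rw [C_eq_natCast]
      have : n = (n - 1) + 1 := by omega
      conv_rhs => rw [this]
      push_cast
      rfl
    rw [h3, C_eq_zero] at h1
    exact hnF h1
  have hdlt : (derivative f).natDegree < n := by
    have := natDegree_derivative_lt (p := f) (by rw [h.deg]; exact hn.ne')
    rwa [h.deg] at this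
  have hnd : ¬ f ∣ derivative f := h.monic.not_dvd_of_natDegree_lt hd0 (by rwa [h.deg])
  -- over the field of rational functions
  have hprim : f.IsPrimitive := h.monic.isPrimitive
  have hirr' := (hprim.irreducible_iff_irreducible_map_fraction_map (K := RatFunc F)).1 hirr
  have hnd' : ¬ f.map (algebraMap F[X] (RatFunc F)) ∣
      (derivative f).map (algebraMap F[X] (RatFunc F)) := by
    refine (h.monic.map _).not_dvd_of_natDegree_lt ?_ ?_
    · rw [Ne, Polynomial.map_eq_zero_iff (IsFractionRing.injective F[X] (RatFunc F))]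
      exact hd0
    · rw [natDegree_map_eq_of_injective (IsFractionRing.injective F[X] (RatFunc F)),
        natDegree_map_eq_of_injective (IsFractionRing.injective F[X] (RatFunc F)), h.deg]
      exact hdlt
  have hcop := (hirr'.coprime_iff_not_dvd).2 hnd'
  have hres := resultant_ne_zero _ _ hcop
  rw [natDegree_map_eq_of_injective (IsFractionRing.injective F[X] (RatFunc F)),
    natDegree_map_eq_of_injective (IsFractionRing.injective F[X] (RatFunc F)),
    resultant_map_map] at hres
  obtain ⟨p, q, -, -, hpq⟩ := exists_mul_add_mul_eq_C_resultant f (derivative f) le_rfl le_rfl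
    (Or.inl (by rw [h.deg]; exact hn.ne'))
  refine ⟨p, q, resultant f (derivative f), ?_, ?_, ?_⟩
  · rw [← hpq]
    ring
  · intro h0
    apply hres
    rw [h0, map_zero]
  · refine (res_deg f (derivative f) f.natDegree (derivative f).natDegree m
      (h.coeff_le hn) ?_).trans ?_
    · intro i
      rw [coeff_derivative]
      have h3 : ((i : ℕ) : F[X]) + 1 = C (((i : ℕ) : F) + 1) := by
        rw [C_add, C_eq_natCast, C_1]
      rw [h3]
      refine (natDegree_mul_le.trans ?_)
      rw [natDegree_C, add_zero]
      exact h.coeff_le hn _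
    · rw [h.deg]
      refine Nat.mul_le_mul_right _ ?_
      omega

end

/-- **The Weil bound for the curves with one place at infinity.** -/
theorem cab_weil {n m : ℕ} (hn : 0 < n) (hm : 0 < m) (hc : n.Coprime m) :
    ∃ c : ℝ, 0 ≤ c ∧ ∀ (F : Type) [Field F] [Finite F] (f : F[X][X]), IsCab n m f →
      ((n : ℕ) : F) ≠ 0 → |(Nat.card {z : F × F // evalEval z.1 z.2 f = 0} : ℝ) - Nat.card F| ≤
        c * √(Nat.card F : ℝ) := by
  refine ⟨Pool.Agent.R410.PW.WC n m (2 * n * m), Nat.cast_nonneg _, ?_⟩
  intro F _ _ f h hnF
  obtain ⟨A, B, D, h1, h2, h3⟩ := cab_bez hn hm hc h hnF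
  have h4 := Pool.Agent.R410.PW.weil (AlgebraicClosure F) h.monic (by rw [h.deg]; exact hn) h1 h2 h3
    (h.coeff_le hn) (prime_of hn hm hc (h.map (algebraMap F (AlgebraicClosure F)))).irreducible
  rw [h.deg] at h4
  exact h4

end Pool.Agent.K3h82.CP
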