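import Pool.Agent.K3h82.CP.Wei
import Pool.Agent.R410.NG.Tr2

/-! The curves with one place at infinity as a weight. -/

set_option autoImplicit false
set_option linter.all false
set_option maxHeartbeats 400000

namespace Pool.Agent.K3h82.CP

open Polynomial Pool.Agent.R410.NG

section
variable {R : Type} [CommRing R] {n m : ℕ}

/-- the degrees -/
def dj (n m : ℕ) (j : Fin n) : ℕ := if (j : ℕ) = 0 then m else m * (n - j) / n + 1

/-- the coefficients -/
noncomputable def cf (n m : ℕ) (g : Fin n → R[X]) (j : Fin n) : R[X] :=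
  if (j : ℕ) = 0 then -g j else g j - X ^ dj n m j

/-- the curve of a family of monic polynomials -/
noncomputable def cabOf (n m : ℕ) (g : Fin n → R[X]) : R[X][X] :=
  X ^ n + ∑ j : Fin n, C (cf n m g j) * X ^ (j : ℕ)

theorem cf_map {S : Type} [CommRing S] (φ : R →+* S) (g : Fin n → R[X]) (j : Fin n) :
    (cf n m g j).map φ = cf n m (fun j => (g j).map φ) j := by
  unfold cf
  split_ifs
  · rw [Polynomial.map_neg]
  · rw [Polynomial.map_sub, Polynomial.map_pow, Polynomial.map_X]

theorem cabOf_map {S : Type} [CommRing S] (φ : R →+* S) (g : Fin n → R[X]) :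
    (cabOf n m g).map (mapRingHom φ) = cabOf n m (fun j => (g j).map φ) := by
  unfold cabOf
  rw [Polynomial.map_add, Polynomial.map_pow, Polynomial.map_X, Polynomial.map_sum]
  congr 1
  refine Finset.sum_congr rfl fun j _ => ?_
  rw [Polynomial.map_mul, Polynomial.map_C, Polynomial.map_pow, Polynomial.map_X, coe_mapRingHom,
    cf_map]

theorem cabOf_coeff (g : Fin n → R[X]) (j : Fin n) : (cabOf n m g).coeff j = cf n m g j := by
  unfold cabOf
  rw [coeff_add, coeff_X_pow, if_neg j.2.ne, zero_add, finsetSum_coeff, Finset.sum_eq_single j]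
  · rw [coeff_C_mul_X_pow, if_pos rfl]
  · intro j' _ h
    rw [coeff_C_mul_X_pow, if_neg]
    intro h'
    exact h (Fin.ext h'.symm)
  · intro h
    exact (h (Finset.mem_univ j)).elim

/-- the family of monic polynomials -/
noncomputable def tup (n m : ℕ) (G : R[X][X]) (j : Fin n) : R[X] :=
  if (j : ℕ) = 0 then -G.coeff 0 else G.coeff j + X ^ dj n m j

theorem cf_tup (G : R[X][X]) (j : Fin n) : cf n m (tup n m G) j = G.coeff j := by
  unfold cf tup
  split_ifs with h
  · rw [neg_neg, h]
  · rw [add_sub_cancel_right]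

theorem cabOf_tup {G : R[X][X]} (h : IsCab n m G) : cabOf n m (tup n m G) = G := by
  have h1 := h.monic.as_sum
  rw [h.deg] at h1
  conv_rhs => rw [h1]
  unfold cabOf
  congr 1
  rw [← Fin.sum_univ_eq_sum_range (fun i => C (G.coeff i) * X ^ i) n]
  refine Finset.sum_congr rfl fun j _ => ?_
  rw [cf_tup]

theorem tup_map {S : Type} [CommRing S] (φ : R →+* S) (G : R[X][X]) (j : Fin n) :
    (tup n m G j).map φ = tup n m (G.map (mapRingHom φ)) j := by
  unfold tup
  split_ifs
  · rw [Polynomial.map_neg, coeff_map, coe_mapRingHom]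
  · rw [Polynomial.map_add, Polynomial.map_pow, Polynomial.map_X, coeff_map, coe_mapRingHom]

theorem tup_spec [Nontrivial R] (hn : 0 < n) (hm : 0 < m) {G : R[X][X]} (h : IsCab n m G) (j : Fin n) :
    (tup n m G j).Monic ∧ (tup n m G j).natDegree = dj n m j := by
  unfold tup
  by_cases hj : (j : ℕ) = 0
  · rw [if_pos hj]
    refine ⟨h.lead, ?_⟩
    rw [natDegree_neg, h.deg0]
    unfold dj
    rw [if_pos hj]
  · rw [if_neg hj]
    have h1 : (G.coeff j).natDegree < dj n m j := by
      unfold dj
      rw [if_neg hj]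
      by_cases h2 : G.coeff j = 0
      · rw [h2, natDegree_zero]
        exact Nat.succ_pos _
      · have h3 := h.wt j (Nat.pos_of_ne_zero hj) j.2 h2
        apply Nat.lt_succ_of_le
        rw [Nat.le_div_iff_mul_le hn, Nat.mul_sub, mul_comm m n]
        have : (G.coeff j).natDegree * n = n * (G.coeff j).natDegree := mul_comm _ _
        omega
    have h2 : (G.coeff j).degree < ((X : R[X]) ^ dj n m j).degree := by
      rw [degree_X_pow]
      exact degree_le_natDegree.trans_lt (by exact_mod_cast h1)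
    rw [add_comm]
    refine ⟨(monic_X_pow _).add_of_left h2, ?_⟩
    rw [natDegree_add_eq_left_of_degree_lt h2, natDegree_X_pow]

theorem cab_of [Nontrivial R] (hn : 0 < n) (hm : 0 < m) (hc : n.Coprime m) {g : Fin n → R[X]}
    (hg : ∀ j, (g j).Monic ∧ (g j).natDegree = dj n m j) : IsCab n m (cabOf n m g) := by
  have hd : (∑ j : Fin n, C (cf n m g j) * X ^ (j : ℕ) : R[X][X]).degree < n :=
    degree_sum_fin_lt _
  have h0 : (cabOf n m g).coeff 0 = -g ⟨0, hn⟩ := by
    have := cabOf_coeff (m := m) g ⟨0, hn⟩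
    simp only at this
    rw [this]
    unfold cf
    rw [if_pos rfl]
  have hg0 := hg ⟨0, hn⟩
  have hd0 : dj n m ⟨0, hn⟩ = m := by
    unfold dj
    rw [if_pos rfl]
  rw [hd0] at hg0
  have hd' : (cabOf n m g).natDegree = n := by
    unfold cabOf
    rw [natDegree_add_eq_left_of_degree_lt (by rw [degree_X_pow]; exact hd), natDegree_X_pow]
  refine ⟨monic_X_pow_add hd, hd', ?_, ?_, ?_⟩
  · rw [h0, neg_neg]
    exact hg0.1
  · rw [h0, natDegree_neg]
    exact hg0.2
  · intro j hj0 hjn hj
    have h1 := cabOf_coeff (m := m) g ⟨j, hjn⟩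
    simp only at h1
    rw [h1] at hj ⊢
    have hgj := hg ⟨j, hjn⟩
    have h2 : cf n m g ⟨j, hjn⟩ = g ⟨j, hjn⟩ - X ^ dj n m ⟨j, hjn⟩ := by
      unfold cf
      rw [if_neg (by simpa using hj0.ne')]
    have hdj : dj n m ⟨j, hjn⟩ = m * (n - j) / n + 1 := by
      unfold dj
      rw [if_neg (by simpa using hj0.ne')]
    have h3 : (cf n m g ⟨j, hjn⟩).natDegree < dj n m ⟨j, hjn⟩ := by
      have h4 : (cf n m g ⟨j, hjn⟩).degree < (dj n m ⟨j, hjn⟩ : ℕ) := by
        rw [h2]
        have h5 : (g ⟨j, hjn⟩).degree = ((X : R[X]) ^ dj n m ⟨j, hjn⟩).degree := by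
          rw [degree_X_pow, degree_eq_natDegree hgj.1.ne_zero, hgj.2]
        refine (degree_sub_lt h5 hgj.1.ne_zero ?_).trans_le ?_
        · rw [hgj.1.leadingCoeff, (monic_X_pow _).leadingCoeff]
        · rw [degree_eq_natDegree hgj.1.ne_zero, hgj.2]
      exact (natDegree_lt_iff_degree_lt hj).2 h4
    rw [hdj] at h3
    have h4 : n * (cf n m g ⟨j, hjn⟩).natDegree ≤ n * (m * (n - j) / n) :=
      Nat.mul_le_mul_left _ (Nat.lt_succ_iff.1 h3)
    have h5 : n * (m * (n - j) / n) ≤ m * (n - j) := Nat.mul_div_le _ _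
    have h6 : n * (m * (n - j) / n) ≠ m * (n - j) := by
      intro h7
      have h8 : n ∣ m * (n - j) := ⟨_, h7.symm⟩
      have h9 := hc.dvd_of_dvd_mul_left h8
      have := Nat.le_of_dvd (by omega) h9
      omega
    have h7 : m * (n - j) + m * j = n * m := by
      rw [← Nat.mul_add, Nat.sub_add_cancel hjn.le, mul_comm]
    omega

end

open Classical in
/-- minus the trace of the Frobenius -/
noncomputable def wC (n m : ℕ) : Wt (Fin n) := fun F _ g => if ((n : ℕ) : F) = 0 then 0 else
  (Nat.card {z : F × F // evalEval z.1 z.2 (cabOf n m g) = 0} : ℝ) - Nat.card F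

theorem evalEval_iso {F F' : Type} [Field F] [Field F'] (e : F →+* F') (p : F[X][X]) (x y : F) :
    evalEval (e x) (e y) (p.map (mapRingHom e)) = e (evalEval x y p) := by
  have h : (evalEvalRingHom (e x) (e y)).comp (mapRingHom (mapRingHom e)) =
      e.comp (evalEvalRingHom x y) := by
    apply Polynomial.ringHom_ext
    · intro q
      have h' : ((evalEvalRingHom (e x) (e y)).comp (mapRingHom (mapRingHom e))).comp C =
          (e.comp (evalEvalRingHom x y)).comp C := by
        apply Polynomial.ringHom_ext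
        · intro a
          simp
        · simp
      exact congrArg (fun f => f q) h'
    · simp
  exact congrArg (fun f => f p) h

theorem isWt_wC {n m : ℕ} (hn : 0 < n) (hm : 0 < m) (hc : n.Coprime m) :
    ∃ c : ℝ, IsWt (wC n m) (dj n m) c := by
  obtain ⟨c, hc0, h⟩ := cab_weil hn hm hc
  refine ⟨c, hc0, ?_, ?_⟩
  · intro F F' _ _ e g
    unfold wC
    have e1 : ((n : ℕ) : F') = 0 ↔ ((n : ℕ) : F) = 0 := by
      rw [← map_natCast e, map_eq_zero_iff e e.injective]
    have e2 : Nat.card {z : F' × F' //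
        evalEval z.1 z.2 (cabOf n m fun j => (g j).map (e : F →+* F')) = 0} =
        Nat.card {z : F × F // evalEval z.1 z.2 (cabOf n m g) = 0} := by
      refine (Nat.card_congr ((Equiv.prodCongr e.toEquiv e.toEquiv).subtypeEquiv fun z => ?_)).symm
      show evalEval z.1 z.2 (cabOf n m g) = 0 ↔
        evalEval ((e : F →+* F') z.1) ((e : F →+* F') z.2) _ = 0
      rw [← cabOf_map, evalEval_iso]
      exact (map_eq_zero_iff (e : F →+* F') e.injective).symm
    rw [e2, Nat.card_congr e.toEquiv]
    by_cases h1 : ((n : ℕ) : F) = 0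
    · rw [if_pos h1, if_pos (e1.2 h1)]
    · rw [if_neg h1, if_neg (fun h2 => h1 (e1.1 h2))]
  · intro F _ _ g hg
    unfold wC
    split_ifs with h1
    · rw [abs_zero]
      positivity
    · exact h F _ (cab_of hn hm hc hg) h1

end Pool.Agent.K3h82.CP
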