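import Mathlib

/-! Elimination for plane curves without common component. -/

set_option autoImplicit false
set_option linter.all false
set_option maxHeartbeats 400000

namespace Pool.Agent.K3h82.CP

open Polynomial

section
variable {M : Type} [Field M]

theorem clear' (p : (RatFunc M)[X]) : ∃ (d : M[X]) (q : M[X][X]), d ≠ 0 ∧
    q.map (algebraMap M[X] (RatFunc M)) = C (algebraMap M[X] (RatFunc M) d) * p := by
  obtain ⟨b, hb⟩ := IsLocalization.integerNormalization_map_to_map (nonZeroDivisors M[X]) p
  refine ⟨b, IsLocalization.integerNormalization (nonZeroDivisors M[X]) p,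
    nonZeroDivisors.ne_zero b.2, ?_⟩
  rw [hb]
  ext i
  rw [coeff_smul, coeff_C_mul]
  show (b : M[X]) • _ = _
  rw [Algebra.smul_def]

/-- **Elimination of `Y`.** -/
theorem elim {f g : M[X][X]} (hf : Irreducible f) (hg : ¬ f ∣ g) :
    ∃ (p : M[X]) (u v : M[X][X]), p ≠ 0 ∧ u * f + v * g = C p := by
  by_cases hd : f.natDegree = 0
  · rw [natDegree_eq_zero] at hd
    obtain ⟨p, rfl⟩ := hd
    refine ⟨p, 1, 0, ?_, by ring⟩
    rintro rfl
    rw [C_0] at hf
    exact hf.ne_zero rfl
  · have hprim : f.IsPrimitive := hf.isPrimitive hd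
    have hirr := (hprim.irreducible_iff_irreducible_map_fraction_map (K := RatFunc M)).1 hf
    have hnd : ¬ f.map (algebraMap M[X] (RatFunc M)) ∣ g.map (algebraMap M[X] (RatFunc M)) := by
      rintro ⟨w, hw⟩
      obtain ⟨d, w', hd0, hw'⟩ := clear' w
      have h1 : C d * g = f * w' := by
        apply Polynomial.map_injective _ (IsFractionRing.injective M[X] (RatFunc M))
        rw [Polynomial.map_mul, Polynomial.map_mul, hw', hw, Polynomial.map_C]
        ring
      have h2 : f ∣ C d * g := ⟨w', h1⟩
      rcases hf.prime.dvd_or_dvd h2 with h3 | h3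
      · apply hd
        have h4 := natDegree_le_of_dvd h3 (by rwa [Ne, C_eq_zero])
        rw [natDegree_C] at h4
        omega
      · exact hg h3
    obtain ⟨u, v, huv⟩ := (hirr.coprime_iff_not_dvd).2 hnd
    obtain ⟨d, u', hd0, hu'⟩ := clear' u
    obtain ⟨e, v', he0, hv'⟩ := clear' v
    refine ⟨d * e, C e * u', C d * v', mul_ne_zero hd0 he0, ?_⟩
    apply Polynomial.map_injective _ (IsFractionRing.injective M[X] (RatFunc M))
    rw [Polynomial.map_add, Polynomial.map_mul, Polynomial.map_mul, Polynomial.map_mul,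
      Polynomial.map_mul, hu', hv', Polynomial.map_C, Polynomial.map_C, Polynomial.map_C, map_mul,
      C_mul]
    linear_combination (C (algebraMap M[X] (RatFunc M) d) * C (algebraMap M[X] (RatFunc M) e)) * huv

/-- **Elimination of `X`.** -/
theorem elim' {f g : M[X][X]} (hf : Irreducible f) (hg : ¬ f ∣ g) :
    ∃ (p : M[X]) (u v : M[X][X]), p ≠ 0 ∧ u * f + v * g = p.map C := by
  let sw := Polynomial.Bivariate.swap (R := M)
  have h1 : Irreducible (sw f) := (MulEquiv.irreducible_iff sw.toMulEquiv).2 hf
  have h2 : ¬ sw f ∣ sw g := by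
    intro h
    apply hg
    exact (map_dvd_iff sw.toMulEquiv).1 h
  obtain ⟨p, u, v, hp, h⟩ := elim h1 h2
  refine ⟨p, sw.symm u, sw.symm v, hp, ?_⟩
  apply sw.injective
  have e : sw (p.map C) = C p := Polynomial.Bivariate.swap_map_C p
  rw [map_add, map_mul, map_mul, AlgEquiv.apply_symm_apply, AlgEquiv.apply_symm_apply, h, e]

/-- the points of a finite scheme are algebraic -/
theorem alg_xy {E : Type} [CommRing E] [IsDomain E] [Algebra M E] (χ : M[X][X] →+* E)
    (hχ : ∀ a : M, χ (C (C a)) = algebraMap M E a) {f g : M[X][X]} (hf : Irreducible f)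
    (hg : ¬ f ∣ g) (h1 : χ f = 0) (h2 : χ g = 0) (s : M[X][X]) : IsIntegral M (χ s) := by
  have hc : ∀ p : M[X], χ (C p) = aeval (χ (C X)) p := by
    intro p
    have e : χ.comp C = (aeval (χ (C X)) : M[X] →ₐ[M] E).toRingHom := by
      apply Polynomial.ringHom_ext
      · intro a
        rw [RingHom.comp_apply, hχ]
        show _ = aeval _ (C a)
        rw [aeval_C]
      · show _ = aeval _ X
        rw [aeval_X]
        rfl
    exact congrArg (fun φ => φ p) e
  have hX : IsIntegral M (χ (C X)) := by
    obtain ⟨p, u, v, hp, h⟩ := elim hf hg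
    have h3 := congrArg χ h
    rw [map_add, map_mul, map_mul, h1, h2, mul_zero, mul_zero, add_zero, hc] at h3
    exact (IsAlgebraic.isIntegral ⟨p, hp, h3.symm⟩)
  have hY : IsIntegral M (χ X) := by
    obtain ⟨p, u, v, hp, h⟩ := elim' hf hg
    have h3 := congrArg χ h
    have e : χ (p.map C) = aeval (χ X) p := by
      have e' : χ.comp (mapRingHom C) = (aeval (χ X) : M[X] →ₐ[M] E).toRingHom := by
        apply Polynomial.ringHom_ext
        · intro a
          rw [RingHom.comp_apply, coe_mapRingHom, Polynomial.map_C, hχ]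
          show _ = aeval _ (C a)
          rw [aeval_C]
        · rw [RingHom.comp_apply, coe_mapRingHom, Polynomial.map_X]
          show _ = aeval _ X
          rw [aeval_X]
      exact congrArg (fun φ => φ p) e'
    rw [map_add, map_mul, map_mul, h1, h2, mul_zero, mul_zero, add_zero, e] at h3
    exact (IsAlgebraic.isIntegral ⟨p, hp, h3.symm⟩)
  induction s using Polynomial.induction_on' with
  | add p q hp hq => rw [map_add]; exact hp.add hq
  | monomial j p =>
    rw [← C_mul_X_pow_eq_monomial, map_mul, map_pow]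
    refine IsIntegral.mul ?_ (hY.pow _)
    rw [hc]
    exact IsIntegral.of_mem_of_fg _ (hX.fg_adjoin_singleton) _ (aeval_mem_adjoin_singleton M _)

end

end Pool.Agent.K3h82.CP
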