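import Mathlib

/-! The rank of a class group which is generated by the primes over one element. -/

set_option autoImplicit false
set_option linter.all false

namespace Pool.Agent.K3h82.CP

open UniqueFactorizationMonoid

section
variable {D : Type} [CommRing D] [IsDedekindDomain D]

open Classical in
/-- the multiplicity of a prime in an ideal -/
noncomputable def cnt (P I : Ideal D) : ℕ := (normalizedFactors I).count P

theorem cnt_mul (P : Ideal D) {I J : Ideal D} (hI : I ≠ 0) (hJ : J ≠ 0) :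
    cnt P (I * J) = cnt P I + cnt P J := by
  unfold cnt
  rw [normalizedFactors_mul hI hJ, Multiset.count_add]

theorem cnt_one (P : Ideal D) : cnt P (1 : Ideal D) = 0 := by
  unfold cnt
  rw [normalizedFactors_one, Multiset.count_zero]

theorem cnt_pow (P : Ideal D) {I : Ideal D} (hI : I ≠ 0) (k : ℕ) : cnt P (I ^ k) = k * cnt P I := by
  unfold cnt
  rw [normalizedFactors_pow, Multiset.count_nsmul]

theorem cnt_prod (P : Ideal D) {κ : Type} (s : Finset κ) (I : κ → Ideal D) (hI : ∀ j, I j ≠ 0) :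
    cnt P (∏ j ∈ s, I j) = ∑ j ∈ s, cnt P (I j) := by
  classical
  induction s using Finset.induction_on with
  | empty => rw [Finset.prod_empty, Finset.sum_empty, cnt_one]
  | insert j s hj ih =>
    rw [Finset.prod_insert hj, Finset.sum_insert hj, cnt_mul _ (hI j) (Finset.prod_ne_zero_iff.2
      fun j _ => hI j), ih]

open Classical in
/-- the class of an ideal -/
noncomputable def cl (I : Ideal D) : Additive (ClassGroup D) :=
  if h : I ≠ 0 then Additive.ofMul (ClassGroup.mk0 ⟨I, mem_nonZeroDivisors_of_ne_zero h⟩) else 0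

theorem cl_def {I : Ideal D} (h : I ≠ 0) : cl I =
    Additive.ofMul (ClassGroup.mk0 ⟨I, mem_nonZeroDivisors_of_ne_zero h⟩) := by
  unfold cl
  rw [dif_pos h]

theorem cl_mul {I J : Ideal D} (hI : I ≠ 0) (hJ : J ≠ 0) : cl (I * J) = cl I + cl J := by
  rw [cl_def (mul_ne_zero hI hJ), cl_def hI, cl_def hJ, ← ofMul_mul, ← map_mul]
  rfl

theorem cl_one : cl (1 : Ideal D) = 0 := by
  rw [cl_def one_ne_zero]
  have : (⟨1, mem_nonZeroDivisors_of_ne_zero one_ne_zero⟩ : nonZeroDivisors (Ideal D)) = 1 := rfl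
  rw [this, map_one, ofMul_one]

theorem cl_pow {I : Ideal D} (hI : I ≠ 0) (k : ℕ) : cl (I ^ k) = (k : ℤ) • cl I := by
  induction k with
  | zero => rw [pow_zero, cl_one, Nat.cast_zero, zero_smul]
  | succ k ih =>
    rw [pow_succ, cl_mul (pow_ne_zero _ hI) hI, ih, Nat.cast_succ, add_smul, one_smul]

theorem cl_prod {κ : Type} (s : Finset κ) (I : κ → Ideal D) (hI : ∀ j, I j ≠ 0) :
    cl (∏ j ∈ s, I j) = ∑ j ∈ s, cl (I j) := by
  classical
  induction s using Finset.induction_on with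
  | empty => rw [Finset.prod_empty, Finset.sum_empty, cl_one]
  | insert j s hj ih =>
    rw [Finset.prod_insert hj, Finset.sum_insert hj, cl_mul (hI j) (Finset.prod_ne_zero_iff.2
      fun j _ => hI j), ih]

theorem span_ne {x : D} (hx : x ≠ 0) : Ideal.span {x} ≠ (0 : Ideal D) := by
  rw [Ideal.zero_eq_bot, Ne, Ideal.span_singleton_eq_bot]
  exact hx

theorem cl_span {x : D} (hx : x ≠ 0) : cl (Ideal.span {x}) = 0 := by
  rw [cl_def (span_ne hx)]
  have : ClassGroup.mk0 (⟨Ideal.span {x}, mem_nonZeroDivisors_of_ne_zero (span_ne hx)⟩ :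
      nonZeroDivisors (Ideal D)) = 1 := by
    rw [ClassGroup.mk0_eq_one_iff]
    exact ⟨⟨x, rfl⟩⟩
  rw [this, ofMul_one]

theorem cl_eq {I J : Ideal D} (hI : I ≠ 0) (hJ : J ≠ 0) (h : cl I = cl J) :
    ∃ x y : D, x ≠ 0 ∧ y ≠ 0 ∧ Ideal.span {x} * I = Ideal.span {y} * J := by
  rw [cl_def hI, cl_def hJ] at h
  obtain ⟨x, y, hx, hy, h1⟩ := ClassGroup.mk0_eq_mk0_iff.1 (Additive.ofMul.injective h)
  exact ⟨x, y, hx, hy, h1⟩

variable {ι κ : Type} [Fintype ι] [Fintype κ]

/-- The primes over `β`, and elements which generate the principal ideals with support over `β`. -/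
structure Gens (P : ι → Ideal D) (β : D) (u : κ → D) : Prop where
  ne : β ≠ 0
  prime : ∀ i, (P i).IsPrime
  mem : ∀ i, β ∈ P i
  inj : Function.Injective P
  all : ∀ Q : Ideal D, Q.IsPrime → β ∈ Q → ∃ i, P i = Q
  gen : ∀ Q : Ideal D, Q.IsPrime → Q ≠ 0 → β ∉ Q → ∃ (x : D) (I : Ideal D) (k : ℕ), x ≠ 0 ∧
    Ideal.span {x} = Q * I ∧ I ∣ Ideal.span {β} ^ k
  dvd : ∀ j, u j ∣ β
  ind : ∀ e f : κ → ℕ, (∀ j, e j = 0 ∨ f j = 0) →
    Associated (∏ j, u j ^ e j) (∏ j, u j ^ f j) → e = 0 ∧ f = 0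
  rel : ∀ (a : D) (N : ℕ), a ∣ β ^ N → ∃ e f : κ → ℕ,
    Associated (a * ∏ j, u j ^ e j) (∏ j, u j ^ f j)

variable {P : ι → Ideal D} {β : D} {u : κ → D}

theorem Gens.P_ne (G : Gens P β u) (i : ι) : P i ≠ 0 := by
  intro h
  have h1 := G.mem i
  rw [h, Ideal.zero_eq_bot, Ideal.mem_bot] at h1
  exact G.ne h1

theorem Gens.u_ne (G : Gens P β u) (j : κ) : u j ≠ 0 := by
  intro h
  have h1 := G.dvd j
  rw [h, zero_dvd_iff] at h1
  exact G.ne h1

theorem Gens.rep (G : Gens P β u) {I : Ideal D} {N : ℕ} (hI : I ∣ Ideal.span {β} ^ N) :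
    I = ∏ i, P i ^ cnt (P i) I := by
  classical
  have hβ0 : Ideal.span {β} ^ N ≠ (0 : Ideal D) := pow_ne_zero _ (span_ne G.ne)
  have hI0 : I ≠ 0 := ne_zero_of_dvd_ne_zero hβ0 hI
  have h1 : I = ∏ Q ∈ (normalizedFactors I).toFinset, Q ^ (normalizedFactors I).count Q := by
    conv_lhs => rw [← prod_normalizedFactors_eq_self hI0]
    rw [Finset.prod_multiset_count]
  have h2 : (normalizedFactors I).toFinset ⊆ Finset.univ.image P := by
    intro Q hQ
    rw [Multiset.mem_toFinset] at hQ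
    have h3 := prime_of_normalized_factor Q hQ
    have h4 : Q ∣ Ideal.span {β} ^ N := (dvd_of_mem_normalizedFactors hQ).trans hI
    have h5 := h3.dvd_of_dvd_pow h4
    rw [Ideal.dvd_iff_le, Ideal.span_singleton_le_iff_mem] at h5
    obtain ⟨i, hi⟩ := G.all Q (Ideal.isPrime_of_prime h3) h5
    exact Finset.mem_image.2 ⟨i, Finset.mem_univ _, hi⟩
  conv_lhs => rw [h1]
  rw [Finset.prod_subset h2, Finset.prod_image]
  · rfl
  · intro i _ i' _ h
    exact G.inj h
  · intro Q _ hQ
    rw [Multiset.mem_toFinset] at hQ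
    rw [Multiset.count_eq_zero_of_notMem hQ, pow_zero]

theorem Gens.rep_eq (G : Gens P β u) {I J : Ideal D} {N N' : ℕ} (hI : I ∣ Ideal.span {β} ^ N)
    (hJ : J ∣ Ideal.span {β} ^ N') (h : ∀ i, cnt (P i) I = cnt (P i) J) : I = J := by
  rw [G.rep hI, G.rep hJ]
  exact Finset.prod_congr rfl fun i _ => by rw [h i]

/-- the map to the class group -/
noncomputable def Psi (P : ι → Ideal D) : (ι → ℤ) →ₗ[ℤ] Additive (ClassGroup D) :=
  Fintype.linearCombination ℤ fun i => cl (P i)

theorem Psi_apply (a : ι → ℤ) : Psi P a = ∑ i, a i • cl (P i) := rfl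

theorem Gens.cl_rep (G : Gens P β u) {I : Ideal D} {N : ℕ} (hI : I ∣ Ideal.span {β} ^ N) :
    cl I = Psi P fun i => (cnt (P i) I : ℤ) := by
  rw [Psi_apply]
  conv_lhs => rw [G.rep hI]
  rw [cl_prod _ _ fun i => pow_ne_zero _ (G.P_ne i)]
  exact Finset.sum_congr rfl fun i _ => cl_pow (G.P_ne i) _

theorem Gens.surj (G : Gens P β u) : Function.Surjective (Psi P) := by
  classical
  have key : ∀ I : Ideal D, I ≠ 0 → ∃ a, Psi P a = cl I := by
    intro I
    induction I using UniqueFactorizationMonoid.induction_on_prime with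
    | h₁ => intro h; exact (h rfl).elim
    | h₂ I hI =>
      intro _
      refine ⟨0, ?_⟩
      rw [Ideal.isUnit_iff.1 hI, ← Ideal.one_eq_top, cl_one, map_zero]
    | h₃ I Q hI hQ ih =>
      intro _
      obtain ⟨a, ha⟩ := ih hI
      obtain ⟨b, hb⟩ : ∃ b, Psi P b = cl Q := by
        have hQp := Ideal.isPrime_of_prime hQ
        by_cases h : β ∈ Q
        · obtain ⟨i, hi⟩ := G.all Q hQp h
          refine ⟨Pi.single i 1, ?_⟩
          rw [Psi_apply, Finset.sum_eq_single i]
          · rw [Pi.single_eq_same, one_smul, hi]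
          · intro i' _ h'
            rw [Pi.single_eq_of_ne h', zero_smul]
          · intro h'
            exact (h' (Finset.mem_univ i)).elim
        · obtain ⟨x, J, k, hx, hxJ, hJ⟩ := G.gen Q hQp hQ.ne_zero h
          have hJ0 : J ≠ 0 := ne_zero_of_dvd_ne_zero (pow_ne_zero _ (span_ne G.ne)) hJ
          refine ⟨-fun i => (cnt (P i) J : ℤ), ?_⟩
          rw [map_neg, ← G.cl_rep hJ, neg_eq_iff_add_eq_zero, add_comm, ← cl_mul hQ.ne_zero hJ0,
            ← hxJ, cl_span hx]
      exact ⟨b + a, by rw [map_add, ha, hb, cl_mul hQ.ne_zero hI]⟩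
  intro c
  obtain ⟨⟨I, hI⟩, hc⟩ := ClassGroup.mk0_surjective (Additive.toMul c)
  obtain ⟨a, ha⟩ := key I (nonZeroDivisors.ne_zero hI)
  refine ⟨a, ?_⟩
  rw [ha, cl_def (nonZeroDivisors.ne_zero hI)]
  exact congrArg Additive.ofMul hc

/-- the relations -/
noncomputable def Em (P : ι → Ideal D) (u : κ → D) : (κ → ℤ) →ₗ[ℤ] (ι → ℤ) :=
  Fintype.linearCombination ℤ fun j i => (cnt (P i) (Ideal.span {u j}) : ℤ)

theorem Em_apply (c : κ → ℤ) (i : ι) :
    Em P u c i = ∑ j, c j * (cnt (P i) (Ideal.span {u j}) : ℤ) := by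
  unfold Em
  rw [Fintype.linearCombination_apply, Finset.sum_apply]
  rfl

theorem Gens.cnt_prod_u (G : Gens P β u) (i : ι) (e : κ → ℕ) :
    (cnt (P i) (Ideal.span {∏ j, u j ^ e j}) : ℤ) = Em P u (fun j => (e j : ℤ)) i := by
  rw [Em_apply, ← Ideal.prod_span_singleton, cnt_prod _ _ _ fun j => span_ne (pow_ne_zero _ (G.u_ne j))]
  push_cast
  refine Finset.sum_congr rfl fun j _ => ?_
  rw [← Ideal.span_singleton_pow, cnt_pow _ (span_ne (G.u_ne j))]
  push_cast
  rfl

theorem Gens.prod_dvd (G : Gens P β u) (e : κ → ℕ) : ∃ N, ∏ j, u j ^ e j ∣ β ^ N := by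
  refine ⟨∑ j, e j, ?_⟩
  rw [← Finset.prod_pow_eq_pow_sum]
  exact Finset.prod_dvd_prod_of_dvd _ _ fun j _ => pow_dvd_pow_of_dvd (G.dvd j) _

theorem Gens.prod_ne (G : Gens P β u) (e : κ → ℕ) : ∏ j, u j ^ e j ≠ 0 :=
  Finset.prod_ne_zero_iff.2 fun j _ => pow_ne_zero _ (G.u_ne j)

theorem span_dvd {a b : D} {N : ℕ} (h : a ∣ b ^ N) : Ideal.span {a} ∣ Ideal.span {b} ^ N := by
  rw [Ideal.span_singleton_pow, Ideal.dvd_iff_le, Ideal.span_singleton_le_span_singleton]
  exact h

theorem Gens.em_inj (G : Gens P β u) : Function.Injective (Em P u) := by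
  rw [injective_iff_map_eq_zero]
  intro c hc
  obtain ⟨N, hN⟩ := G.prod_dvd fun j => (c j).toNat
  obtain ⟨N', hN'⟩ := G.prod_dvd fun j => (-c j).toNat
  have h1 : Ideal.span {∏ j, u j ^ (c j).toNat} = Ideal.span {∏ j, u j ^ (-c j).toNat} := by
    refine G.rep_eq (span_dvd hN) (span_dvd hN') fun i => ?_
    have e1 := G.cnt_prod_u i fun j => (c j).toNat
    have e2 := G.cnt_prod_u i fun j => (-c j).toNat
    have e3 : Em P u (fun j => ((c j).toNat : ℤ)) i - Em P u (fun j => ((-c j).toNat : ℤ)) i = 0 := by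
      rw [← Pi.sub_apply, ← map_sub]
      have : ((fun j => ((c j).toNat : ℤ)) - fun j => ((-c j).toNat : ℤ)) = c := by
        funext j
        show ((c j).toNat : ℤ) - ((-c j).toNat : ℤ) = c j
        omega
      rw [this, hc]
      rfl
    have e4 : (cnt (P i) (Ideal.span {∏ j, u j ^ (c j).toNat}) : ℤ) =
        cnt (P i) (Ideal.span {∏ j, u j ^ (-c j).toNat}) := by
      rw [e1, e2]
      linarith
    exact_mod_cast e4
  rw [Ideal.span_singleton_eq_span_singleton] at h1
  obtain ⟨h2, h3⟩ := G.ind _ _ (fun j => by omega) h1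
  funext j
  have h4 := congrFun h2 j
  have h5 := congrFun h3 j
  simp only [Pi.zero_apply] at h4 h5 ⊢
  omega

theorem Gens.rel_mem (G : Gens P β u) {a : D} {N : ℕ} (ha : a ∣ β ^ N) :
    ∃ c, Em P u c = fun i => (cnt (P i) (Ideal.span {a}) : ℤ) := by
  obtain ⟨e, f, h⟩ := G.rel a N ha
  have ha0 : a ≠ 0 := ne_zero_of_dvd_ne_zero (pow_ne_zero _ G.ne) ha
  rw [← Ideal.span_singleton_eq_span_singleton, ← Ideal.span_singleton_mul_span_singleton] at h
  refine ⟨(fun j => (f j : ℤ)) - fun j => (e j : ℤ), ?_⟩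
  funext i
  have h1 := congrArg (cnt (P i)) h
  rw [cnt_mul _ (span_ne ha0) (span_ne (G.prod_ne e))] at h1
  have h2 := G.cnt_prod_u i e
  have h3 := G.cnt_prod_u i f
  rw [map_sub, Pi.sub_apply, ← h2, ← h3, ← h1]
  push_cast
  ring

theorem Gens.ker_eq (G : Gens P β u) : LinearMap.ker (Psi P) = LinearMap.range (Em P u) := by
  classical
  apply le_antisymm
  · intro a ha
    rw [LinearMap.mem_ker, Psi_apply] at ha
    have hI0 : ∀ e : ι → ℕ, ∏ i, P i ^ e i ≠ 0 := fun e =>
      Finset.prod_ne_zero_iff.2 fun i _ => pow_ne_zero _ (G.P_ne i)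
    have hIdv : ∀ e : ι → ℕ, ∏ i, P i ^ e i ∣ Ideal.span {β} ^ (∑ i, e i) := by
      intro e
      rw [← Finset.prod_pow_eq_pow_sum]
      refine Finset.prod_dvd_prod_of_dvd _ _ fun i _ => pow_dvd_pow_of_dvd ?_ _
      rw [Ideal.dvd_iff_le, Ideal.span_singleton_le_iff_mem]
      exact G.mem i
    have hIcl : ∀ e : ι → ℕ, cl (∏ i, P i ^ e i) = ∑ i, (e i : ℤ) • cl (P i) := by
      intro e
      rw [cl_prod _ _ fun i => pow_ne_zero _ (G.P_ne i)]
      exact Finset.sum_congr rfl fun i _ => cl_pow (G.P_ne i) _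
    have hIcnt : ∀ (e : ι → ℕ) (i : ι), cnt (P i) (∏ i, P i ^ e i) = e i := by
      intro e i
      rw [cnt_prod _ _ _ fun i => pow_ne_zero _ (G.P_ne i), Finset.sum_eq_single i]
      · rw [cnt_pow _ (G.P_ne i)]
        have h1 : cnt (P i) (P i) = 1 := by
          have h2 : Irreducible (P i) := (Ideal.prime_of_isPrime (G.P_ne i) (G.prime i)).irreducible
          unfold cnt
          rw [normalizedFactors_irreducible h2, normalize_eq, Multiset.count_singleton_self]
        rw [h1, mul_one]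
      · intro i' _ h'
        rw [cnt_pow _ (G.P_ne i')]
        have h1 : cnt (P i) (P i') = 0 := by
          have h2 : Irreducible (P i') :=
            (Ideal.prime_of_isPrime (G.P_ne i') (G.prime i')).irreducible
          unfold cnt
          rw [normalizedFactors_irreducible h2, normalize_eq, Multiset.count_singleton, if_neg]
          intro h3
          exact h' (G.inj h3).symm
        rw [h1, mul_zero]
      · intro h'
        exact (h' (Finset.mem_univ i)).elim
    set I₁ := ∏ i, P i ^ (a i).toNat with hI₁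
    set I₂ := ∏ i, P i ^ (-a i).toNat with hI₂
    have hcl : cl I₁ = cl I₂ := by
      rw [hI₁, hI₂, hIcl, hIcl, ← sub_eq_zero, ← Finset.sum_sub_distrib, ← ha]
      refine Finset.sum_congr rfl fun i _ => ?_
      rw [← sub_smul]
      congr 1
      omega
    obtain ⟨x, y, hx, hy, hxy⟩ := cl_eq (hI0 _) (hI0 _) hcl
    obtain ⟨J, hJ⟩ := hIdv fun i => (-a i).toNat
    rw [← hI₂] at hJ
    set N := ∑ i, (-a i).toNat with hN
    have hJ0 : J ≠ 0 := by
      intro h
      rw [h, mul_zero] at hJ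
      exact pow_ne_zero _ (span_ne G.ne) hJ
    have h1 : Ideal.span {x} * (I₁ * J) = Ideal.span {y * β ^ N} := by
      rw [← mul_assoc, hxy, mul_assoc, ← hJ, Ideal.span_singleton_pow,
        Ideal.span_singleton_mul_span_singleton]
    have h2 : x ∣ y * β ^ N := by
      have h7 : Ideal.span {y * β ^ N} ≤ Ideal.span {x} := by
        rw [← h1]
        exact Ideal.mul_le_left
      exact Ideal.span_singleton_le_span_singleton.1 h7
    obtain ⟨a₀, ha₀⟩ := h2
    have h3 : I₁ * J = Ideal.span {a₀} := by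
      rw [ha₀, ← Ideal.span_singleton_mul_span_singleton] at h1
      exact mul_left_cancel₀ (span_ne hx) h1
    have h4 : a₀ ∣ β ^ ((∑ i, (a i).toNat) + N) := by
      have h5 : Ideal.span {a₀} ∣ Ideal.span {β} ^ (∑ i, (a i).toNat) * Ideal.span {β} ^ N := by
        rw [← h3]
        refine mul_dvd_mul (hIdv _) ?_
        rw [hJ]
        exact dvd_mul_left _ _
      rw [← pow_add, Ideal.span_singleton_pow, Ideal.dvd_iff_le,
        Ideal.span_singleton_le_span_singleton] at h5
      exact h5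
    obtain ⟨c, hc⟩ := G.rel_mem h4
    obtain ⟨c', hc'⟩ := G.rel_mem (a := β ^ N) (N := N) dvd_rfl
    refine ⟨c - c', ?_⟩
    funext i
    rw [map_sub, Pi.sub_apply, hc, hc']
    have e1 : cnt (P i) (Ideal.span {a₀}) = (a i).toNat + cnt (P i) J := by
      rw [← h3, cnt_mul _ (hI0 _) hJ0, hIcnt]
    have e2 : cnt (P i) (Ideal.span {β ^ N}) = (-a i).toNat + cnt (P i) J := by
      rw [← Ideal.span_singleton_pow, hJ, cnt_mul _ (hI0 _) hJ0, hIcnt]
    simp only
    rw [e1, e2]
    push_cast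
    omega
  · rintro _ ⟨c, rfl⟩
    rw [LinearMap.mem_ker]
    have h1 : ∀ j, Psi P (fun i => (cnt (P i) (Ideal.span {u j}) : ℤ)) = 0 := by
      intro j
      have h2 : Ideal.span {u j} ∣ Ideal.span {β} ^ 1 := span_dvd (by rw [pow_one]; exact G.dvd j)
      rw [← G.cl_rep h2, cl_span (G.u_ne j)]
    unfold Em
    rw [Fintype.linearCombination_apply, map_sum]
    exact Finset.sum_eq_zero fun j _ => by rw [map_smul, h1, smul_zero]

/-- **The rank of the class group.** -/
theorem Gens.rank (G : Gens P β u) : Fintype.card κ ≤ Fintype.card ι ∧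
    Module.rank ℤ (Additive (ClassGroup D)) = ((Fintype.card ι - Fintype.card κ : ℕ) : Cardinal) := by
  have h1 := LinearMap.rank_range_add_rank_ker (Psi P)
  rw [LinearMap.range_eq_top.2 G.surj, rank_top, G.ker_eq] at h1
  have h2 : Module.rank ℤ (LinearMap.range (Em P u)) = Fintype.card κ := by
    rw [← (LinearEquiv.ofInjective (Em P u) G.em_inj).rank_eq, rank_fun']
  rw [h2, rank_fun'] at h1
  have h3 : Module.rank ℤ (Additive (ClassGroup D)) < Cardinal.aleph0 := by
    refine lt_of_le_of_lt ?_ (Cardinal.natCast_lt_aleph0 (n := Fintype.card ι))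
    rw [← h1]
    exact le_self_add
  obtain ⟨r, hr⟩ := Cardinal.lt_aleph0.1 h3
  rw [hr] at h1 ⊢
  have h4 : r + Fintype.card κ = Fintype.card ι := by exact_mod_cast h1
  refine ⟨by omega, ?_⟩
  congr 1
  omega

end

end Pool.Agent.K3h82.CP
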