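import Pool.Agent.K3h82.CP.Div
import Pool.Agent.K3h82.CP.Elm
import Pool.Agent.K3h82.CP.RkA

/-! Linear pencils: the class group. -/

set_option autoImplicit false
set_option linter.all false
set_option maxHeartbeats 400000

namespace Pool.Agent.K3h82.CP

open Polynomial

section
variable {M K : Type} [Field M] [Field K] [Algebra M K] {A B : M[X][X]} {ω : K} {n m : ℕ}

/-- a linear pencil of curves with one place at infinity -/
structure Pen (n m : ℕ) (A B : M[X][X]) (ω : K) : Prop where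
  tr : Transcendental M ω
  ge : Gen M ω
  hn : 0 < n
  hm : 0 < m
  hc : n.Coprime m
  hA : IsCab n m A
  hB : IsLow n m B
  hB0 : B ≠ 0

theorem Pen.cab (h : Pen n m A B ω) : IsCab n m (FF A B ω) :=
  (h.hA.map (algebraMap M K)).add_low h.hn h.hm ((h.hB.map (algebraMap M K)).C_mul ω)

theorem Pen.dom (h : Pen n m A B ω) : IsDomain (AdjoinRoot (FF A B ω)) :=
  CP.dom h.hn h.hm h.hc h.cab

theorem Pen.inj (h : Pen n m A B ω) : Function.Injective (io A B ω) :=
  io_inj h.tr h.ge h.hA.monic h.hA.deg (h.hB.deg_lt h.hn h.hm) h.hB0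

theorem Pen.irrA (h : Pen n m A B ω) : Irreducible A := (prime_of h.hn h.hm h.hc h.hA).irreducible

theorem Pen.ndvd (h : Pen n m A B ω) : ¬ A ∣ B :=
  h.hA.monic.not_dvd_of_natDegree_lt h.hB0 (by
    rw [h.hA.deg]
    exact h.hB.deg_lt h.hn h.hm)

theorem Pen.beta_ne (h : Pen n m A B ω) : io A B ω B ≠ 0 := fun h0 =>
  h.hB0 (h.inj (by rw [h0, map_zero]))

/-- the parameter is transcendental over the coordinates of a point -/
theorem Pen.tr_contra (h : Pen n m A B ω) {E : Type} [CommRing E] [IsDomain E]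
    (θ : AdjoinRoot (FF A B ω) →+* E) {f g : M[X][X]} (hf : Irreducible f) (hg : ¬ f ∣ g)
    (h1 : θ (io A B ω f) = 0) (h2 : θ (io A B ω g) = 0) {τ : M[X][X][X]}
    (hτ : θ (Th A B ω τ) = 0) (k : ℕ) : θ (io A B ω (τ.coeff k)) = 0 := by
  let _ : Algebra K E := (θ.comp (ka A B ω)).toAlgebra
  let _ : Algebra M E := ((algebraMap K E).comp (algebraMap M K)).toAlgebra
  have _ : IsScalarTower M K E := IsScalarTower.of_algebraMap_eq' rfl
  let χ : M[X][X] →+* E := θ.comp (io A B ω)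
  have hχ : ∀ a : M, χ (C (C a)) = algebraMap M E a := by
    intro a
    show θ (io A B ω (C (C a))) = θ (ka A B ω (algebraMap M K a))
    rw [ka_M]
  have hint : ∀ s, IsIntegral M (χ s) := alg_xy χ hχ hf hg h1 h2
  by_contra hk
  let χ' : M[X][X] →+* integralClosure M E := χ.codRestrict (integralClosure M E) fun s => hint s
  have hτ0 : τ.map χ' ≠ 0 := by
    intro h0
    have h3 := congrArg (fun p => ((p.coeff k : integralClosure M E) : E)) h0
    simp only [coeff_map, coeff_zero] at h3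
    exact hk h3
  have h4 : IsAlgebraic (integralClosure M E) (algebraMap K E ω) := by
    refine ⟨τ.map χ', hτ0, ?_⟩
    rw [aeval_def, eval₂_map]
    have e1 : (algebraMap (integralClosure M E) E).comp χ' = χ := by
      refine RingHom.ext fun s => rfl
    rw [e1]
    rw [← hτ]
    unfold Th
    rw [coe_eval₂RingHom, hom_eval₂]
    rfl
  have h5 : IsAlgebraic M (algebraMap K E ω) := h4.restrictScalars M
  exact h.tr ((isAlgebraic_algHom_iff (IsScalarTower.toAlgHom M K E)
    (algebraMap K E).injective).1 h5)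

theorem Pen.io_A {E : Type} [CommRing E] (θ : AdjoinRoot (FF A B ω) →+* E)
    (hβ : θ (io A B ω B) = 0) : θ (io A B ω A) = 0 := by
  have h1 := congrArg θ (rel_io A B ω)
  rw [map_mul, hβ, mul_zero, map_neg, map_neg] at h1
  exact neg_eq_zero.1 h1.symm

theorem unit_ka (q : M[X]) (hq : aeval ω q ≠ 0) : IsUnit (ka A B ω (aeval ω q)) :=
  (isUnit_iff_ne_zero.2 hq).map (ka A B ω)

theorem Pen.comap_le (h : Pen n m A B ω) {Q Q' : Ideal (AdjoinRoot (FF A B ω))} (hQ : Q.IsPrime)
    (hβ : io A B ω B ∈ Q) (hc : Q.comap (io A B ω) = Q'.comap (io A B ω)) : Q ≤ Q' := by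
  intro z hz
  obtain ⟨q, σ, hq, hσ⟩ := exists_Th h.ge z
  have h1 : Th A B ω σ ∈ Q := by
    rw [← hσ]
    exact Q.mul_mem_left _ hz
  have h2 : ∀ k, io A B ω (σ.coeff k) ∈ Q' := by
    intro k
    have h3 := h.tr_contra (Ideal.Quotient.mk Q) h.irrA h.ndvd
      (Pen.io_A _ (Ideal.Quotient.eq_zero_iff_mem.2 hβ)) (Ideal.Quotient.eq_zero_iff_mem.2 hβ)
      (Ideal.Quotient.eq_zero_iff_mem.2 h1) k
    have h5 : io A B ω (σ.coeff k) ∈ Q := Ideal.Quotient.eq_zero_iff_mem.1 h3
    have h4 : σ.coeff k ∈ Q.comap (io A B ω) := Ideal.mem_comap.2 h5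
    rw [hc] at h4
    exact h4
  have h3 : Th A B ω σ ∈ Q' := by
    unfold Th
    rw [coe_eval₂RingHom, eval₂_eq_sum_range]
    exact Q'.sum_mem fun k _ => Q'.mul_mem_right _ (h2 k)
  rw [← hσ] at h3
  exact (Ideal.unit_mul_mem_iff_mem _ (unit_ka q hq)).1 h3

/-- lifting to fields of rational functions -/
theorem exists_lift (hω : Transcendental M ω) (hL : Gen M ω) {E : Type} [Field E] (c : M →+* E)
    (t : E) (hi : Function.Injective (eval₂RingHom c t)) : ∃ l : K →+* E,
      (∀ a, l (algebraMap M K a) = c a) ∧ l ω = t := by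
  have hinj := transcendental_iff_injective.1 hω
  let _ : Algebra M[X] K := (aeval ω : M[X] →ₐ[M] K).toRingHom.toAlgebra
  have hal : ∀ q : M[X], algebraMap M[X] K q = aeval ω q := fun q => rfl
  have hfr : IsFractionRing M[X] K := by
    refine ⟨⟨?_, ?_, ?_⟩⟩
    · rintro ⟨q, hq⟩
      rw [hal, isUnit_iff_ne_zero]
      intro h0
      exact nonZeroDivisors.ne_zero hq (hinj (by rw [h0, map_zero]))
    · intro z
      obtain ⟨p, q, hq, hz⟩ := hL z
      have hq0 : q ≠ 0 := by
        rintro rfl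
        exact hq (map_zero _)
      exact ⟨(p, ⟨q, mem_nonZeroDivisors_of_ne_zero hq0⟩), hz⟩
    · intro x y hxy
      refine ⟨1, ?_⟩
      rw [hinj hxy]
  refine ⟨IsFractionRing.lift hi, fun a => ?_, ?_⟩
  · have h1 : algebraMap M K a = algebraMap M[X] K (C a) := by rw [hal, aeval_C]
    rw [h1, IsFractionRing.lift_algebraMap, coe_eval₂RingHom, eval₂_C]
  · have h1 : ω = algebraMap M[X] K X := by rw [hal, aeval_X]
    conv_lhs => rw [h1]
    rw [IsFractionRing.lift_algebraMap, coe_eval₂RingHom, eval₂_X]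

theorem Pen.comap_surj (h : Pen n m A B ω) {P : Ideal M[X][X]} (hP : P.IsPrime) (hPA : A ∈ P)
    (hPB : B ∈ P) : ∃ Q : Ideal (AdjoinRoot (FF A B ω)), Q.IsPrime ∧ io A B ω B ∈ Q ∧
      Q.comap (io A B ω) = P := by
  let L := P.ResidueField
  let E := RatFunc L
  let ψ : M[X][X] →+* L := algebraMap M[X][X] P.ResidueField
  have hψ : ∀ s, ψ s = 0 ↔ s ∈ P := fun s => Ideal.algebraMap_residueField_eq_zero
  let c : M →+* E := (algebraMap L E).comp (ψ.comp (C.comp C))
  have hi : Function.Injective (eval₂RingHom c (RatFunc.X : E)) := by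
    have e : eval₂RingHom c (RatFunc.X : E) =
        (algebraMap L[X] (RatFunc L)).comp (mapRingHom (ψ.comp (C.comp C))) := by
      apply Polynomial.ringHom_ext
      · intro a
        rw [coe_eval₂RingHom, eval₂_C]
        show algebraMap L (RatFunc L) (ψ (C (C a))) =
          algebraMap L[X] (RatFunc L) (mapRingHom (ψ.comp (C.comp C)) (C a))
        rw [coe_mapRingHom, Polynomial.map_C, RatFunc.algebraMap_C]
        rfl
      · rw [coe_eval₂RingHom, eval₂_X, RingHom.comp_apply, coe_mapRingHom, Polynomial.map_X,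
          RatFunc.algebraMap_X]
    rw [e, RingHom.coe_comp]
    exact (IsFractionRing.injective L[X] (RatFunc L)).comp
      (Polynomial.map_injective _ (ψ.comp (C.comp C)).injective)
  obtain ⟨l, hl, hlω⟩ := exists_lift h.tr h.ge c RatFunc.X hi
  let x : E := algebraMap L E (ψ (C X))
  let y : E := algebraMap L E (ψ X)
  have h1 : ∀ s : M[X][X], eval₂ (eval₂RingHom l x) y (up2 K s) = algebraMap L E (ψ s) := by
    intro s
    unfold up2
    rw [coe_mapRingHom, eval₂_map]
    have e : eval₂RingHom ((eval₂RingHom l x).comp (mapRingHom (algebraMap M K))) y =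
        (algebraMap L E).comp ψ := by
      apply Polynomial.ringHom_ext
      · intro p
        rw [coe_eval₂RingHom, eval₂_C, RingHom.comp_apply, coe_eval₂RingHom, coe_mapRingHom, eval₂_map]
        have e' : eval₂RingHom (l.comp (algebraMap M K)) x =
            ((algebraMap L E).comp ψ).comp C := by
          apply Polynomial.ringHom_ext
          · intro a
            rw [coe_eval₂RingHom, eval₂_C, RingHom.comp_apply, hl]
            rfl
          · rw [coe_eval₂RingHom, eval₂_X]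
            rfl
        exact congrArg (fun f => f p) e'
      · rw [coe_eval₂RingHom, eval₂_X]
        rfl
    exact congrArg (fun f => f s) e
  have h2 : eval₂ (eval₂RingHom l x) y (FF A B ω) = 0 := by
    unfold FF
    rw [eval₂_add, eval₂_mul, h1, h1, (hψ A).2 hPA, (hψ B).2 hPB, map_zero, mul_zero, add_zero]
  let θ : AdjoinRoot (FF A B ω) →+* E := AdjoinRoot.lift (eval₂RingHom l x) y h2
  have h3 : ∀ s, θ (io A B ω s) = algebraMap L E (ψ s) := by
    intro s
    show AdjoinRoot.lift (eval₂RingHom l x) y h2 (io A B ω s) = _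
    unfold io
    rw [RingHom.comp_apply, AdjoinRoot.lift_mk, h1]
  refine ⟨RingHom.ker θ, RingHom.ker_isPrime θ, ?_, ?_⟩
  · rw [RingHom.mem_ker, h3, (hψ B).2 hPB, map_zero]
  · ext s
    rw [Ideal.mem_comap, RingHom.mem_ker, h3, map_eq_zero, hψ]

/-- the base points -/
abbrev BPt (A B : M[X][X]) : Type := {P : Ideal M[X][X] // P.IsPrime ∧ A ∈ P ∧ B ∈ P}

/-- the primes over the base points -/
noncomputable def Pen.eqv (h : Pen n m A B ω) :
    {Q : Ideal (AdjoinRoot (FF A B ω)) // Q.IsPrime ∧ io A B ω B ∈ Q} ≃ BPt A B :=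
  Equiv.ofBijective (fun Q => ⟨Q.1.comap (io A B ω),
    have := Q.2.1
    ⟨Ideal.IsPrime.comap _, Ideal.mem_comap.2 (Ideal.Quotient.eq_zero_iff_mem.1
      (Pen.io_A (Ideal.Quotient.mk Q.1) (Ideal.Quotient.eq_zero_iff_mem.2 Q.2.2))), Q.2.2⟩⟩) (by
    constructor
    · intro Q Q' hQ
      have h1 : Q.1.comap (io A B ω) = Q'.1.comap (io A B ω) := congrArg (fun z => z.1) hQ
      exact Subtype.ext (le_antisymm (h.comap_le Q.2.1 Q.2.2 h1) (h.comap_le Q'.2.1 Q'.2.2 h1.symm))
    · rintro ⟨P, hP, hPA, hPB⟩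
      obtain ⟨Q, h1, h2, h3⟩ := h.comap_surj hP hPA hPB
      exact ⟨⟨Q, h1, h2⟩, Subtype.ext h3⟩)

/-- the base points are closed points -/
theorem bpt_max {P : Ideal M[X][X]} (hP : P.IsPrime) {f g : M[X][X]} (hf : Irreducible f)
    (hg : ¬ f ∣ g) (h1 : f ∈ P) (h2 : g ∈ P) : P.IsMaximal := by
  have h3 : ∀ s, IsIntegral M (algebraMap M[X][X] (M[X][X] ⧸ P) s) :=
    alg_xy (algebraMap M[X][X] (M[X][X] ⧸ P)) (fun a => rfl) hf hg
      (Ideal.Quotient.eq_zero_iff_mem.2 h1) (Ideal.Quotient.eq_zero_iff_mem.2 h2)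
  have h4 : Algebra.IsIntegral M (M[X][X] ⧸ P) := ⟨fun z => by
    obtain ⟨s, rfl⟩ := Ideal.Quotient.mk_surjective z
    exact h3 s⟩
  apply Ideal.Quotient.maximal_of_isField
  exact isField_of_isIntegral_of_isField' (R := M) (S := M[X][X] ⧸ P) (Field.toIsField M)

theorem bpt_min {P : Ideal M[X][X]} (hP : P.IsPrime) {f g : M[X][X]} (hf : Irreducible f)
    (hg : ¬ f ∣ g) (h1 : f ∈ P) (h2 : g ∈ P) : P ∈ (Ideal.span {f, g}).minimalPrimes := by
  refine ⟨⟨hP, ?_⟩, ?_⟩
  · rw [Ideal.span_le]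
    rintro z (rfl | rfl)
    · exact h1
    · exact h2
  · rintro P' ⟨hP', h3⟩ h4
    have h5 : f ∈ P' := h3 (Ideal.subset_span (Set.mem_insert _ _))
    have h6 : g ∈ P' := h3 (Ideal.subset_span (Set.mem_insert_of_mem _ rfl))
    have h7 := bpt_max hP' hf hg h5 h6
    exact (h7.eq_of_le hP.ne_top h4).ge

theorem bpt_finite {f g : M[X][X]} (hf : Irreducible f) (hg : ¬ f ∣ g) : Finite (BPt f g) := by
  have h1 := Ideal.finite_minimalPrimes_of_isNoetherianRing M[X][X] (Ideal.span {f, g})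
  have h2 : Finite {P // P ∈ (Ideal.span {f, g}).minimalPrimes} := h1
  exact Finite.of_injective (fun P : BPt f g => (⟨P.1, bpt_min P.2.1 hf hg P.2.2.1 P.2.2.2⟩ :
    {P // P ∈ (Ideal.span {f, g}).minimalPrimes})) fun P P' h => Subtype.ext
      (congrArg (fun z => z.1) h)

/-- **The other primes.** -/
theorem Pen.gen (h : Pen n m A B ω) [IsDedekindDomain (AdjoinRoot (FF A B ω))]
    (Q : Ideal (AdjoinRoot (FF A B ω))) (hQ : Q.IsPrime) (hQ0 : Q ≠ 0) (hβ : io A B ω B ∉ Q) :
    ∃ (x : AdjoinRoot (FF A B ω)) (I : Ideal (AdjoinRoot (FF A B ω))) (k : ℕ), x ≠ 0 ∧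
      Ideal.span {x} = Q * I ∧ I ∣ Ideal.span {io A B ω B} ^ k := by
  have hβ0 := h.beta_ne
  -- the trace on the polynomials
  have h1 : Q.comap (io A B ω) ≠ ⊥ := by
    obtain ⟨z, hz, hz0⟩ := Submodule.exists_mem_ne_zero_of_ne_bot hQ0
    obtain ⟨q, N, s, hq, hs⟩ := exists_io h.ge z
    intro h2
    have h3 : s ∈ Q.comap (io A B ω) := by
      rw [Ideal.mem_comap, ← hs]
      exact Q.mul_mem_left _ hz
    rw [h2, Ideal.mem_bot] at h3
    rw [h3, map_zero] at hs
    exact mul_ne_zero (mul_ne_zero (unit_ka q hq).ne_zero (pow_ne_zero _ hβ0)) hz0 hs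
  have hQp : (Q.comap (io A B ω)).IsPrime := Ideal.IsPrime.comap _
  obtain ⟨w, hw, hwp⟩ := hQp.exists_mem_prime_of_ne_bot h1
  have h2 : ∀ s ∈ Q.comap (io A B ω), w ∣ s := by
    intro s hs
    by_contra hws
    apply hβ
    have h3 : Th A B ω (C B * X + C A) = 0 := by
      unfold Th
      rw [coe_eval₂RingHom, eval₂_add, eval₂_mul, eval₂_C, eval₂_C, eval₂_X]
      have := rel_io A B ω
      rw [map_neg] at this
      linear_combination this
    have h4 := h.tr_contra (Ideal.Quotient.mk Q) hwp.irreducible hws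
      (Ideal.Quotient.eq_zero_iff_mem.2 hw) (Ideal.Quotient.eq_zero_iff_mem.2 hs)
      (τ := C B * X + C A) (by rw [h3, map_zero]) 1
    rw [coeff_add, coeff_C_mul, coeff_X_one, mul_one, coeff_C_succ, add_zero] at h4
    exact Ideal.Quotient.eq_zero_iff_mem.1 h4
  set x := io A B ω w with hx
  have hx0 : x ≠ 0 := fun h0 => hwp.ne_zero (h.inj (by rw [← hx, h0, map_zero]))
  have h3 : ∀ a ∈ Q, ∃ k, io A B ω B ^ k * a ∈ Ideal.span {x} := by
    intro a ha
    obtain ⟨q, N, s, hq, hs⟩ := exists_io h.ge a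
    have h4 : s ∈ Q.comap (io A B ω) := by
      rw [Ideal.mem_comap, ← hs]
      exact Q.mul_mem_left _ ha
    obtain ⟨t, rfl⟩ := h2 s h4
    refine ⟨N, ?_⟩
    rw [← Ideal.unit_mul_mem_iff_mem _ (unit_ka (A := A) (B := B) q hq), ← mul_assoc, hs, map_mul]
    exact Ideal.mul_mem_right _ _ (Ideal.mem_span_singleton_self _)
  obtain ⟨k, hk⟩ : ∃ k, Ideal.span {io A B ω B} ^ k * Q ≤ Ideal.span {x} := by
    obtain ⟨G, hG⟩ := (isNoetherianRing_iff_ideal_fg _).1 inferInstance Q
    have hGQ : ∀ g ∈ G, g ∈ Q := fun g hg => by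
      rw [← hG]
      exact Ideal.subset_span hg
    choose! k hk using h3
    refine ⟨G.sup k, ?_⟩
    rw [Ideal.span_singleton_pow, Ideal.span_singleton_mul_le_iff]
    intro z hz
    rw [← hG] at hz
    induction hz using Submodule.span_induction with
    | mem g hg =>
      obtain ⟨r, hr⟩ := Nat.exists_eq_add_of_le (Finset.le_sup (f := k) hg)
      rw [hr, pow_add]
      have := hk g (hGQ g hg)
      have e : io A B ω B ^ k g * io A B ω B ^ r * g =
          io A B ω B ^ r * (io A B ω B ^ k g * g) := by ring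
      rw [e]
      exact Ideal.mul_mem_left _ _ this
    | zero => rw [mul_zero]; exact zero_mem _
    | add a b _ _ h1 h2 => rw [mul_add]; exact add_mem h1 h2
    | smul c a _ h1 =>
      rw [smul_eq_mul, mul_left_comm]
      exact Ideal.mul_mem_left _ _ h1
  have h4 : Q ∣ Ideal.span {x} := by
    rw [Ideal.dvd_iff_le, Ideal.span_singleton_le_iff_mem]
    exact hw
  obtain ⟨I, hI⟩ := h4
  refine ⟨x, I, k, hx0, hI, ?_⟩
  rw [← Ideal.dvd_iff_le] at hk
  obtain ⟨J, hJ⟩ := hk
  refine ⟨J, ?_⟩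
  apply mul_left_cancel₀ hQ0
  rw [mul_comm Q, hJ, hI, mul_assoc]

end

end Pool.Agent.K3h82.CP
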