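import Pool.Agent.K3h82.CP.Emb

/-! Linear pencils: the members of the pencil are irreducible. -/

set_option autoImplicit false
set_option linter.all false

namespace Pool.Agent.K3h82.CP

open Polynomial

section
variable {S : Type} [CommRing S] [IsDomain S]

theorem hm_mul {a b : S} (hb : b ≠ 0) {N N' : ℕ} {σ σ' : S[X]} (hN : σ.natDegree ≤ N)
    (hN' : σ'.natDegree ≤ N') : hm a b (N + N') (σ * σ') = hm a b N σ * hm a b N' σ' := by
  let θ := algebraMap S (FractionRing S)
  have hθb : θ b ≠ 0 := by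
    rw [Ne, IsFractionRing.to_map_eq_zero_iff]
    exact hb
  have ht : θ a / θ b * θ b = θ a := div_mul_cancel₀ _ hθb
  apply IsFractionRing.injective S (FractionRing S)
  show θ _ = θ _
  rw [map_mul, hm_eval θ _ ht (natDegree_mul_le.trans (add_le_add hN hN')), hm_eval θ _ ht hN,
    hm_eval θ _ ht hN', eval₂_mul, pow_add]
  ring

end

section
variable {M : Type} [Field M] {A B : M[X][X]}

theorem sg_mul (g g' : M[X]) : sg (g * g') = sg g * sg g' := Polynomial.map_mul _

theorem sg_C (c : M) : sg (C c) = C (C (C c)) := by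
  unfold sg
  rw [Polynomial.map_C]
  rfl

theorem sg_X : sg (X : M[X]) = X := Polynomial.map_X _

theorem hm_zero (a b : M[X][X]) (c : M) : hm a b 0 (sg (C c)) = C (C c) := by
  unfold hm
  rw [Finset.sum_range_one, sg_C, coeff_C_zero, pow_zero, Nat.sub_zero, pow_zero, mul_one, mul_one]

theorem hm_one (a b : M[X][X]) (l : M) : hm a b 1 (sg (X - C l)) = a - C (C l) * b := by
  unfold hm
  rw [Finset.sum_range_succ, Finset.sum_range_one]
  unfold sg
  rw [Polynomial.map_sub, Polynomial.map_X, Polynomial.map_C, coeff_sub, coeff_sub, coeff_X_zero,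
    coeff_X_one, coeff_C_zero, coeff_C_succ, RingHom.comp_apply]
  simp only [pow_zero, pow_one, Nat.sub_zero, Nat.sub_self, mul_one, zero_sub, sub_zero, one_mul]
  ring

theorem hm_roots {a b : M[X][X]} (hb : b ≠ 0) (L : Multiset M) :
    hm a b L.card (sg (L.map fun l => X - C l).prod) = (L.map fun l => a - C (C l) * b).prod := by
  induction L using Multiset.induction_on with
  | empty =>
    rw [Multiset.card_zero, Multiset.map_zero, Multiset.map_zero, Multiset.prod_zero,
      Multiset.prod_zero, ← C_1, hm_zero]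
    simp
  | cons l L ih =>
    rw [Multiset.card_cons, Multiset.map_cons, Multiset.map_cons, Multiset.prod_cons,
      Multiset.prod_cons, sg_mul, add_comm, hm_mul hb, ih, hm_one]
    · rw [sg_deg, natDegree_X_sub_C]
    · rw [sg_deg, natDegree_multiset_prod_X_sub_C_eq_card]

/-- divisors of products of members of the pencil -/
theorem div_prod {a b : M[X][X]} (hb : b ≠ 0) (hp : ∀ l, Prime (a - C (C l) * b)) (L : Multiset M) :
    ∀ (c : M) (s : M[X][X]), c ≠ 0 → s ∣ C (C c) * (L.map fun l => a - C (C l) * b).prod →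
      ∃ (N : ℕ) (g : M[X]), g.natDegree ≤ N ∧ s = hm a b N (sg g) := by
  induction L using Multiset.induction_on with
  | empty =>
    intro c s hc hs
    rw [Multiset.map_zero, Multiset.prod_zero, mul_one] at hs
    have hu : IsUnit s := isUnit_of_dvd_unit hs (isUnit_C.2 (isUnit_C.2 (isUnit_iff_ne_zero.2 hc)))
    obtain ⟨p, hp, rfl⟩ := Polynomial.isUnit_iff.1 hu
    obtain ⟨c', hc', rfl⟩ := Polynomial.isUnit_iff.1 hp
    exact ⟨0, C c', by rw [natDegree_C], (hm_zero _ _ _).symm⟩
  | cons l L ih =>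
    intro c s hc hs
    rw [Multiset.map_cons, Multiset.prod_cons] at hs
    by_cases h : a - C (C l) * b ∣ s
    · obtain ⟨s', rfl⟩ := h
      have h1 : s' ∣ C (C c) * (L.map fun l => a - C (C l) * b).prod := by
        have h2 : (a - C (C l) * b) * s' ∣
            (a - C (C l) * b) * (C (C c) * (L.map fun l => a - C (C l) * b).prod) := by
          convert hs using 1
          ring
        exact (mul_dvd_mul_iff_left (hp l).ne_zero).1 h2
      obtain ⟨N, g, hg, hN⟩ := ih c s' hc h1
      refine ⟨1 + N, (X - C l) * g, ?_, ?_⟩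
      · refine natDegree_mul_le.trans (add_le_add ?_ hg)
        rw [natDegree_X_sub_C]
      · rw [sg_mul, hm_mul hb, hm_one, hN]
        · rw [sg_deg, natDegree_X_sub_C]
        · rw [sg_deg]
          exact hg
    · obtain ⟨t, ht⟩ := hs
      have h1 : a - C (C l) * b ∣ s * t := by
        rw [← ht]
        exact ⟨C (C c) * (L.map fun l => a - C (C l) * b).prod, by ring⟩
      obtain ⟨t', rfl⟩ := ((hp l).dvd_or_dvd h1).resolve_left h
      refine ih c s hc ⟨t', ?_⟩
      apply mul_left_cancel₀ (hp l).ne_zero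
      linear_combination ht

end

section
variable {M : Type} [Field M] {A B : M[X][X]} {n m : ℕ}

theorem IsCab.neg_sub (hn : 0 < n) (hm' : 0 < m) (hc : n.Coprime m) (hA : IsCab n m A)
    (hB : IsLow n m B) (l : M) : Prime (-A - C (C l) * B) := by
  have h1 := prime_of hn hm' hc (hA.add_low hn hm' (hB.C_mul l))
  have h2 : -A - C (C l) * B = -(A + C (C l) * B) := by ring
  rw [h2]
  exact h1.neg

/-- descent of coefficients -/
theorem descend {Om : Type} [Field Om] [Algebra M Om] {s : M[X][X]} {N : ℕ} {g : Om[X]}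
    (h : up2 Om s = hm (-(up2 Om A)) (up2 Om B) N (sg g)) :
    ∃ g' : M[X], g'.natDegree ≤ N ∧ s = hm (-A) B N (sg g') := by
  obtain ⟨ρ, hρ⟩ := LinearMap.exists_leftInverse_of_injective (Algebra.linearMap M Om)
    (LinearMap.ker_eq_bot.2 (algebraMap M Om).injective)
  have hρ' : ∀ (z : Om) (a : M), ρ (z * algebraMap M Om a) = ρ z * a := by
    intro z a
    rw [mul_comm, ← Algebra.smul_def, map_smul, smul_eq_mul, mul_comm]
  have hρ1 : ∀ a : M, ρ (algebraMap M Om a) = a := fun a => congrArg (fun f => f a) hρ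
  refine ⟨∑ k ∈ Finset.range (N + 1), monomial k (ρ (g.coeff k)), ?_, ?_⟩
  · refine natDegree_sum_le_of_forall_le _ _ fun k hk => ?_
    exact (natDegree_monomial_le _).trans (Nat.lt_succ_iff.1 (Finset.mem_range.1 hk))
  · have hco : ∀ k ∈ Finset.range (N + 1),
        (∑ k ∈ Finset.range (N + 1), monomial k (ρ (g.coeff k)) : M[X]).coeff k = ρ (g.coeff k) := by
      intro k hk
      rw [finsetSum_coeff, Finset.sum_eq_single k]
      · rw [coeff_monomial, if_pos rfl]
      · intro k' _ hk'
        rw [coeff_monomial, if_neg hk']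
      · intro h'
        exact (h' hk).elim
    ext j i
    have h1 := congrArg (fun p => ρ ((p.coeff j).coeff i)) h
    have e1 : ((up2 Om s).coeff j).coeff i = algebraMap M Om ((s.coeff j).coeff i) := by
      unfold up2
      rw [coe_mapRingHom, coeff_map, coe_mapRingHom, coeff_map]
    rw [e1, hρ1] at h1
    rw [h1]
    unfold hm
    rw [finsetSum_coeff, finsetSum_coeff, finsetSum_coeff, finsetSum_coeff, map_sum]
    refine Finset.sum_congr rfl fun k hk => ?_
    rw [sg_coeff, sg_coeff, hco k hk, mul_assoc, mul_assoc, coeff_C_mul, coeff_C_mul, coeff_C_mul,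
      coeff_C_mul]
    have e2 : (-(up2 Om A)) ^ k * up2 Om B ^ (N - k) = up2 Om ((-A) ^ k * B ^ (N - k)) := by
      rw [map_mul, map_pow, map_pow, map_neg]
    rw [e2]
    have e3 : ((up2 Om ((-A) ^ k * B ^ (N - k))).coeff j).coeff i =
        algebraMap M Om ((((-A) ^ k * B ^ (N - k)).coeff j).coeff i) := by
      unfold up2
      rw [coe_mapRingHom, coeff_map, coe_mapRingHom, coeff_map]
    rw [e3, hρ']

/-- **Divisors of a product of members of the pencil.** -/
theorem div_hm (hn : 0 < n) (hm' : 0 < m) (hc : n.Coprime m) (hA : IsCab n m A) (hB : IsLow n m B)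
    (hB0 : B ≠ 0) {g : M[X]} (hg : g ≠ 0) {s : M[X][X]} (hs : s ∣ hm (-A) B g.natDegree (sg g)) :
    ∃ (N : ℕ) (g' : M[X]), g'.natDegree ≤ N ∧ s = hm (-A) B N (sg g') := by
  let Om := AlgebraicClosure M
  have hAb : IsCab n m (up2 Om A) := hA.map _
  have hBb : IsLow n m (up2 Om B) := hB.map _
  have hinj : Function.Injective (up2 Om : M[X][X] →+* Om[X][X]) :=
    Polynomial.map_injective _ (Polynomial.map_injective _ (algebraMap M Om).injective)
  have hB0' : up2 Om B ≠ 0 := by
    intro h
    exact hB0 (hinj (by rw [h, map_zero]))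
  set gb := g.map (algebraMap M Om) with hgb
  have hsp : gb.Splits := IsAlgClosed.splits gb
  have hfac : gb = C gb.leadingCoeff * (gb.roots.map fun l => X - C l).prod :=
    hsp.eq_prod_roots
  have hcard : gb.roots.card = g.natDegree := by
    rw [← hsp.natDegree_eq_card_roots, hgb, natDegree_map]
  have hgb0 : gb ≠ 0 := by
    rw [hgb, Ne, Polynomial.map_eq_zero]
    exact hg
  have h1 : up2 Om (hm (-A) B g.natDegree (sg g)) = C (C gb.leadingCoeff) *
      (gb.roots.map fun l => -(up2 Om A) - C (C l) * up2 Om B).prod := by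
    rw [hm_map, map_neg]
    have e1 : (sg g).map (up2 Om) = sg gb := by
      unfold sg
      rw [Polynomial.map_map, hgb, Polynomial.map_map]
      congr 1
      refine RingHom.ext fun a => ?_
      rw [RingHom.comp_apply, RingHom.comp_apply, RingHom.comp_apply, RingHom.comp_apply]
      unfold up2
      rw [coe_mapRingHom, Polynomial.map_C, coe_mapRingHom, Polynomial.map_C]
    rw [e1]
    conv_lhs => rw [hfac]
    have e2 : g.natDegree = 0 + gb.roots.card := by rw [hcard, zero_add]
    rw [sg_mul, e2, hm_mul hB0' (by rw [sg_deg, natDegree_C]) (by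
      rw [sg_deg, natDegree_multiset_prod_X_sub_C_eq_card]), hm_zero, hm_roots hB0']
  have h2 : up2 Om s ∣ C (C gb.leadingCoeff) *
      (gb.roots.map fun l => -(up2 Om A) - C (C l) * up2 Om B).prod := by
    rw [← h1]
    exact _root_.map_dvd _ hs
  obtain ⟨N, g', -, hN⟩ := div_prod hB0' (fun l => hAb.neg_sub hn hm' hc hBb l) gb.roots
    gb.leadingCoeff (up2 Om s) (leadingCoeff_ne_zero.2 hgb0) h2
  exact ⟨N, descend hN⟩

/-- **The constants of the factors in the ring of the curve.** -/
theorem div_beta {K : Type} [Field K] [Algebra M K] {ω : K} (hω : Transcendental M ω) (hL : Gen M ω)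
    (hn : 0 < n) (hm' : 0 < m) (hc : n.Coprime m) (hA : IsCab n m A) (hB : IsLow n m B)
    (hB0 : B ≠ 0) {a b : AdjoinRoot (FF A B ω)} {N : ℕ} (hab : a * b = io A B ω B ^ N) :
    ∃ (c : K) (s : M[X][X]) (k l L : ℕ), c ≠ 0 ∧ s ∣ B ^ L ∧
      io A B ω B ^ k * a = ka A B ω c * io A B ω s * io A B ω B ^ l := by
  have hBn := hB.deg_lt hn hm'
  have hinj := io_inj hω hL hA.monic hA.deg hBn hB0
  have hdom : IsDomain (AdjoinRoot (FF A B ω)) := dom hn hm' hc
    ((hA.map (algebraMap M K)).add_low hn hm' ((hB.map (algebraMap M K)).C_mul ω))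
  obtain ⟨q, k, s, hq, hs⟩ := exists_io hL a
  obtain ⟨q', k', s', hq', hs'⟩ := exists_io hL b
  have hkinj : Function.Injective (ka A B ω) := (ka A B ω).injective
  have hβ0 : io A B ω B ≠ 0 := fun h => hB0 (hinj (by rw [h, map_zero]))
  have hqq0 : q * q' ≠ 0 := by
    intro h
    have : aeval ω (q * q') = 0 := by rw [h, map_zero]
    rw [map_mul] at this
    exact mul_ne_zero hq hq' this
  have h1 : s * s' * B ^ (q * q').natDegree =
      hm (-A) B (q * q').natDegree (sg (q * q')) * B ^ (k + k' + N) := by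
    apply hinj
    rw [map_mul, map_mul, map_mul, map_pow, map_pow, io_hm le_rfl, ← hs, ← hs', map_mul (aeval ω),
      map_mul (ka A B ω), pow_add (io A B ω B) (k + k'), pow_add (io A B ω B) k, ← hab]
    ring
  have h2 : s ∣ hm (-A) B (q * q').natDegree (sg (q * q')) * B ^ (k + k' + N) := by
    rw [← h1, mul_assoc]
    exact dvd_mul_right _ _
  obtain ⟨s₁, s₂, hs₁, hs₂, rfl⟩ := exists_dvd_and_dvd_of_dvd_mul h2
  obtain ⟨l, g, hgl, hg⟩ := div_hm hn hm' hc hA hB hB0 hqq0 hs₁
  have h3 : io A B ω s₁ = io A B ω B ^ l * ka A B ω (aeval ω g) := by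
    rw [hg, io_hm hgl]
  have ha0 : a ≠ 0 := by
    rintro rfl
    rw [zero_mul] at hab
    exact pow_ne_zero _ hβ0 hab.symm
  have hkq : ka A B ω (aeval ω q) ≠ 0 := by
    rw [Ne, map_eq_zero]
    exact hq
  have hgω : aeval ω g ≠ 0 := by
    intro h
    rw [map_mul, h3, h, map_zero, mul_zero, zero_mul] at hs
    exact mul_ne_zero (mul_ne_zero hkq (pow_ne_zero _ hβ0)) ha0 hs
  refine ⟨aeval ω g / aeval ω q, s₂, k, l, k + k' + N, div_ne_zero hgω hq, hs₂, ?_⟩
  apply mul_left_cancel₀ hkq
  rw [map_mul, h3] at hs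
  have h4 : ka A B ω (aeval ω q) * ka A B ω (aeval ω g / aeval ω q) = ka A B ω (aeval ω g) := by
    rw [← map_mul, mul_div_cancel₀ _ hq]
  linear_combination hs - (io A B ω s₂ * io A B ω B ^ l) * h4

end

end Pool.Agent.K3h82.CP
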