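import Pool.Agent.K3h82.CP.Wd

/-! Linear pencils: the function field. -/

set_option autoImplicit false
set_option linter.all false

namespace Pool.Agent.K3h82.CP

open Polynomial

section
variable {S T : Type} [CommRing S] [CommRing T]

/-- homogenization -/
noncomputable def hm (a b : S) (N : ℕ) (σ : S[X]) : S :=
  ∑ k ∈ Finset.range (N + 1), σ.coeff k * a ^ k * b ^ (N - k)

theorem hm_eval {a b : S} {N : ℕ} {σ : S[X]} (θ : S →+* T) (t : T) (ht : t * θ b = θ a)
    (hN : σ.natDegree ≤ N) : θ (hm a b N σ) = θ b ^ N * eval₂ θ t σ := by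
  unfold hm
  rw [map_sum, eval₂_eq_sum_range' θ (Nat.lt_succ_of_le hN), Finset.mul_sum]
  refine Finset.sum_congr rfl fun k hk => ?_
  have hk' : k ≤ N := Nat.lt_succ_iff.1 (Finset.mem_range.1 hk)
  rw [map_mul, map_mul, map_pow, map_pow, ← ht, mul_pow]
  have e : θ b ^ N = θ b ^ k * θ b ^ (N - k) := by rw [← pow_add, Nat.add_sub_cancel' hk']
  rw [e]
  ring

theorem hm_map {a b : S} {N : ℕ} {σ : S[X]} (θ : S →+* T) :
    θ (hm a b N σ) = hm (θ a) (θ b) N (σ.map θ) := by
  unfold hm
  rw [map_sum]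
  refine Finset.sum_congr rfl fun k hk => ?_
  rw [map_mul, map_mul, map_pow, map_pow, coeff_map]

theorem hm_add {a b : S} {N : ℕ} {σ : S[X]} (hN : σ.natDegree ≤ N) (r : ℕ) :
    hm a b (N + r) σ = b ^ r * hm a b N σ := by
  unfold hm
  rw [Finset.mul_sum]
  symm
  have h1 : ∑ k ∈ Finset.range (N + r + 1), σ.coeff k * a ^ k * b ^ (N + r - k) =
      ∑ k ∈ Finset.range (N + 1), σ.coeff k * a ^ k * b ^ (N + r - k) := by
    symm
    apply Finset.sum_subset
    · intro k hk
      rw [Finset.mem_range] at hk ⊢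
      omega
    · intro k _ hk
      rw [Finset.mem_range] at hk
      rw [coeff_eq_zero_of_natDegree_lt (by omega), zero_mul, zero_mul]
  rw [h1]
  refine Finset.sum_congr rfl fun k hk => ?_
  have hk' : k ≤ N := Nat.lt_succ_iff.1 (Finset.mem_range.1 hk)
  have e : N + r - k = r + (N - k) := by omega
  rw [e, pow_add]
  ring

end

section
variable {M : Type} [Field M]

/-- constants -/
noncomputable def sg (g : M[X]) : M[X][X][X] := g.map ((C : M[X] →+* M[X][X]).comp C)

theorem sg_coeff (g : M[X]) (k : ℕ) : (sg g).coeff k = C (C (g.coeff k)) := by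
  unfold sg
  rw [coeff_map]
  rfl

theorem sg_deg (g : M[X]) : (sg g).natDegree = g.natDegree := by
  unfold sg
  exact natDegree_map_eq_of_injective (by
    rw [RingHom.coe_comp]
    exact C_injective.comp C_injective) g

variable {A B : M[X][X]} {n : ℕ}

theorem hm_deg (hA : A.Monic) (hn : A.natDegree = n) (hBn : B.natDegree < n) {g : M[X]} (hg : g ≠ 0) :
    hm (-A) B g.natDegree (sg g) ≠ 0 ∧ (hm (-A) B g.natDegree (sg g)).natDegree = n * g.natDegree := by
  set d := g.natDegree with hd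
  have hlc : g.coeff d ≠ 0 := leadingCoeff_ne_zero.2 hg
  have h1 : hm (-A) B d (sg g) = (∑ k ∈ Finset.range d, (sg g).coeff k * (-A) ^ k * B ^ (d - k)) +
      C (C (g.coeff d)) * (-A) ^ d := by
    unfold hm
    rw [Finset.sum_range_succ, Nat.sub_self, pow_zero, mul_one, sg_coeff g d]
  have h2 : (C (C (g.coeff d)) * (-A) ^ d : M[X][X]).natDegree = n * d := by
    have e : (-A) ^ d = C (C ((-1) ^ d)) * A ^ d := by
      simp only [map_pow, map_neg, map_one]
      exact neg_pow A d
    rw [e, ← mul_assoc, ← C_mul, ← C_mul]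
    have hu : g.coeff d * (-1) ^ d ≠ 0 := mul_ne_zero hlc (pow_ne_zero _ (neg_ne_zero.2 one_ne_zero))
    rw [natDegree_C_mul (by rwa [Ne, C_eq_zero]), hA.natDegree_pow, hn, mul_comm]
  have hne : (C (C (g.coeff d)) * (-A) ^ d : M[X][X]) ≠ 0 := by
    refine mul_ne_zero ?_ (pow_ne_zero _ (neg_ne_zero.2 hA.ne_zero))
    rw [Ne, C_eq_zero, C_eq_zero]
    exact hlc
  rcases Nat.eq_zero_or_pos d with h0 | h0
  · rw [h1]
    rw [h0] at hne h2 ⊢
    rw [Finset.range_zero, Finset.sum_empty, zero_add]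
    exact ⟨hne, h2⟩
  · have h3 : (∑ k ∈ Finset.range d, (sg g).coeff k * (-A) ^ k * B ^ (d - k)).natDegree ≤
        n * d - 1 := by
      refine natDegree_sum_le_of_forall_le _ _ fun k hk => ?_
      have hk' := Finset.mem_range.1 hk
      rw [sg_coeff]
      have e1 : (C (C (g.coeff k)) * (-A) ^ k * B ^ (d - k)).natDegree ≤
          0 + k * n + (d - k) * B.natDegree := by
        refine natDegree_mul_le.trans (add_le_add (natDegree_mul_le.trans (add_le_add ?_ ?_)) ?_)
        · rw [natDegree_C]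
        · refine natDegree_pow_le.trans ?_
          rw [natDegree_neg, hn]
        · exact natDegree_pow_le
      refine e1.trans ?_
      have e2 : (d - k) * B.natDegree ≤ (d - k) * (n - 1) := Nat.mul_le_mul_left _ (by omega)
      have e3 : k * n + (d - k) * (n - 1) + (d - k) = n * d := by
        obtain ⟨t, ht⟩ := Nat.exists_eq_add_of_lt hk'
        have h8 : d - k = t + 1 := by omega
        obtain ⟨n', hn'⟩ : ∃ n', n = n' + 1 := ⟨n - 1, by omega⟩
        rw [h8, ht, hn', Nat.add_sub_cancel]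
        ring
      omega
    have h4 : 0 < n * d := Nat.mul_pos (by omega) h0
    have h5 : (∑ k ∈ Finset.range d, (sg g).coeff k * (-A) ^ k * B ^ (d - k)).natDegree <
        (C (C (g.coeff d)) * (-A) ^ d : M[X][X]).natDegree := by
      rw [h2]
      omega
    have h6 := natDegree_add_eq_right_of_natDegree_lt h5
    rw [← h1, h2] at h6
    refine ⟨?_, h6⟩
    intro h7
    rw [h7, natDegree_zero] at h6
    omega

theorem hm_ne (hA : A.Monic) (hn : A.natDegree = n) (hBn : B.natDegree < n) (hB : B ≠ 0) {g : M[X]}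
    (hg : g ≠ 0) {N : ℕ} (hN : g.natDegree ≤ N) : hm (-A) B N (sg g) ≠ 0 := by
  obtain ⟨r, rfl⟩ := Nat.exists_eq_add_of_le hN
  rw [hm_add (sg_deg g).le]
  exact mul_ne_zero (pow_ne_zero _ hB) (hm_deg hA hn hBn hg).1

end

section
variable {M K : Type} [Field M] [Field K] [Algebra M K]

/-- `K = M(ω)` -/
def Gen (M : Type) {K : Type} [Field M] [Field K] [Algebra M K] (ω : K) : Prop :=
  ∀ z : K, ∃ p q : M[X], aeval ω q ≠ 0 ∧ z * aeval ω q = aeval ω p

/-- polynomials over the larger field -/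
noncomputable def up2 (K : Type) {M : Type} [Field M] [Field K] [Algebra M K] : M[X][X] →+* K[X][X] :=
  mapRingHom (mapRingHom (algebraMap M K))

/-- `A + ω B` -/
noncomputable def FF (A B : M[X][X]) (ω : K) : K[X][X] := up2 K A + C (C ω) * up2 K B

variable (A B : M[X][X]) (ω : K)

/-- the polynomials over `M` -/
noncomputable def io : M[X][X] →+* AdjoinRoot (FF A B ω) := (AdjoinRoot.mk _).comp (up2 K)

/-- the constants -/
noncomputable def ka : K →+* AdjoinRoot (FF A B ω) := (AdjoinRoot.mk _).comp (C.comp C)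

theorem rel_io : ka A B ω ω * io A B ω B = io A B ω (-A) := by
  unfold ka io
  simp only [RingHom.comp_apply, map_neg]
  have h : AdjoinRoot.mk (FF A B ω) (up2 K A + C (C ω) * up2 K B) = 0 := AdjoinRoot.mk_self
  rw [map_add, map_mul] at h
  linear_combination h

variable {A B ω}

theorem ka_M (a : M) : ka A B ω (algebraMap M K a) = io A B ω (C (C a)) := by
  unfold ka io up2
  simp only [RingHom.comp_apply, coe_mapRingHom, Polynomial.map_C]

/-- clearing of the powers of `ω` -/
theorem io_hm {g : M[X]} {N : ℕ} (hN : g.natDegree ≤ N) :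
    io A B ω (hm (-A) B N (sg g)) = io A B ω B ^ N * ka A B ω (aeval ω g) := by
  rw [hm_eval (io A B ω) (ka A B ω ω) (rel_io A B ω) (by rw [sg_deg]; exact hN)]
  congr 1
  unfold sg
  rw [eval₂_map, aeval_def, hom_eval₂]
  congr 1
  refine RingHom.ext fun a => ?_
  rw [RingHom.comp_apply, RingHom.comp_apply, RingHom.comp_apply]
  exact (ka_M a).symm

section
variable {n : ℕ}

/-- the value of the parameter in the field of rational functions -/
noncomputable def tau (A B : M[X][X]) : FractionRing M[X][X] :=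
  algebraMap M[X][X] _ (-A) / algebraMap M[X][X] _ B

theorem tau_mul (hB : B ≠ 0) : tau A B * algebraMap M[X][X] (FractionRing M[X][X]) B =
    algebraMap M[X][X] (FractionRing M[X][X]) (-A) := by
  unfold tau
  rw [div_mul_cancel₀]
  rw [Ne, IsFractionRing.to_map_eq_zero_iff]
  exact hB

/-- the constants in the field of rational functions -/
noncomputable def cM (M : Type) [Field M] : M →+* FractionRing M[X][X] :=
  (algebraMap M[X][X] (FractionRing M[X][X])).comp (C.comp C)

theorem tau_inj (hA : A.Monic) (hn : A.natDegree = n) (hBn : B.natDegree < n) (hB : B ≠ 0) :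
    Function.Injective (eval₂RingHom (cM M) (tau A B)) := by
  rw [injective_iff_map_eq_zero]
  intro g hg
  by_contra hg0
  have h1 := hm_eval (a := -A) (b := B) (N := g.natDegree) (σ := sg g)
    (algebraMap M[X][X] (FractionRing M[X][X])) (tau A B) (tau_mul hB) (sg_deg g).le
  have h2 : eval₂ (algebraMap M[X][X] (FractionRing M[X][X])) (tau A B) (sg g) = 0 := by
    unfold sg
    rw [eval₂_map]
    exact hg
  rw [h2, mul_zero, IsFractionRing.to_map_eq_zero_iff] at h1
  exact (hm_deg hA hn hBn hg0).1 h1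

/-- the map to the field of rational functions -/
theorem exists_lam (hω : Transcendental M ω) (hL : Gen M ω) (hA : A.Monic) (hn : A.natDegree = n)
    (hBn : B.natDegree < n) (hB : B ≠ 0) : ∃ l : K →+* FractionRing M[X][X],
      (∀ a, l (algebraMap M K a) = cM M a) ∧ l ω = tau A B := by
  have hinj := transcendental_iff_injective.1 hω
  let _ : Algebra M[X] K := (aeval ω : M[X] →ₐ[M] K).toRingHom.toAlgebra
  have hal : ∀ q : M[X], algebraMap M[X] K q = aeval ω q := fun q => rfl
  have hfr : IsFractionRing M[X] K := by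
    refine ⟨⟨?_, ?_, ?_⟩⟩
    · rintro ⟨q, hq⟩
      rw [hal, isUnit_iff_ne_zero]
      intro h0
      exact nonZeroDivisors.ne_zero hq (hinj (by rw [h0, map_zero]))
    · intro z
      obtain ⟨p, q, hq, hz⟩ := hL z
      have hq0 : q ≠ 0 := by
        rintro rfl
        exact hq (map_zero _)
      exact ⟨(p, ⟨q, mem_nonZeroDivisors_of_ne_zero hq0⟩), hz⟩
    · intro x y hxy
      refine ⟨1, ?_⟩
      rw [hinj hxy]
  refine ⟨IsFractionRing.lift (tau_inj hA hn hBn hB), fun a => ?_, ?_⟩
  · have h1 : algebraMap M K a = algebraMap M[X] K (C a) := by rw [hal, aeval_C]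
    rw [h1, IsFractionRing.lift_algebraMap, coe_eval₂RingHom, eval₂_C]
  · have h1 : ω = algebraMap M[X] K X := by rw [hal, aeval_X]
    conv_lhs => rw [h1]
    rw [IsFractionRing.lift_algebraMap, coe_eval₂RingHom, eval₂_X]

/-- **The polynomials over `M` are not identified.** -/
theorem io_inj (hω : Transcendental M ω) (hL : Gen M ω) (hA : A.Monic) (hn : A.natDegree = n)
    (hBn : B.natDegree < n) (hB : B ≠ 0) : Function.Injective (io A B ω) := by
  obtain ⟨l, hl, hlω⟩ := exists_lam hω hL hA hn hBn hB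
  let Q := FractionRing M[X][X]
  let y : Q := algebraMap M[X][X] Q X
  let x : Q := algebraMap M[X][X] Q (C X)
  have h1 : ∀ s : M[X][X], eval₂ (eval₂RingHom l x) y (up2 K s) = algebraMap M[X][X] Q s := by
    intro s
    unfold up2
    rw [coe_mapRingHom, eval₂_map]
    have e : eval₂RingHom ((eval₂RingHom l x).comp (mapRingHom (algebraMap M K))) y =
        algebraMap M[X][X] Q := by
      apply Polynomial.ringHom_ext
      · intro p
        rw [coe_eval₂RingHom, eval₂_C, RingHom.comp_apply, coe_eval₂RingHom, coe_mapRingHom, eval₂_map]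
        have e' : eval₂RingHom (l.comp (algebraMap M K)) x =
            (algebraMap M[X][X] Q).comp C := by
          apply Polynomial.ringHom_ext
          · intro a
            rw [coe_eval₂RingHom, eval₂_C, RingHom.comp_apply, hl]
            rfl
          · rw [coe_eval₂RingHom, eval₂_X]
            rfl
        exact congrArg (fun f => f p) e'
      · rw [coe_eval₂RingHom, eval₂_X]
    exact congrArg (fun f => f s) e
  have h2 : eval₂ (eval₂RingHom l x) y (FF A B ω) = 0 := by
    unfold FF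
    rw [eval₂_add, eval₂_mul, h1, h1, eval₂_C, coe_eval₂RingHom, eval₂_C, hlω, tau_mul hB, map_neg]
    exact add_neg_cancel _
  have h3 : ∀ s, AdjoinRoot.lift (eval₂RingHom l x) y h2 (io A B ω s) = algebraMap M[X][X] Q s := by
    intro s
    unfold io
    rw [RingHom.comp_apply, AdjoinRoot.lift_mk, h1]
  intro s s' h
  apply IsFractionRing.injective M[X][X] Q
  rw [← h3, ← h3, h]

end

/-- polynomials in the parameter -/
noncomputable def Th (A B : M[X][X]) (ω : K) : M[X][X][X] →+* AdjoinRoot (FF A B ω) :=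
  eval₂RingHom (io A B ω) (ka A B ω ω)

theorem Th_sg (g : M[X]) : Th A B ω (sg g) = ka A B ω (aeval ω g) := by
  unfold Th sg
  rw [coe_eval₂RingHom, eval₂_map, aeval_def, hom_eval₂]
  congr 1
  refine RingHom.ext fun a => ?_
  rw [RingHom.comp_apply, RingHom.comp_apply, RingHom.comp_apply]
  exact (ka_M a).symm

/-- **Clearing of denominators.** -/
theorem exists_Th (hL : Gen M ω) (z : AdjoinRoot (FF A B ω)) :
    ∃ (q : M[X]) (σ : M[X][X][X]), aeval ω q ≠ 0 ∧ ka A B ω (aeval ω q) * z = Th A B ω σ := by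
  have hadd : ∀ z z' : AdjoinRoot (FF A B ω),
      (∃ (q : M[X]) (σ : M[X][X][X]), aeval ω q ≠ 0 ∧ ka A B ω (aeval ω q) * z = Th A B ω σ) →
      (∃ (q : M[X]) (σ : M[X][X][X]), aeval ω q ≠ 0 ∧ ka A B ω (aeval ω q) * z' = Th A B ω σ) →
      ∃ (q : M[X]) (σ : M[X][X][X]), aeval ω q ≠ 0 ∧ ka A B ω (aeval ω q) * (z + z') = Th A B ω σ := by
    rintro z z' ⟨q, σ, hq, h⟩ ⟨q', σ', hq', h'⟩
    refine ⟨q * q', sg q' * σ + sg q * σ', by rw [map_mul]; exact mul_ne_zero hq hq', ?_⟩
    rw [map_mul, map_mul, map_add, map_mul, map_mul, Th_sg, Th_sg, ← h, ← h']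
    ring
  have hmul : ∀ z z' : AdjoinRoot (FF A B ω),
      (∃ (q : M[X]) (σ : M[X][X][X]), aeval ω q ≠ 0 ∧ ka A B ω (aeval ω q) * z = Th A B ω σ) →
      (∃ (q : M[X]) (σ : M[X][X][X]), aeval ω q ≠ 0 ∧ ka A B ω (aeval ω q) * z' = Th A B ω σ) →
      ∃ (q : M[X]) (σ : M[X][X][X]), aeval ω q ≠ 0 ∧ ka A B ω (aeval ω q) * (z * z') = Th A B ω σ := by
    rintro z z' ⟨q, σ, hq, h⟩ ⟨q', σ', hq', h'⟩
    refine ⟨q * q', σ * σ', by rw [map_mul]; exact mul_ne_zero hq hq', ?_⟩
    rw [map_mul, map_mul, map_mul, ← h, ← h']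
    ring
  have hio : ∀ s, ∃ (q : M[X]) (σ : M[X][X][X]), aeval ω q ≠ 0 ∧
      ka A B ω (aeval ω q) * io A B ω s = Th A B ω σ := by
    intro s
    refine ⟨1, C s, by rw [map_one]; exact one_ne_zero, ?_⟩
    rw [map_one, map_one, one_mul]
    unfold Th
    rw [coe_eval₂RingHom, eval₂_C]
  have hpow : ∀ (z : AdjoinRoot (FF A B ω)) (k : ℕ),
      (∃ (q : M[X]) (σ : M[X][X][X]), aeval ω q ≠ 0 ∧ ka A B ω (aeval ω q) * z = Th A B ω σ) →
      ∃ (q : M[X]) (σ : M[X][X][X]), aeval ω q ≠ 0 ∧ ka A B ω (aeval ω q) * z ^ k = Th A B ω σ := by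
    intro z k h
    induction k with
    | zero =>
      rw [pow_zero, ← map_one (io A B ω)]
      exact hio 1
    | succ k ih =>
      rw [pow_succ]
      exact hmul _ _ ih h
  obtain ⟨p, rfl⟩ := AdjoinRoot.mk_surjective z
  have hX : AdjoinRoot.mk (FF A B ω) X = io A B ω X := by
    unfold io up2
    rw [RingHom.comp_apply, coe_mapRingHom, Polynomial.map_X]
  have hCX : AdjoinRoot.mk (FF A B ω) (C X) = io A B ω (C X) := by
    unfold io up2
    rw [RingHom.comp_apply, coe_mapRingHom, Polynomial.map_C, coe_mapRingHom, Polynomial.map_X]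
  induction p using Polynomial.induction_on' with
  | add p q hp hq => rw [map_add]; exact hadd _ _ hp hq
  | monomial j p =>
    rw [← C_mul_X_pow_eq_monomial, map_mul, map_pow, hX]
    refine hmul _ _ ?_ (hpow _ _ (hio X))
    induction p using Polynomial.induction_on' with
    | add p q hp hq => rw [C_add, map_add]; exact hadd _ _ hp hq
    | monomial i c =>
      rw [← C_mul_X_pow_eq_monomial, C_mul, C_pow, map_mul, map_pow, hCX]
      refine hmul _ _ ?_ (hpow _ _ (hio _))
      obtain ⟨p, q, hq, h⟩ := hL c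
      refine ⟨q, sg p, hq, ?_⟩
      rw [Th_sg, ← h, map_mul]
      show ka A B ω (aeval ω q) * ka A B ω c = _
      ring

theorem exists_io (hL : Gen M ω) (z : AdjoinRoot (FF A B ω)) :
    ∃ (q : M[X]) (N : ℕ) (s : M[X][X]), aeval ω q ≠ 0 ∧
      ka A B ω (aeval ω q) * io A B ω B ^ N * z = io A B ω s := by
  obtain ⟨q, σ, hq, h⟩ := exists_Th hL z
  refine ⟨q, σ.natDegree, hm (-A) B σ.natDegree σ, hq, ?_⟩
  rw [hm_eval (io A B ω) (ka A B ω ω) (rel_io A B ω) le_rfl]
  have h' : ka A B ω (aeval ω q) * z = eval₂ (io A B ω) (ka A B ω ω) σ := h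
  rw [← h']
  ring

end

end Pool.Agent.K3h82.CP
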