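import Pool.Agent.R410.NG.Asy

/-! The number of the homomorphisms that kill one of finitely many primes. -/

set_option autoImplicit false
set_option linter.all false
set_option maxHeartbeats 400000

namespace Pool.Agent.K3h82.CP

open Polynomial Pool.Agent.R410.NG
open Pool.Agent.R410.LW (FG frac_of_closure)
open Pool.Agent.R410.BS (good_le hom_le)

section
variable {S₀ : Type} [CommRing S₀]

theorem fg_of [Algebra.FiniteType ℤ S₀] {L : Type} [Field L] (κ : S₀ →+* L)
    (h : Subfield.closure (Set.range κ) = ⊤) : FG L := by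
  classical
  obtain ⟨G, hG⟩ := (inferInstance : Algebra.FiniteType ℤ S₀).out
  refine ⟨G.image κ, ?_⟩
  rw [eq_top_iff, ← h, Subfield.closure_le]
  rintro _ ⟨z, rfl⟩
  have hz : z ∈ Algebra.adjoin ℤ (G : Set S₀) := by rw [hG]; trivial
  induction hz using Algebra.adjoin_induction with
  | mem x hx => exact Subfield.subset_closure (by rw [Finset.coe_image]; exact ⟨x, hx, rfl⟩)
  | algebraMap n =>
    rw [show algebraMap ℤ S₀ n = (n : S₀) from rfl, map_intCast]
    exact intCast_mem _ n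
  | add x y _ _ hx hy => rw [map_add]; exact add_mem hx hy
  | mul x y _ _ hx hy => rw [map_mul]; exact mul_mem hx hy

/-- the homomorphisms that factor -/
noncomputable def facE {L : Type} [CommRing L] (κ : S₀ →+* L) (F : Type) [Field F] :
    {φ : S₀ →+* F // RingHom.ker κ ≤ RingHom.ker φ} ≃ (κ.range →+* F) :=
  (Equiv.subtypeEquivRight fun φ => by rw [RingHom.ker_rangeRestrict]).trans
    (κ.rangeRestrict.liftOfSurjective κ.rangeRestrict_surjective)

theorem facE_apply {L : Type} [CommRing L] (κ : S₀ →+* L) (F : Type) [Field F]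
    (φ : {φ : S₀ →+* F // RingHom.ker κ ≤ RingHom.ker φ}) (z : S₀) :
    facE κ F φ (κ.rangeRestrict z) = φ.1 z := by
  unfold facE
  rw [Equiv.trans_apply]
  exact RingHom.liftOfRightInverse_comp_apply κ.rangeRestrict _
    (Function.rightInverse_surjInv κ.rangeRestrict_surjective) _ z

section
variable [Algebra.FiniteType ℤ S₀] {L : Type} [Field L] [CharZero L]

theorem asy_ker (κ : S₀ →+* L) (h : Subfield.closure (Set.range κ) = ⊤) {D : ℕ}
    (hD : Algebra.trdeg ℚ L = D) :
    Asy (fun F _ _ => (Nat.card {φ : S₀ →+* F // RingHom.ker κ ≤ RingHom.ker φ} : ℝ)) D 1 ∧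
    ∀ z : S₀, κ z ≠ 0 → ∃ (C : ℝ) (N : ℕ), 0 ≤ C ∧ N ≠ 0 ∧ ∀ (F : Type) [Field F] [Finite F],
      ((N : ℕ) : F) ≠ 0 →
        (Nat.card {φ : S₀ →+* F // RingHom.ker κ ≤ RingHom.ker φ ∧ φ z = 0} : ℝ) *
          √(Nat.card F : ℝ) ≤ C * (Nat.card F : ℝ) ^ D := by
  have hft : Algebra.FiniteType ℤ κ.range :=
    Algebra.FiniteType.of_surjective (κ.rangeRestrict.toIntAlgHom) κ.rangeRestrict_surjective
  have hinj : Function.Injective (algebraMap κ.range L) := Subtype.val_injective
  have hr : Set.range (algebraMap κ.range L) = Set.range κ := by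
    ext z
    constructor
    · rintro ⟨⟨_, ⟨y, rfl⟩⟩, rfl⟩
      exact ⟨y, rfl⟩
    · rintro ⟨y, rfl⟩
      exact ⟨⟨κ y, y, rfl⟩, rfl⟩
  have hfr : IsFractionRing κ.range L := frac_of_closure hinj (by rw [hr]; exact h)
  refine ⟨?_, ?_⟩
  · refine (asy_hom (fg_of κ h) hD κ.range).congr 1 one_ne_zero fun F _ _ _ => ?_
    exact_mod_cast Nat.card_congr (facE κ F)
  · intro z hz
    have hz' : κ.rangeRestrict z ≠ 0 := fun h0 => hz (congrArg Subtype.val h0)
    obtain ⟨C, N, hC, hN, h1⟩ := good_le hinj hD.le hz'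
    refine ⟨C, N, hC, hN, fun F _ _ hF => ?_⟩
    have h2 := (h1 F hF).2
    have h3 : Nat.card {φ : S₀ →+* F // RingHom.ker κ ≤ RingHom.ker φ ∧ φ z = 0} =
        Nat.card {φ : κ.range →+* F // φ (κ.rangeRestrict z) = 0} := by
      refine Nat.card_congr ((Equiv.subtypeSubtypeEquivSubtypeInter _ _).symm.trans
        ((facE κ F).subtypeEquiv fun φ => ?_))
      rw [facE_apply]
    rw [h3]
    have hq : (1 : ℝ) ≤ (Nat.card F : ℝ) := by exact_mod_cast Nat.card_pos
    have hs : √(Nat.card F : ℝ) ≤ (Nat.card F : ℝ) := Real.sqrt_le_iff.2 ⟨by linarith, by nlinarith⟩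
    exact (mul_le_mul_of_nonneg_left hs (Nat.cast_nonneg _)).trans h2

end

open Classical in
theorem asy_fam [Algebra.FiniteType ℤ S₀] {ι : Type} (L : ι → Type) [∀ i, Field (L i)]
    [∀ i, CharZero (L i)] (κ : ∀ i, S₀ →+* L i)
    (h : ∀ i, Subfield.closure (Set.range (κ i)) = ⊤) {D : ℕ} (hD : ∀ i, Algebra.trdeg ℚ (L i) = D)
    {u : S₀} (hu : ∀ i, κ i u ≠ 0)
    (hne : ∀ i j, i ≠ j → ¬ RingHom.ker (κ i) ≤ RingHom.ker (κ j)) (s : Finset ι) :
    Asy (fun F _ _ => (Nat.card {φ : S₀ →+* F // φ u ≠ 0 ∧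
      ∃ i ∈ s, RingHom.ker (κ i) ≤ RingHom.ker φ} : ℝ)) D s.card := by
  induction s using Finset.induction_on with
  | empty =>
    rw [Finset.card_empty, Nat.cast_zero]
    refine (Asy.zero D).congr 1 one_ne_zero fun F _ _ _ => ?_
    have : IsEmpty {φ : S₀ →+* F // φ u ≠ 0 ∧ ∃ i ∈ (∅ : Finset ι),
        RingHom.ker (κ i) ≤ RingHom.ker φ} := ⟨fun φ => by
      obtain ⟨i, hi, _⟩ := φ.2.2
      exact (Finset.notMem_empty i) hi⟩
    rw [Nat.card_of_isEmpty, Nat.cast_zero]
  | insert a s ha ih =>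
    obtain ⟨k1, k2⟩ := asy_ker (κ a) (h a) (hD a)
    -- an element killed by the others
    have hz : ∀ i : ι, i ∈ s → ∃ z, κ i z = 0 ∧ κ a z ≠ 0 := by
      intro i hi
      have h1 := hne i a (fun e => ha (e ▸ hi))
      rw [SetLike.le_def] at h1
      push Not at h1
      obtain ⟨z, hz1, hz2⟩ := h1
      exact ⟨z, hz1, hz2⟩
    choose! z hz1 hz2 using hz
    have hzp : κ a (∏ i ∈ s, z i) ≠ 0 := by
      rw [map_prod]
      exact Finset.prod_ne_zero_iff.2 fun i hi => hz2 i hi
    obtain ⟨C, N, hC, hN, h1⟩ := k2 (u * ∏ i ∈ s, z i) (by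
      rw [map_mul]
      exact mul_ne_zero (hu a) hzp)
    rw [Finset.card_insert_of_notMem ha, Nat.cast_succ]
    refine (ih.add k1).near ⟨C, N, hC, hN, fun F _ _ hF => ?_⟩
    refine le_trans (mul_le_mul_of_nonneg_right ?_ (Real.sqrt_nonneg _)) (h1 F hF)
    have hfin : Finite (S₀ →+* F) := inferInstance
    let _ := Fintype.ofFinite (S₀ →+* F)
    rw [Nat.card_eq_fintype_card, Nat.card_eq_fintype_card, Nat.card_eq_fintype_card,
      Nat.card_eq_fintype_card, Fintype.card_subtype, Fintype.card_subtype, Fintype.card_subtype,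
      Fintype.card_subtype]
    set T' := Finset.univ.filter fun φ : S₀ →+* F => φ u ≠ 0 ∧ ∃ i ∈ insert a s,
      RingHom.ker (κ i) ≤ RingHom.ker φ with hT'
    set T := Finset.univ.filter fun φ : S₀ →+* F => φ u ≠ 0 ∧ ∃ i ∈ s,
      RingHom.ker (κ i) ≤ RingHom.ker φ with hT
    set P := Finset.univ.filter fun φ : S₀ →+* F => RingHom.ker (κ a) ≤ RingHom.ker φ with hP
    set Z := Finset.univ.filter fun φ : S₀ →+* F => RingHom.ker (κ a) ≤ RingHom.ker φ ∧
      φ (u * ∏ i ∈ s, z i) = 0 with hZ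
    have t1 : T'.card ≤ T.card + P.card := by
      refine (Finset.card_le_card ?_).trans (Finset.card_union_le T P)
      intro φ hφ
      rw [hT', Finset.mem_filter] at hφ
      obtain ⟨-, hφ1, i, hi, hφ2⟩ := hφ
      rw [Finset.mem_union, hT, hP, Finset.mem_filter, Finset.mem_filter]
      rcases Finset.mem_insert.1 hi with rfl | hi
      · exact Or.inr ⟨Finset.mem_univ _, hφ2⟩
      · exact Or.inl ⟨Finset.mem_univ _, hφ1, i, hi, hφ2⟩
    have t2 : T.card + P.card ≤ T'.card + Z.card := by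
      have t3 : P.card ≤ (P \ Z).card + Z.card := by
        rw [← Finset.card_union_of_disjoint Finset.sdiff_disjoint]
        exact Finset.card_le_card (by rw [Finset.sdiff_union_self_eq_union]; exact Finset.subset_union_left)
      have t4 : Disjoint T (P \ Z) := by
        rw [Finset.disjoint_left]
        intro φ hφ hφ'
        rw [hT, Finset.mem_filter] at hφ
        obtain ⟨-, hφ1, i, hi, hφ2⟩ := hφ
        rw [Finset.mem_sdiff, hP, hZ, Finset.mem_filter, Finset.mem_filter] at hφ'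
        apply hφ'.2
        refine ⟨Finset.mem_univ _, hφ'.1.2, ?_⟩
        have h5 : φ (z i) = 0 := hφ2 (hz1 i hi)
        rw [map_mul, map_prod, Finset.prod_eq_zero hi h5, mul_zero]
      have t5 : (T ∪ P \ Z).card ≤ T'.card := by
        refine Finset.card_le_card ?_
        intro φ hφ
        rw [Finset.mem_union, Finset.mem_sdiff, hT, hP, hZ, Finset.mem_filter, Finset.mem_filter,
          Finset.mem_filter] at hφ
        rw [hT', Finset.mem_filter]
        rcases hφ with ⟨-, hφ1, i, hi, hφ2⟩ | ⟨⟨-, hφ1⟩, hφ2⟩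
        · exact ⟨Finset.mem_univ _, hφ1, i, Finset.mem_insert_of_mem hi, hφ2⟩
        · refine ⟨Finset.mem_univ _, ?_, a, Finset.mem_insert_self _ _, hφ1⟩
          intro h0
          apply hφ2
          refine ⟨Finset.mem_univ _, hφ1, ?_⟩
          rw [map_mul, h0, zero_mul]
      rw [Finset.card_union_of_disjoint t4] at t5
      omega
    rw [abs_le]
    have t1' : (T'.card : ℝ) ≤ T.card + P.card := by exact_mod_cast t1
    have t2' : (T.card : ℝ) + P.card ≤ T'.card + Z.card := by exact_mod_cast t2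
    constructor
    · linarith
    · have : (0 : ℝ) ≤ Z.card := Nat.cast_nonneg _
      linarith

end

end Pool.Agent.K3h82.CP
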