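import Pool.Agent.K3h82.CP.PtA
import Pool.Agent.K3h82.CP.Elm

/-! The zero sets of ideals in the plane over `M`. -/

set_option autoImplicit false
set_option linter.all false
set_option maxHeartbeats 400000

namespace Pool.Agent.K3h82.CP

open Polynomial Pool.Agent.R410.NG
open Pool.Agent.R410.LW (FG frac_of_closure trdeg_one)

section
variable {M : Type} [Field M]

/-- the model of the plane in the plane over the field -/
noncomputable def mp (A₀ M : Type) [CommRing A₀] [Field M] [Algebra A₀ M] : A₀[X][X] →+* M[X][X] :=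
  mapRingHom (mapRingHom (algebraMap A₀ M))

section
variable {A₀ : Type} [CommRing A₀] [Algebra A₀ M]

theorem mp_CC (a : A₀) : mp A₀ M (C (C a)) = C (C (algebraMap A₀ M a)) := by
  unfold mp
  rw [coe_mapRingHom, Polynomial.map_C, coe_mapRingHom, Polynomial.map_C]

theorem mp_CX : mp A₀ M (C X) = C X := by
  unfold mp
  rw [coe_mapRingHom, Polynomial.map_C, coe_mapRingHom, Polynomial.map_X]

theorem mp_X : mp A₀ M X = X := by
  unfold mp
  rw [coe_mapRingHom, Polynomial.map_X]

theorem mp_inj [IsDomain A₀] [IsFractionRing A₀ M] : Function.Injective (mp A₀ M) := by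
  unfold mp
  rw [coe_mapRingHom]
  apply Polynomial.map_injective
  rw [coe_mapRingHom]
  exact Polynomial.map_injective _ (IsFractionRing.injective A₀ M)

theorem ind_xy {Q : M[X][X] → Prop} (h1 : ∀ a, Q (C (C a))) (h2 : Q (C X)) (h3 : Q X)
    (h4 : ∀ a b, Q a → Q b → Q (a + b)) (h5 : ∀ a b, Q a → Q b → Q (a * b)) (s : M[X][X]) : Q s := by
  have hp : ∀ (a : M[X][X]) (j : ℕ), Q a → Q (a ^ j) := by
    intro a j ha
    induction j with
    | zero =>
      rw [pow_zero]
      have := h1 1
      rwa [C_1, C_1] at this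
    | succ j ih => rw [pow_succ]; exact h5 _ _ ih ha
  induction s using Polynomial.induction_on' with
  | add p q hp hq => exact h4 _ _ hp hq
  | monomial j p =>
    rw [← C_mul_X_pow_eq_monomial]
    refine h5 _ _ ?_ (hp _ _ h3)
    induction p using Polynomial.induction_on' with
    | add p q hp hq => rw [C_add]; exact h4 _ _ hp hq
    | monomial i a =>
      rw [← C_mul_X_pow_eq_monomial, C_mul, C_pow]
      exact h5 _ _ (h1 a) (hp _ _ h2)

/-- common denominators -/
theorem den [IsDomain A₀] [IsFractionRing A₀ M] (s : M[X][X]) :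
    ∃ (c : A₀) (t : A₀[X][X]), c ≠ 0 ∧ mp A₀ M t = C (C (algebraMap A₀ M c)) * s := by
  induction s using ind_xy with
  | h1 a =>
    obtain ⟨b, c, hc, rfl⟩ := IsFractionRing.div_surjective (A := A₀) a
    refine ⟨c, C (C b), nonZeroDivisors.ne_zero hc, ?_⟩
    rw [mp_CC, ← C_mul, ← C_mul, mul_div_cancel₀]
    intro h0
    exact nonZeroDivisors.ne_zero hc
      ((map_eq_zero_iff _ (IsFractionRing.injective A₀ M)).1 h0)
  | h2 => exact ⟨1, C X, one_ne_zero, by rw [mp_CX, map_one, C_1, C_1, one_mul]⟩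
  | h3 => exact ⟨1, X, one_ne_zero, by rw [mp_X, map_one, C_1, C_1, one_mul]⟩
  | h4 a b ha hb =>
    obtain ⟨c, t, hc, ht⟩ := ha
    obtain ⟨c', t', hc', ht'⟩ := hb
    refine ⟨c * c', C (C c') * t + C (C c) * t', mul_ne_zero hc hc', ?_⟩
    rw [map_add, map_mul, map_mul, ht, ht', mp_CC, mp_CC, map_mul, C_mul, C_mul]
    ring
  | h5 a b ha hb =>
    obtain ⟨c, t, hc, ht⟩ := ha
    obtain ⟨c', t', hc', ht'⟩ := hb
    refine ⟨c * c', t * t', mul_ne_zero hc hc', ?_⟩
    rw [map_mul, ht, ht', map_mul, C_mul, C_mul]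
    ring

theorem spread1 [IsDomain A₀] [IsFractionRing A₀ M] (I : Ideal A₀[X][X]) {z : A₀[X][X]}
    (hz : mp A₀ M z ∈ I.map (mp A₀ M)) : ∃ c : A₀, c ≠ 0 ∧ C (C c) * z ∈ I := by
  have h1 : ∀ t ∈ I.map (mp A₀ M), ∃ (c : A₀) (t₀ : A₀[X][X]), c ≠ 0 ∧ t₀ ∈ I ∧
      mp A₀ M t₀ = C (C (algebraMap A₀ M c)) * t := by
    intro t ht
    unfold Ideal.map at ht
    induction ht using Submodule.span_induction with
    | mem t ht =>
      obtain ⟨t₀, h0, rfl⟩ := ht
      exact ⟨1, t₀, one_ne_zero, h0, by rw [map_one, C_1, C_1, one_mul]⟩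
    | zero => exact ⟨1, 0, one_ne_zero, I.zero_mem, by rw [map_zero, mul_zero]⟩
    | add a b _ _ ha hb =>
      obtain ⟨c, t, hc, ht0, ht⟩ := ha
      obtain ⟨c', t', hc', ht0', ht'⟩ := hb
      refine ⟨c * c', C (C c') * t + C (C c) * t', mul_ne_zero hc hc',
        I.add_mem (I.mul_mem_left _ ht0) (I.mul_mem_left _ ht0'), ?_⟩
      rw [map_add, map_mul, map_mul, ht, ht', mp_CC, mp_CC, map_mul, C_mul, C_mul]
      ring
    | smul a b _ hb =>
      obtain ⟨c, t, hc, ht⟩ := den (A₀ := A₀) a
      obtain ⟨c', t', hc', ht0', ht'⟩ := hb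
      refine ⟨c * c', t * t', mul_ne_zero hc hc', I.mul_mem_left _ ht0', ?_⟩
      rw [map_mul, ht, ht', map_mul, C_mul, C_mul, smul_eq_mul]
      ring
  obtain ⟨c, t, hc, ht, h2⟩ := h1 _ hz
  refine ⟨c, hc, ?_⟩
  rw [← mp_CC, ← map_mul] at h2
  rw [← mp_inj h2]
  exact ht

theorem spread [IsDomain A₀] [IsFractionRing A₀ M] (I J : Ideal A₀[X][X]) (hJ : J.FG)
    (h : ∀ z ∈ J, mp A₀ M z ∈ I.map (mp A₀ M)) : ∃ c : A₀, c ≠ 0 ∧ ∀ z ∈ J, C (C c) * z ∈ I := by
  classical
  obtain ⟨G, hG⟩ := hJ
  choose! c hc hc' using fun z (hz : z ∈ G) => spread1 I (h z (hG ▸ Ideal.subset_span hz))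
  refine ⟨∏ z ∈ G, c z, Finset.prod_ne_zero_iff.2 fun z hz => hc z hz, ?_⟩
  intro z hz
  rw [← hG] at hz
  induction hz using Submodule.span_induction with
  | mem z hz =>
    have hz' : z ∈ G := hz
    rw [← Finset.mul_prod_erase G c hz', C_mul, C_mul, mul_right_comm]
    exact I.mul_mem_right _ (hc' z hz')
  | zero => rw [mul_zero]; exact I.zero_mem
  | add a b _ _ ha hb => rw [mul_add]; exact I.add_mem ha hb
  | smul a b _ hb => rw [smul_eq_mul, mul_left_comm]; exact I.mul_mem_left _ hb

end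

section
variable {L : Type} [Field L] [Algebra M L] (χ : M[X][X] →+* L)
  (hχ : ∀ a : M, χ (C (C a)) = algebraMap M L a)
include hχ

theorem sub_top (hcl : Subfield.closure (Set.range χ) = ⊤) (Z : Subfield L)
    (h1 : ∀ a : M, algebraMap M L a ∈ Z) (h2 : χ (C X) ∈ Z) (h3 : χ X ∈ Z) : ∀ z : L, z ∈ Z := by
  have h4 : Subfield.closure (Set.range χ) ≤ Z := by
    rw [Subfield.closure_le]
    rintro _ ⟨s, rfl⟩
    show χ s ∈ Z
    induction s using ind_xy with
    | h1 a => rw [hχ]; exact h1 a
    | h2 => exact h2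
    | h3 => exact h3
    | h4 a b ha hb => rw [map_add]; exact add_mem ha hb
    | h5 a b ha hb => rw [map_mul]; exact mul_mem ha hb
  rw [hcl] at h4
  exact fun z => h4 trivial

theorem clos {A₀ : Type} [CommRing A₀] [IsDomain A₀] [Algebra A₀ M] [IsFractionRing A₀ M]
    (hcl : Subfield.closure (Set.range χ) = ⊤) :
    Subfield.closure (Set.range (χ.comp (mp A₀ M))) = ⊤ := by
  rw [eq_top_iff]
  intro z _
  refine sub_top χ hχ hcl _ ?_ ?_ ?_ z
  · intro a
    obtain ⟨b, c, hc, rfl⟩ := IsFractionRing.div_surjective (A := A₀) a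
    rw [map_div₀]
    refine div_mem (Subfield.subset_closure ⟨C (C b), ?_⟩) (Subfield.subset_closure ⟨C (C c), ?_⟩)
    · rw [RingHom.comp_apply, mp_CC, hχ]
    · rw [RingHom.comp_apply, mp_CC, hχ]
  · exact Subfield.subset_closure ⟨C X, by rw [RingHom.comp_apply, mp_CX]⟩
  · exact Subfield.subset_closure ⟨X, by rw [RingHom.comp_apply, mp_X]⟩

/-- closed points -/
theorem alg_pt (hcl : Subfield.closure (Set.range χ) = ⊤) (h2 : IsAlgebraic M (χ (C X)))
    (h3 : IsAlgebraic M (χ X)) : Algebra.IsAlgebraic M L := by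
  refine ⟨fun z => ?_⟩
  have := sub_top χ hχ hcl (algebraicClosure M L).toSubfield
    (fun a => (algebraicClosure M L).algebraMap_mem a) (mem_algebraicClosure_iff.2 h2)
    (mem_algebraicClosure_iff.2 h3) z
  exact mem_algebraicClosure_iff.1 this

/-- curves -/
theorem tr_one (hcl : Subfield.closure (Set.range χ) = ⊤) {x : L} (hx : Transcendental M x)
    (h2 : IsAlgebraic (IntermediateField.adjoin M {x}) (χ (C X)))
    (h3 : IsAlgebraic (IntermediateField.adjoin M {x}) (χ X)) : Algebra.trdeg M L = 1 := by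
  have h : Algebra.IsAlgebraic (IntermediateField.adjoin M {x}) L := by
    refine ⟨fun z => ?_⟩
    have := sub_top χ hχ hcl (algebraicClosure (IntermediateField.adjoin M {x}) L).toSubfield
      (fun a => by
        have : algebraMap M L a = algebraMap (IntermediateField.adjoin M {x}) L
          (algebraMap M (IntermediateField.adjoin M {x}) a) := rfl
        rw [this]
        exact (algebraicClosure (IntermediateField.adjoin M {x}) L).algebraMap_mem _)
      (mem_algebraicClosure_iff.2 h2) (mem_algebraicClosure_iff.2 h3) z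
    exact mem_algebraicClosure_iff.1 this
  exact trdeg_one x hx

theorem chi_C (p : M[X]) : χ (C p) = aeval (χ (C X)) p := by
  have e : χ.comp C = (aeval (χ (C X)) : M[X] →ₐ[M] L).toRingHom := by
    apply Polynomial.ringHom_ext
    · intro a
      rw [RingHom.comp_apply, hχ]
      show _ = aeval _ (C a)
      rw [aeval_C]
    · show _ = aeval _ X
      rw [aeval_X]
      rfl
  exact congrArg (fun φ => φ p) e

theorem chi_map (p : M[X]) : χ (p.map C) = aeval (χ X) p := by
  have e' : χ.comp (mapRingHom C) = (aeval (χ X) : M[X] →ₐ[M] L).toRingHom := by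
    apply Polynomial.ringHom_ext
    · intro a
      rw [RingHom.comp_apply, coe_mapRingHom, Polynomial.map_C, hχ]
      show _ = aeval _ (C a)
      rw [aeval_C]
    · rw [RingHom.comp_apply, coe_mapRingHom, Polynomial.map_X]
      show _ = aeval _ X
      rw [aeval_X]
  exact congrArg (fun φ => φ p) e'

theorem trdeg_curve (hcl : Subfield.closure (Set.range χ) = ⊤) {π : M[X][X]} (hπ : Irreducible π)
    (hk : RingHom.ker χ = Ideal.span {π}) : Algebra.trdeg M L = 1 := by
  have hπ0 : χ π = 0 := by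
    have : π ∈ RingHom.ker χ := by rw [hk]; exact Ideal.mem_span_singleton_self π
    exact this
  have hdv : ∀ s, χ s = 0 → π ∣ s := by
    intro s hs
    have : s ∈ RingHom.ker χ := hs
    rwa [hk, Ideal.mem_span_singleton] at this
  by_cases hX : IsAlgebraic M (χ (C X))
  · -- then `χ X` is transcendental
    have hY : Transcendental M (χ X) := by
      rintro ⟨q, hq, hq0⟩
      obtain ⟨p, hp, hp0⟩ := hX
      have h1 : π ∣ C p := hdv _ (by rw [chi_C χ hχ]; exact hp0)
      have h2 : π ∣ q.map C := hdv _ (by rw [chi_map χ hχ]; exact hq0)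
      have h3 : π.natDegree = 0 := by
        have := natDegree_le_of_dvd h1 (C_ne_zero.2 hp)
        rw [natDegree_C] at this
        omega
      obtain ⟨π₀, rfl⟩ : ∃ π₀, π = C π₀ := ⟨_, eq_C_of_natDegree_eq_zero h3⟩
      rw [C_dvd_iff_dvd_coeff] at h2
      have h4 := h2 q.natDegree
      rw [coeff_map, coeff_natDegree] at h4
      have h5 : IsUnit (C q.leadingCoeff : M[X]) :=
        isUnit_C.2 (isUnit_iff_ne_zero.2 (leadingCoeff_ne_zero.2 hq))
      exact hπ.1 (isUnit_C.2 (isUnit_of_dvd_unit h4 h5))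
    refine tr_one χ hχ hcl hY (hX.tower_top _) ?_
    have : χ X = algebraMap (IntermediateField.adjoin M {χ X}) L
      ⟨χ X, IntermediateField.mem_adjoin_simple_self M (χ X)⟩ := rfl
    conv_rhs => rw [this]
    exact isAlgebraic_algebraMap _
  · -- `χ (C X)` is transcendental
    have hx : Transcendental M (χ (C X)) := hX
    set E := IntermediateField.adjoin M {χ (C X)} with hE
    let g : E := ⟨χ (C X), IntermediateField.mem_adjoin_simple_self M (χ (C X))⟩
    let ev : M[X] →+* E := (aeval g : M[X] →ₐ[M] E)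
    have e : (algebraMap E L).comp ev = χ.comp C := by
      apply Polynomial.ringHom_ext
      · intro a
        show algebraMap E L (aeval g (C a)) = χ (C (C a))
        rw [aeval_C, hχ]
        rfl
      · show algebraMap E L (aeval g X) = χ (C X)
        rw [aeval_X]
        rfl
    have e1 : Function.Injective ev := by
      rw [injective_iff_map_eq_zero]
      intro p hp
      have h1 := congrArg (fun φ => φ p) e
      simp only [RingHom.comp_apply, hp, map_zero] at h1
      by_contra h2
      exact hx ⟨p, h2, by rw [← chi_C χ hχ]; exact h1.symm⟩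
    refine tr_one χ hχ hcl hx ?_ ?_
    · have : χ (C X) = algebraMap E L g := rfl
      rw [this]
      exact isAlgebraic_algebraMap _
    · refine ⟨π.map ev, (Polynomial.map_ne_zero_iff e1).2 hπ.ne_zero, ?_⟩
      rw [aeval_def, eval₂_map, e]
      have e3 : eval₂RingHom (χ.comp C) (χ X) = χ := by
        apply Polynomial.ringHom_ext
        · intro p
          rw [coe_eval₂RingHom, eval₂_C]
          rfl
        · rw [coe_eval₂RingHom, eval₂_X]
      have := congrArg (fun φ => φ π) e3
      simp only [coe_eval₂RingHom] at this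
      rw [this, hπ0]

end

end

end Pool.Agent.K3h82.CP
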