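import Mathlib

/-! Curves with one place at infinity: the weights. -/

set_option autoImplicit false
set_option linter.all false

namespace Pool.Agent.K3h82.CP

open Polynomial

section
variable {R : Type} [CommRing R] (n m : ℕ)

/-- `X ↦ T ^ n`, `Y ↦ Z T ^ m` -/
noncomputable def Ph : R[X][X] →+* R[X][X] :=
  eval₂RingHom (eval₂RingHom (C.comp C) (X ^ n)) (C X * X ^ m)

theorem Ph_mono (i j : ℕ) (a : R) : Ph n m (monomial j (monomial i a)) =
    C (C a * X ^ j) * X ^ (n * i + m * j) := by
  unfold Ph
  rw [coe_eval₂RingHom, eval₂_monomial, coe_eval₂RingHom, eval₂_monomial, RingHom.comp_apply,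
    C_mul, C_pow]
  ring

variable {n m}

theorem coeff_Ph (hn : 0 < n) (p : R[X][X]) (k j : ℕ) : ((Ph n m p).coeff k).coeff j =
    if m * j ≤ k ∧ n ∣ k - m * j then (p.coeff j).coeff ((k - m * j) / n) else 0 := by
  induction p using Polynomial.induction_on' with
  | add p q hp hq =>
    rw [map_add, coeff_add, coeff_add, hp, hq, coeff_add, coeff_add]
    split_ifs
    · rfl
    · rw [add_zero]
  | monomial j' q =>
    induction q using Polynomial.induction_on' with
    | add p q hp hq =>
      rw [(monomial j').map_add, (Ph n m).map_add, coeff_add, coeff_add, hp, hq, coeff_add, coeff_add]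
      split_ifs
      · rfl
      · rw [add_zero]
    | monomial i a =>
      rw [Ph_mono, coeff_C_mul_X_pow, coeff_monomial]
      by_cases h : k = n * i + m * j'
      · rw [if_pos h, coeff_C_mul_X_pow]
        by_cases hj : j = j'
        · subst hj
          rw [if_pos rfl, if_pos rfl]
          have h1 : k - m * j = n * i := by omega
          rw [if_pos ⟨by omega, by rw [h1]; exact dvd_mul_right _ _⟩, h1,
            Nat.mul_div_cancel_left _ hn, coeff_monomial, if_pos rfl]
        · rw [if_neg hj, if_neg (Ne.symm hj), coeff_zero]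
          split_ifs <;> rfl
      · rw [if_neg h, coeff_zero]
        by_cases hj : j' = j
        · subst hj
          rw [if_pos rfl]
          split_ifs with h2
          · rw [coeff_monomial, if_neg]
            intro h3
            apply h
            obtain ⟨h4, t, h5⟩ := h2
            rw [h5, Nat.mul_div_cancel_left _ hn] at h3
            rw [h3]
            omega
          · rfl
        · rw [if_neg hj]
          split_ifs <;> simp

theorem coeff_Ph' (hn : 0 < n) (p : R[X][X]) (i j : ℕ) :
    ((Ph n m p).coeff (n * i + m * j)).coeff j = (p.coeff j).coeff i := by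
  rw [coeff_Ph hn, if_pos]
  · congr 1
    rw [Nat.add_sub_cancel, Nat.mul_div_cancel_left _ hn]
  · rw [Nat.add_sub_cancel]
    exact ⟨Nat.le_add_left _ _, dvd_mul_right _ _⟩

theorem Ph_ne (hn : 0 < n) {p : R[X][X]} (hp : p ≠ 0) : Ph n m p ≠ 0 := by
  intro h
  apply hp
  ext j i
  rw [← coeff_Ph' hn (m := m), h]
  simp

/-- the weight -/
noncomputable def wd (n m : ℕ) (p : R[X][X]) : ℕ := (Ph n m p).natDegree

theorem wd_le (hn : 0 < n) {p : R[X][X]} {c : ℕ}
    (h : ∀ j, p.coeff j ≠ 0 → n * (p.coeff j).natDegree + m * j ≤ c) : wd n m p ≤ c := by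
  unfold wd
  rw [natDegree_le_iff_coeff_eq_zero]
  intro k hk
  ext j
  rw [coeff_Ph hn, coeff_zero]
  split_ifs with h1
  · obtain ⟨h1, t, h2⟩ := h1
    rw [h2, Nat.mul_div_cancel_left _ hn]
    by_cases h3 : p.coeff j = 0
    · rw [h3, coeff_zero]
    · apply coeff_eq_zero_of_natDegree_lt
      have h4 := h j h3
      by_contra h5
      push Not at h5
      have h6 := Nat.mul_le_mul_left n h5
      omega
  · rfl

theorem le_wd (hn : 0 < n) {p : R[X][X]} {j : ℕ} (hj : p.coeff j ≠ 0) :
    n * (p.coeff j).natDegree + m * j ≤ wd n m p := by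
  unfold wd
  apply le_natDegree_of_ne_zero
  intro h
  have h1 := coeff_Ph' hn p (p.coeff j).natDegree j (m := m)
  rw [h, coeff_zero] at h1
  exact hj (leadingCoeff_eq_zero.1 h1.symm)

theorem wd_mul [IsDomain R] (hn : 0 < n) {p q : R[X][X]} (hp : p ≠ 0) (hq : q ≠ 0) :
    wd n m (p * q) = wd n m p + wd n m q := by
  unfold wd
  rw [map_mul, natDegree_mul (Ph_ne hn hp) (Ph_ne hn hq)]

/-- the value at `1` of the form of highest weight -/
noncomputable def tp (n m : ℕ) (p : R[X][X]) : R := (Ph n m p).leadingCoeff.eval 1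

theorem tp_mul [IsDomain R] (p q : R[X][X]) : tp n m (p * q) = tp n m p * tp n m q := by
  unfold tp
  rw [map_mul, leadingCoeff_mul, eval_mul]

theorem tp_add {p q : R[X][X]} (h : wd n m p < wd n m q) : tp n m (p + q) = tp n m q := by
  unfold tp wd at *
  rw [map_add, leadingCoeff_add_of_degree_lt]
  exact degree_lt_degree h

/-- the reduced polynomials -/
theorem tp_red (hn : 0 < n) (hc : n.Coprime m) {p : R[X][X]} (hp : p ≠ 0) (hd : p.natDegree < n) :
    tp n m p ≠ 0 := by
  unfold tp
  set d := (Ph n m p).natDegree with hdd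
  have h1 : (Ph n m p).coeff d ≠ 0 := leadingCoeff_ne_zero.2 (Ph_ne hn hp)
  have h2 : ∀ j, ((Ph n m p).coeff d).coeff j ≠ 0 → j < n ∧ m * j ≤ d ∧ n ∣ d - m * j := by
    intro j hj
    rw [coeff_Ph hn] at hj
    split_ifs at hj with h
    · refine ⟨?_, h⟩
      by_contra h3
      apply hj
      rw [coeff_eq_zero_of_natDegree_lt (lt_of_lt_of_le hd (not_lt.1 h3)), coeff_zero]
    · exact (hj rfl).elim
  obtain ⟨j, hj⟩ : ∃ j, ((Ph n m p).coeff d).coeff j ≠ 0 := by
    by_contra h
    push Not at h
    exact h1 (Polynomial.ext fun j => by rw [h j, coeff_zero])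
  have h3 : ∀ j', ((Ph n m p).coeff d).coeff j' ≠ 0 → j' = j := by
    intro j' hj'
    obtain ⟨a1, a2, a3⟩ := h2 j hj
    obtain ⟨b1, b2, b3⟩ := h2 j' hj'
    rcases le_total j j' with h | h
    · have h4 : n ∣ m * (j' - j) := by
        have : m * (j' - j) = (d - m * j) - (d - m * j') := by
          rw [Nat.mul_sub]
          have := Nat.mul_le_mul_left m h
          omega
        rw [this]
        exact Nat.dvd_sub a3 b3
      have h5 := hc.dvd_of_dvd_mul_left h4
      have h6 := Nat.eq_zero_of_dvd_of_lt h5 (by omega)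
      omega
    · have h4 : n ∣ m * (j - j') := by
        have : m * (j - j') = (d - m * j') - (d - m * j) := by
          rw [Nat.mul_sub]
          have := Nat.mul_le_mul_left m h
          omega
        rw [this]
        exact Nat.dvd_sub b3 a3
      have h5 := hc.dvd_of_dvd_mul_left h4
      have h6 := Nat.eq_zero_of_dvd_of_lt h5 (by omega)
      omega
  have h4 : (Ph n m p).leadingCoeff = C (((Ph n m p).coeff d).coeff j) * X ^ j := by
    show (Ph n m p).coeff d = _
    ext j'
    rw [coeff_C_mul_X_pow]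
    split_ifs with h
    · rw [h]
    · by_contra h5
      exact h (h3 j' h5)
  rw [h4, eval_mul, eval_C, eval_pow, eval_X, one_pow, mul_one]
  exact hj

/-- `A = Y ^ n + ... - X ^ m - ...` -/
structure IsCab (n m : ℕ) (A : R[X][X]) : Prop where
  monic : A.Monic
  deg : A.natDegree = n
  lead : (-A.coeff 0).Monic
  deg0 : (A.coeff 0).natDegree = m
  wt : ∀ j, 0 < j → j < n → A.coeff j ≠ 0 → n * (A.coeff j).natDegree + m * j < n * m

/-- `B` has only terms of smaller weight -/
def IsLow (n m : ℕ) (B : R[X][X]) : Prop :=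
  ∀ j, B.coeff j ≠ 0 → n * (B.coeff j).natDegree + m * j < n * m

theorem IsCab.map [Nontrivial R] {S : Type} [CommRing S] [Nontrivial S] {A : R[X][X]} (h : IsCab n m A)
    (φ : R →+* S) : IsCab n m (A.map (mapRingHom φ)) where
  monic := h.monic.map _
  deg := by rw [h.monic.natDegree_map, h.deg]
  lead := by
    have h1 := h.lead.map φ
    rwa [Polynomial.map_neg, ← coe_mapRingHom, ← coeff_map] at h1
  deg0 := by
    have h1 := h.lead.natDegree_map φ
    rw [Polynomial.map_neg, natDegree_neg, natDegree_neg, h.deg0] at h1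
    rw [coeff_map, coe_mapRingHom, h1]
  wt := fun j h0 hj h1 => by
    rw [coeff_map, coe_mapRingHom] at h1 ⊢
    have h2 : A.coeff j ≠ 0 := by
      intro h3
      rw [h3, Polynomial.map_zero] at h1
      exact h1 rfl
    have h3 := h.wt j h0 hj h2
    have h4 : ((A.coeff j).map φ).natDegree ≤ (A.coeff j).natDegree := natDegree_map_le
    have := Nat.mul_le_mul_left n h4
    omega

theorem IsLow.map {S : Type} [CommRing S] {B : R[X][X]} (h : IsLow n m B) (φ : R →+* S) :
    IsLow n m (B.map (mapRingHom φ)) := by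
  intro j h1
  rw [coeff_map, coe_mapRingHom] at h1 ⊢
  have h2 : B.coeff j ≠ 0 := by
    intro h3
    rw [h3, Polynomial.map_zero] at h1
    exact h1 rfl
  have h3 := h j h2
  have h4 : ((B.coeff j).map φ).natDegree ≤ (B.coeff j).natDegree := natDegree_map_le
  have := Nat.mul_le_mul_left n h4
  omega

theorem IsLow.deg_lt [Nontrivial R] (hn : 0 < n) {B : R[X][X]} (h : IsLow n m B) (hm : 0 < m) :
    B.natDegree < n := by
  by_cases hB : B = 0
  · rw [hB, natDegree_zero]
    exact hn
  · have h1 := h B.natDegree (by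
      show B.leadingCoeff ≠ 0
      exact leadingCoeff_ne_zero.2 hB)
    by_contra h2
    have := Nat.mul_le_mul_left m (not_lt.1 h2)
    have e : m * n = n * m := mul_comm _ _
    omega

/-- `A + w B` -/
theorem IsCab.add_low [Nontrivial R] (hn : 0 < n) (hm : 0 < m) {A B : R[X][X]} (h : IsCab n m A)
    (hB : IsLow n m B) : IsCab n m (A + B) := by
  have hBn := hB.deg_lt hn hm
  have hA0 : A ≠ 0 := h.monic.ne_zero
  have h0 : (B.coeff 0).natDegree < m := by
    by_cases h1 : B.coeff 0 = 0
    · rw [h1, natDegree_zero]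
      exact hm
    · have h2 := hB 0 h1
      rw [mul_zero, add_zero] at h2
      exact Nat.lt_of_mul_lt_mul_left h2
  have hdeg : B.degree < A.degree := by
    rw [degree_eq_natDegree hA0, h.deg]
    exact (degree_le_natDegree).trans_lt (by exact_mod_cast hBn)
  have hA00 : A.coeff 0 ≠ 0 := by
    intro h1
    have h2 := h.lead
    rw [h1, neg_zero] at h2
    exact h2.ne_zero rfl
  have hdeg0 : (B.coeff 0).degree < (A.coeff 0).degree := by
    rw [degree_eq_natDegree hA00, h.deg0]
    exact (degree_le_natDegree).trans_lt (by exact_mod_cast h0)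
  refine ⟨h.monic.add_of_left hdeg, ?_, ?_, ?_, ?_⟩
  · rw [natDegree_add_eq_left_of_degree_lt hdeg, h.deg]
  · rw [coeff_add, neg_add]
    refine h.lead.add_of_left ?_
    rwa [degree_neg, degree_neg]
  · rw [coeff_add, natDegree_add_eq_left_of_degree_lt hdeg0, h.deg0]
  · intro j hj hjn h1
    rw [coeff_add] at h1 ⊢
    have e2 : ∀ x : R[X], (x ≠ 0 → n * x.natDegree + m * j < n * m) →
        n * x.natDegree + m * j < n * m := by
      intro x hx
      by_cases h2 : x = 0
      · rw [h2, natDegree_zero, mul_zero, zero_add, mul_comm n m]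
        exact Nat.mul_lt_mul_of_pos_left hjn hm
      · exact hx h2
    have h3 := e2 _ (h.wt j hj hjn)
    have h4 := e2 _ (hB j)
    have h5 := natDegree_add_le (A.coeff j) (B.coeff j)
    rcases le_total (A.coeff j).natDegree (B.coeff j).natDegree with h6 | h6
    · rw [max_eq_right h6] at h5
      have := Nat.mul_le_mul_left n h5
      omega
    · rw [max_eq_left h6] at h5
      have := Nat.mul_le_mul_left n h5
      omega

theorem IsLow.C_mul {B : R[X][X]} (h : IsLow n m B) (c : R) : IsLow n m (C (C c) * B) := by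
  intro j h1
  rw [coeff_C_mul] at h1 ⊢
  have h2 : B.coeff j ≠ 0 := by
    intro h3
    rw [h3, mul_zero] at h1
    exact h1 rfl
  have h3 := h j h2
  have h4 := natDegree_C_mul_le c (B.coeff j)
  have := Nat.mul_le_mul_left n h4
  omega

/-- the form of highest weight of `A` -/
theorem IsCab.top [Nontrivial R] (hn : 0 < n) (hm : 0 < m) {A : R[X][X]} (h : IsCab n m A) :
    wd n m A = n * m ∧ tp n m A = 0 := by
  have hcn : A.coeff n = 1 := by
    have := h.monic
    rw [Monic, leadingCoeff, h.deg] at this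
    exact this
  have h1 : wd n m A = n * m := by
    apply le_antisymm
    · refine wd_le hn fun j hj => ?_
      rcases Nat.eq_zero_or_pos j with rfl | h0
      · rw [h.deg0, mul_zero, add_zero]
      · rcases lt_trichotomy j n with h2 | h2 | h2
        · exact (h.wt j h0 h2 hj).le
        · rw [h2, hcn, natDegree_one, mul_zero, zero_add, mul_comm]
        · exact (hj (coeff_eq_zero_of_natDegree_lt (by rw [h.deg]; exact h2))).elim
    · have h2 := le_wd hn (m := m) (p := A) (j := n) (by rw [hcn]; exact one_ne_zero)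
      rw [hcn, natDegree_one, mul_zero, zero_add, mul_comm] at h2
      exact h2
  refine ⟨h1, ?_⟩
  unfold tp
  have h2 : (Ph n m A).leadingCoeff = X ^ n - 1 := by
    show (Ph n m A).coeff (wd n m A) = _
    rw [h1]
    ext j
    rw [coeff_Ph hn, coeff_sub, coeff_X_pow, coeff_one]
    rcases Nat.eq_zero_or_pos j with rfl | h0
    · rw [mul_zero, Nat.sub_zero, if_pos ⟨Nat.zero_le _, dvd_mul_right _ _⟩,
        Nat.mul_div_cancel_left _ hn, if_neg hn.ne, if_pos rfl]
      have h3 := h.lead
      rw [Monic, leadingCoeff, natDegree_neg, h.deg0, coeff_neg] at h3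
      rw [zero_sub, ← h3, neg_neg]
    · rcases lt_trichotomy j n with h2 | h2 | h2
      · rw [if_neg h2.ne, if_neg h0.ne', sub_zero]
        split_ifs with h3
        · obtain ⟨h3, t, h4⟩ := h3
          rw [h4, Nat.mul_div_cancel_left _ hn]
          by_cases h5 : A.coeff j = 0
          · rw [h5, coeff_zero]
          · apply coeff_eq_zero_of_natDegree_lt
            have h6 := h.wt j h0 h2 h5
            by_contra h7
            have := Nat.mul_le_mul_left n (not_lt.1 h7)
            omega
        · rfl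
      · subst h2
        rw [if_pos rfl, if_neg h0.ne', sub_zero]
        have e : j * m - m * j = 0 := by rw [mul_comm, Nat.sub_self]
        rw [e, if_pos ⟨by rw [mul_comm], dvd_zero _⟩, Nat.zero_div, hcn, coeff_one_zero]
      · rw [if_neg h2.ne', if_neg h0.ne', sub_zero]
        split_ifs
        · rw [coeff_eq_zero_of_natDegree_lt (p := A) (by rw [h.deg]; exact h2), coeff_zero]
        · rfl
  rw [h2]
  simp

/-- **The products of reduced polynomials.** -/
theorem red_mul [IsDomain R] (hn : 0 < n) (hm : 0 < m) (hc : n.Coprime m) {F : R[X][X]}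
    (hF : IsCab n m F) {r s h : R[X][X]} {e : R} (hr : r.natDegree < n) (hs : s.natDegree < n)
    (hr0 : r ≠ 0) (hs0 : s ≠ 0) (heq : r * s = C (C e) + F * h) : h = 0 := by
  by_contra hh
  obtain ⟨h1, h2⟩ := hF.top hn hm
  have h3 : wd n m (F * h) = n * m + wd n m h := by
    rw [wd_mul hn hF.monic.ne_zero hh, h1]
  have h4 : wd n m (C (C e) : R[X][X]) < wd n m (F * h) := by
    have : wd n m (C (C e) : R[X][X]) ≤ 0 := by
      refine wd_le hn fun j hj => ?_
      rcases Nat.eq_zero_or_pos j with rfl | h0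
      · rw [coeff_C_zero, natDegree_C, mul_zero, mul_zero, add_zero]
      · exact (hj (by rw [coeff_C, if_neg h0.ne'])).elim
    rw [h3]
    have : 0 < n * m := Nat.mul_pos hn hm
    omega
  have h5 := congrArg (tp n m) heq
  rw [tp_add h4, tp_mul, tp_mul, h2, zero_mul] at h5
  rcases mul_eq_zero.1 h5 with h6 | h6
  · exact tp_red hn hc hr0 hr h6
  · exact tp_red hn hc hs0 hs h6

end

section
variable {K : Type} [CommRing K] [IsDomain K] {n m : ℕ} {F : K[X][X]}

theorem exists_red (hF : IsCab n m F) (hn : 0 < n) (z : AdjoinRoot F) :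
    ∃ r : K[X][X], r.natDegree < n ∧ AdjoinRoot.mk F r = z := by
  obtain ⟨p, rfl⟩ := AdjoinRoot.mk_surjective z
  refine ⟨p %ₘ F, ?_, ?_⟩
  · have h1 := natDegree_modByMonic_lt p hF.monic (by
      intro h
      have := hF.deg
      rw [h, natDegree_one] at this
      omega)
    rwa [hF.deg] at h1
  · rw [AdjoinRoot.mk_eq_mk]
    refine ⟨-(p /ₘ F), ?_⟩
    have := modByMonic_add_div p F
    linear_combination this

theorem nontr (hn : 0 < n) (hF : IsCab n m F) : Nontrivial (AdjoinRoot F) := by
  refine AdjoinRoot.nontrivial F ?_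
  rw [degree_eq_natDegree hF.monic.ne_zero, hF.deg]
  exact_mod_cast hn.ne'

theorem mk_red_ne (hn : 0 < n) (hF : IsCab n m F) {r : K[X][X]} (hr : r.natDegree < n)
    (hr0 : r ≠ 0) : AdjoinRoot.mk F r ≠ 0 := by
  intro h
  rw [AdjoinRoot.mk_eq_zero] at h
  exact hF.monic.not_dvd_of_natDegree_lt hr0 (by rw [hF.deg]; exact hr) h

/-- **The ring of the curve is a domain.** -/
theorem dom (hn : 0 < n) (hm : 0 < m) (hc : n.Coprime m) (hF : IsCab n m F) :
    IsDomain (AdjoinRoot F) := by
  have hnt := nontr hn hF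
  have h1 : NoZeroDivisors (AdjoinRoot F) := by
    refine ⟨fun {a b} hab => ?_⟩
    obtain ⟨r, hr, rfl⟩ := exists_red hF hn a
    obtain ⟨s, hs, rfl⟩ := exists_red hF hn b
    by_cases hr0 : r = 0
    · left
      rw [hr0, map_zero]
    by_cases hs0 : s = 0
    · right
      rw [hs0, map_zero]
    exfalso
    rw [← map_mul, AdjoinRoot.mk_eq_zero] at hab
    obtain ⟨h, hh⟩ := hab
    have h2 := red_mul hn hm hc hF (e := 0) hr hs hr0 hs0 (h := h) (by
      rw [hh, C_0, C_0, zero_add])
    rw [h2, mul_zero] at hh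
    exact (mul_ne_zero hr0 hs0) hh
  exact NoZeroDivisors.to_isDomain _

theorem prime_of (hn : 0 < n) (hm : 0 < m) (hc : n.Coprime m) (hF : IsCab n m F) : Prime F := by
  have h1 := dom hn hm hc hF
  rw [← Ideal.span_singleton_prime hF.monic.ne_zero]
  exact (Ideal.Quotient.isDomain_iff_prime _).1 h1

end

section
variable {K : Type} [Field K] {n m : ℕ} {F : K[X][X]}

/-- **The units are constant.** -/
theorem units (hn : 0 < n) (hm : 0 < m) (hc : n.Coprime m) (hF : IsCab n m F) {u : AdjoinRoot F}
    (hu : IsUnit u) : ∃ c : K, c ≠ 0 ∧ u = AdjoinRoot.mk F (C (C c)) := by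
  have hnt := nontr hn hF
  obtain ⟨v, hv⟩ := hu.exists_right_inv
  obtain ⟨r, hr, rfl⟩ := exists_red hF hn u
  obtain ⟨s, hs, rfl⟩ := exists_red hF hn v
  have hr0 : r ≠ 0 := by
    rintro rfl
    rw [map_zero, zero_mul] at hv
    exact zero_ne_one hv
  have hs0 : s ≠ 0 := by
    rintro rfl
    rw [map_zero, mul_zero] at hv
    exact zero_ne_one hv
  rw [← map_mul, ← map_one (AdjoinRoot.mk F), AdjoinRoot.mk_eq_mk] at hv
  obtain ⟨h, hh⟩ := hv
  have h2 := red_mul hn hm hc hF (e := 1) hr hs hr0 hs0 (h := h) (by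
    rw [C_1, C_1]
    linear_combination hh)
  rw [h2, mul_zero, sub_eq_zero] at hh
  have h3 : IsUnit r := IsUnit.of_mul_eq_one _ hh
  obtain ⟨p, hp, rfl⟩ := Polynomial.isUnit_iff.1 h3
  obtain ⟨c, hc', rfl⟩ := Polynomial.isUnit_iff.1 hp
  exact ⟨c, hc'.ne_zero, rfl⟩

end

end Pool.Agent.K3h82.CP
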